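import Pool.Agent.LongCyc.Basic

/-!
# Longest cycle intersections (MP_7b0c7a_co): adding a path; declaring a piece empty
-/

namespace LongCyc

variable {V : Type*}

theorem add_rz {G : SimpleGraph V} {W : Set V} {s L : ℕ} {S : St} {f : ℕ → V}
    {I : ℕ → List V} (h : Rz G W s L S f I) {u v : ℕ} (hu : u < S.nv) (hv : v < S.nv)
    {p : List V} (hc : List.IsChain G.Adj (f u :: (p ++ [f v]))) (hp : p.Nodup)
    (h1 : ∀ z ∈ p, ∀ e < S.ps.length, z ∉ I e) (h2 : ∀ z ∈ p, ∀ i < S.nv, z ≠ f i)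
    (h3 : ∀ z ∈ p, z ∉ W) :
    Rz G W s L (S.add u v) f (Function.update I S.ps.length p) := by
  have hlen : (S.add u v).ps.length = S.ps.length + 1 := add_len S u v
  have hcase : ∀ e < (S.add u v).ps.length,
      (e < S.ps.length ∧ (S.add u v).pc e = S.pc e ∧
        Function.update I S.ps.length p e = I e) ∨
      (e = S.ps.length ∧ (S.add u v).pc e = (u, v, 2) ∧
        Function.update I S.ps.length p e = p) := by
    intro e he
    rw [hlen] at he
    rcases Nat.lt_succ_iff_lt_or_eq.1 he with h4 | h4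
    · left
      refine ⟨h4, add_pc_lt S u v e h4, ?_⟩
      rw [Function.update_of_ne (by omega)]
    · right
      subst h4
      exact ⟨rfl, add_pc_new S u v, by rw [Function.update_self]⟩
  have hnv : (S.add u v).nv = S.nv := rfl
  have hsum : ∀ t : ℕ → Bool, t 2 = false →
      ∑ e ∈ Finset.range (S.add u v).ps.length,
        (if t ((S.add u v).pc e).2.2 = true then
          (Function.update I S.ps.length p e).length + 1 else 0) =
      ∑ e ∈ Finset.range S.ps.length,
        (if t (S.pc e).2.2 = true then (I e).length + 1 else 0) := by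
    intro t ht
    rw [hlen, Finset.sum_range_succ, add_pc_new]
    simp only [ht, Bool.false_eq_true, if_false, add_zero]
    apply Finset.sum_congr rfl
    intro e he
    rw [Finset.mem_range] at he
    rw [add_pc_lt S u v e he, Function.update_of_ne (by omega)]
  refine ⟨?_, ?_, ?_, ?_, ?_, ?_, ?_, ?_, ?_, ?_, ?_, ?_, ?_⟩
  · intro e he
    rcases hcase e he with ⟨h4, h5, -⟩ | ⟨-, h5, -⟩
    · rw [h5, hnv]; exact h.lt e h4
    · rw [h5, hnv]; exact ⟨hu, hv⟩
  · intro e he
    rcases hcase e he with ⟨h4, h5, h6⟩ | ⟨-, h5, h6⟩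
    · rw [h5, h6]; exact h.ch e h4
    · rw [h5, h6]; exact hc
  · exact h.inj
  · intro e he
    rcases hcase e he with ⟨h4, -, h6⟩ | ⟨-, -, h6⟩
    · rw [h6]; exact h.nd e h4
    · rw [h6]; exact hp
  · intro e he e' he' hne x hx hx'
    rcases hcase e he with ⟨h4, -, h6⟩ | ⟨h4, -, h6⟩ <;>
      rcases hcase e' he' with ⟨h4', -, h6'⟩ | ⟨h4', -, h6'⟩ <;> rw [h6] at hx <;>
      rw [h6'] at hx'
    · exact h.dj e h4 e' h4' hne x hx hx'
    · exact h1 x hx' e h4 hx
    · exact h1 x hx e' h4' hx'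
    · exact hne (h4.trans h4'.symm)
  · intro i hi e he hx
    rcases hcase e he with ⟨h4, -, h6⟩ | ⟨-, -, h6⟩
    · rw [h6] at hx; exact h.fI i hi e h4 hx
    · rw [h6] at hx; exact h2 _ hx i hi rfl
  · intro e he hE
    rcases hcase e he with ⟨h4, h5, h6⟩ | ⟨-, h5, h6⟩
    · rw [h6]; rw [h5] at hE; exact h.emp e h4 hE
    · rw [h5] at hE
      have hE2 : isE 2 = true := hE
      exact absurd hE2 (by decide)
  · rw [hsum isC rfl]; exact h.sC
  · rw [hsum isD rfl]; exact h.sD
  · exact h.wN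
  · exact h.wW
  · intro e he x hx
    rcases hcase e he with ⟨h4, -, h6⟩ | ⟨-, -, h6⟩
    · rw [h6] at hx; exact h.wI e h4 x hx
    · rw [h6] at hx; exact h3 x hx
  · exact h.sn

theorem mkE_rz {G : SimpleGraph V} {W : Set V} {s L : ℕ} {S : St} {f : ℕ → V}
    {I : ℕ → List V} (h : Rz G W s L S f I) {e : ℕ} (he : e < S.ps.length) (hI : I e = []) :
    Rz G W s L (S.mkE e) f I := by
  have hlen : (S.mkE e).ps.length = S.ps.length := mkE_len S e
  have hnv : (S.mkE e).nv = S.nv := rfl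
  have hpc : ∀ e', ((S.mkE e).pc e').1 = (S.pc e').1 ∧
      ((S.mkE e).pc e').2.1 = (S.pc e').2.1 ∧
      isC ((S.mkE e).pc e').2.2 = isC (S.pc e').2.2 ∧
      isD ((S.mkE e).pc e').2.2 = isD (S.pc e').2.2 := by
    intro e'
    by_cases h4 : e' = e
    · subst h4
      rw [mkE_pc_self S e' he]
      exact ⟨rfl, rfl, isC_empt _, isD_empt _⟩
    · rw [mkE_pc_ne S e e' h4]
      exact ⟨rfl, rfl, rfl, rfl⟩
  refine ⟨?_, ?_, h.inj, ?_, ?_, ?_, ?_, ?_, ?_, h.wN, h.wW, ?_, h.sn⟩
  · intro e' he'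
    rw [hlen] at he'
    rw [(hpc e').1, (hpc e').2.1, hnv]
    exact h.lt e' he'
  · intro e' he'
    rw [hlen] at he'
    rw [(hpc e').1, (hpc e').2.1]
    exact h.ch e' he'
  · rw [hlen]; exact h.nd
  · rw [hlen]; exact h.dj
  · rw [hlen]; exact h.fI
  · intro e' he' hE
    rw [hlen] at he'
    by_cases h4 : e' = e
    · subst h4; exact hI
    · rw [mkE_pc_ne S e e' h4] at hE
      exact h.emp e' he' hE
  · rw [hlen, ← h.sC]
    apply Finset.sum_congr rfl
    intro e' _
    rw [(hpc e').2.2.1]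
  · rw [hlen, ← h.sD]
    apply Finset.sum_congr rfl
    intro e' _
    rw [(hpc e').2.2.2]
  · rw [hlen]; exact h.wI

end LongCyc
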