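import Pool.Agent.LongCyc.Rz

/-!
# Longest cycle intersections (MP_7b0c7a_co): access lemmas
-/

namespace LongCyc

theorem getP_lt (l : List (ℕ × ℕ × ℕ)) (e : ℕ) (h : e < l.length) : getP l e = l[e] := by
  induction l generalizing e with
  | nil => simp at h
  | cons p l ih =>
    cases e with
    | zero => rfl
    | succ n => simpa [getP] using ih n (by simpa using h)

theorem getP_ge (l : List (ℕ × ℕ × ℕ)) (e : ℕ) (h : l.length ≤ e) : getP l e = (0, 0, 9) := by
  induction l generalizing e with
  | nil => rfl
  | cons p l ih =>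
    cases e with
    | zero => simp at h
    | succ n => simpa [getP] using ih n (by simpa using h)

theorem length_setP (l : List (ℕ × ℕ × ℕ)) (e : ℕ) (q : ℕ × ℕ × ℕ) :
    (setP l e q).length = l.length := by
  induction l generalizing e with
  | nil => rfl
  | cons p l ih =>
    cases e with
    | zero => rfl
    | succ n => simpa [setP] using ih n

theorem getP_setP_self (l : List (ℕ × ℕ × ℕ)) (e : ℕ) (q : ℕ × ℕ × ℕ) (h : e < l.length) :
    getP (setP l e q) e = q := by
  induction l generalizing e with
  | nil => simp at h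
  | cons p l ih =>
    cases e with
    | zero => rfl
    | succ n => simpa [getP, setP] using ih n (by simpa using h)

theorem getP_setP_ne (l : List (ℕ × ℕ × ℕ)) (e e' : ℕ) (q : ℕ × ℕ × ℕ) (h : e' ≠ e) :
    getP (setP l e q) e' = getP l e' := by
  induction l generalizing e e' with
  | nil => rfl
  | cons p l ih =>
    cases e with
    | zero =>
      cases e' with
      | zero => exact absurd rfl h
      | succ m => rfl
    | succ n =>
      cases e' with
      | zero => rfl
      | succ m => simpa [getP, setP] using ih n m (by omega)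

theorem getP_append_left (l m : List (ℕ × ℕ × ℕ)) (e : ℕ) (h : e < l.length) :
    getP (l ++ m) e = getP l e := by
  rw [getP_lt _ e (by simp; omega), getP_lt _ e h, List.getElem_append_left h]

theorem getP_append_right (l m : List (ℕ × ℕ × ℕ)) (e : ℕ) (h : l.length ≤ e) :
    getP (l ++ m) e = getP m (e - l.length) := by
  by_cases h2 : e < (l ++ m).length
  · have h3 : e - l.length < m.length := by simp at h2; omega
    rw [getP_lt _ e h2, getP_lt _ _ h3, List.getElem_append_right h]
  · have h3 : m.length ≤ e - l.length := by simp at h2; omega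
    rw [getP_ge _ e (by omega), getP_ge _ _ h3]

theorem split_nv (S : St) (e : ℕ) : (S.split e).nv = S.nv + 1 := rfl

theorem split_len (S : St) (e : ℕ) : (S.split e).ps.length = S.ps.length + 1 := by
  simp [St.split, length_setP]

theorem split_pc_self (S : St) (e : ℕ) (h : e < S.ps.length) :
    (S.split e).pc e = ((S.pc e).1, S.nv, norm (S.pc e).2.2) := by
  have h2 := getP_setP_self S.ps e ((S.pc e).1, S.nv, norm (S.pc e).2.2) h
  show getP (setP S.ps e _ ++ _) e = _
  rw [getP_append_left _ _ _ (by rw [length_setP]; exact h), h2]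

theorem split_pc_new (S : St) (e : ℕ) :
    (S.split e).pc S.ps.length = (S.nv, (S.pc e).2.1, norm (S.pc e).2.2) := by
  show getP (setP S.ps e _ ++ _) S.ps.length = _
  rw [getP_append_right _ _ _ (by rw [length_setP]), length_setP]
  simp [getP]

theorem split_pc_ne (S : St) (e e' : ℕ) (h : e' < S.ps.length) (h2 : e' ≠ e) :
    (S.split e).pc e' = S.pc e' := by
  show getP (setP S.ps e _ ++ _) e' = getP S.ps e'
  rw [getP_append_left _ _ _ (by rw [length_setP]; exact h), getP_setP_ne _ _ _ _ h2]

theorem add_nv (S : St) (u v : ℕ) : (S.add u v).nv = S.nv := rfl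

theorem add_len (S : St) (u v : ℕ) : (S.add u v).ps.length = S.ps.length + 1 := by
  simp [St.add]

theorem add_pc_new (S : St) (u v : ℕ) : (S.add u v).pc S.ps.length = (u, v, 2) := by
  show getP (S.ps ++ _) S.ps.length = _
  rw [getP_append_right _ _ _ le_rfl]
  simp [getP]

theorem add_pc_lt (S : St) (u v e : ℕ) (h : e < S.ps.length) : (S.add u v).pc e = S.pc e :=
  getP_append_left _ _ _ h

theorem mkE_nv (S : St) (e : ℕ) : (S.mkE e).nv = S.nv := rfl

theorem mkE_len (S : St) (e : ℕ) : (S.mkE e).ps.length = S.ps.length := by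
  simp [St.mkE, length_setP]

theorem mkE_pc_self (S : St) (e : ℕ) (h : e < S.ps.length) :
    (S.mkE e).pc e = ((S.pc e).1, (S.pc e).2.1, empt (S.pc e).2.2) :=
  getP_setP_self S.ps e _ h

theorem mkE_pc_ne (S : St) (e e' : ℕ) (h : e' ≠ e) : (S.mkE e).pc e' = S.pc e' :=
  getP_setP_ne _ _ _ _ h

theorem isC_norm (t : ℕ) (h : isE t = false) : isC (norm t) = isC t := by
  unfold isC norm isE at *
  by_cases h3 : t = 3
  · subst h3; rfl
  by_cases h4 : t = 4
  · subst h4; rfl
  simp_all

theorem isD_norm (t : ℕ) (h : isE t = false) : isD (norm t) = isD t := by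
  unfold isD norm isE at *
  by_cases h3 : t = 3
  · subst h3; rfl
  by_cases h4 : t = 4
  · subst h4; rfl
  simp_all

theorem isE_norm (t : ℕ) (h : isE t = false) : isE (norm t) = false := by
  unfold norm isE at *
  by_cases h3 : t = 3
  · subst h3; rfl
  by_cases h4 : t = 4
  · subst h4; rfl
  simp_all

theorem isC_empt (t : ℕ) : isC (empt t) = isC t := by
  unfold isC empt
  by_cases h3 : t = 3
  · subst h3; rfl
  by_cases h4 : t = 4
  · subst h4; rfl
  simp_all

theorem isD_empt (t : ℕ) : isD (empt t) = isD t := by
  unfold isD empt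
  by_cases h3 : t = 3
  · subst h3; rfl
  by_cases h4 : t = 4
  · subst h4; rfl
  simp_all

theorem isU_cases (t : ℕ) (h : isU t = true) : t = 3 ∨ t = 4 := by
  unfold isU at h
  simpa using h

theorem memb_iff (e : ℕ) (l : List ℕ) : memb e l = true ↔ e ∈ l := by
  induction l with
  | nil => simp [memb]
  | cons x l ih =>
    by_cases h : x = e
    · subst h; simp [memb]
    · have h2 : e ≠ x := fun h' => h h'.symm
      simp [memb, ih, h, h2]

theorem cnt_eq (e : ℕ) (l : List ℕ) : cnt e l = l.count e := by
  induction l with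
  | nil => simp [cnt]
  | cons x l ih =>
    by_cases h : x = e
    · subst h; simp [cnt, ih]
    · simp [cnt, ih, h]

end LongCyc
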