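import Pool.Agent.LongCyc.Rz

/-!
# Longest cycle intersections (MP_7b0c7a_co): cycles as walks and as lists
-/

namespace LongCyc

variable {V : Type*}

/-- A list cycle gives a Mathlib cycle of the same length through the same vertices
(use `SimpleGraph.Walk.ofSupport`). -/
theorem walk_of_list (G : SimpleGraph V) (x : V) (t : List V) (h1 : (x :: t).Nodup)
    (h2 : List.IsChain G.Adj (x :: (t ++ [x]))) (h3 : 3 ≤ (x :: t).length) :
    ∃ c : G.Walk x x, c.IsCycle ∧ c.length = (x :: t).length ∧
      ∀ y, y ∈ c.support ↔ y ∈ x :: t := by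
  have hne : x :: (t ++ [x]) ≠ [] := by simp
  have hl : (x :: (t ++ [x])).getLast hne = x := by
    rw [List.getLast_cons (by simp)]
    simp
  have hh : (x :: (t ++ [x])).head hne = x := rfl
  obtain ⟨c, hc1, hc2⟩ : ∃ c : G.Walk x x, c.support = x :: (t ++ [x]) ∧ c.length = (x :: t).length := by
    refine ⟨(SimpleGraph.Walk.ofSupport (x :: (t ++ [x])) hne h2).copy hh hl, ?_, ?_⟩
    · rw [SimpleGraph.Walk.support_copy, SimpleGraph.Walk.support_ofSupport]
    · rw [SimpleGraph.Walk.length_copy, SimpleGraph.Walk.length_ofSupport]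
      simp
  refine ⟨c, ?_, hc2, ?_⟩
  · rw [SimpleGraph.Walk.isCycle_iff_isPath_tail_and_le_length]
    have hnil : ¬ c.Nil := by
      rw [← SimpleGraph.Walk.length_eq_zero_iff, hc2]
      simp
    refine ⟨?_, by omega⟩
    rw [SimpleGraph.Walk.isPath_def, SimpleGraph.Walk.support_tail_of_not_nil _ hnil, hc1]
    show (t ++ [x]).Nodup
    have h4 : (t ++ [x]).Perm (x :: t) := List.perm_append_singleton x t
    exact h4.nodup_iff.2 h1
  · intro y
    rw [hc1]
    simp only [List.mem_cons, List.mem_append, List.not_mem_nil, or_false]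
    tauto

/-- A Mathlib cycle can be run from each of its vertices `x`, as a list cycle. -/
theorem list_of_walk (G : SimpleGraph V) {u : V} (c : G.Walk u u) (hc : c.IsCycle) (x : V)
    (hx : x ∈ c.support) :
    ∃ t : List V, (x :: t).Nodup ∧ List.IsChain G.Adj (x :: (t ++ [x])) ∧
      (x :: t).length = c.length ∧ (∀ y, y ∈ x :: t ↔ y ∈ c.support) := by
  classical
  obtain ⟨d, hd⟩ : ∃ d : G.Walk x x, d = c.rotate x hx := ⟨_, rfl⟩
  have hdc : d.IsCycle := by
    rw [hd]
    exact hc.rotate hx
  have hnil : ¬ d.Nil := hdc.not_nil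
  have hlen : d.length = c.length := by
    rw [hd, ← SimpleGraph.Walk.length_edges, ← SimpleGraph.Walk.length_edges]
    exact (c.rotate_edges x hx).perm.length_eq
  have hne : d.support.tail ≠ [] := by
    intro h
    have h1 := congrArg List.length h
    rw [List.length_tail, SimpleGraph.Walk.length_support, List.length_nil] at h1
    have := hdc.three_le_length
    omega
  have hsup : d.support = x :: d.support.tail := (SimpleGraph.Walk.cons_tail_support d).symm
  have hlast : d.support.tail.getLast hne = x := by
    rw [List.getLast_tail]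
    exact SimpleGraph.Walk.getLast_support d
  obtain ⟨t, ht⟩ : ∃ t, d.support.tail = t ++ [x] := by
    refine ⟨d.support.tail.dropLast, ?_⟩
    conv_lhs => rw [← List.dropLast_append_getLast hne]
    rw [hlast]
  have hnd : (t ++ [x]).Nodup := by
    rw [← ht]
    exact hdc.support_nodup
  have hperm : (t ++ [x]).Perm (x :: t) := List.perm_append_singleton x t
  refine ⟨t, hperm.nodup_iff.1 hnd, ?_, ?_, ?_⟩
  · rw [← ht, ← hsup]
    exact SimpleGraph.Walk.isChain_adj_support d
  · have h1 := SimpleGraph.Walk.length_support d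
    rw [hsup, ht] at h1
    simp only [List.length_cons, List.length_append, List.length_nil] at h1 ⊢
    omega
  · intro y
    have h1 : y ∈ d.support ↔ y ∈ c.support := by
      rw [hd]
      exact SimpleGraph.Walk.mem_support_rotate_iff c x hx
    rw [← h1, hsup, ht]
    simp only [List.mem_cons, List.mem_append, List.not_mem_nil, or_false]
    tauto

theorem bd_of_longest (G : SimpleGraph V) (L : ℕ)
    (h : ∀ (v : V) (d : G.Walk v v), d.IsCycle → d.length ≤ L) : Bd G L := by
  intro x t h1 h2 h3
  obtain ⟨c, hc, hl, -⟩ := walk_of_list G x t h1 h2 h3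
  rw [← hl]
  exact h x c hc

end LongCyc
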