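import Pool.Agent.LongCyc.Fam

/-!
# Longest cycle intersections (MP_7b0c7a_co): connectivity of the graphs `GT T`

Let `W` be the deleted set. It is coded by two numbers `c, d < 13`: `c < 9` means that `inl c` is
deleted, `c = 10, 11, 12` that the partner of `4, 6, 7` is deleted, `c = 9` nothing. A finite search
(`clo`, closure under adjacency outside `[c, d]`, starting from the attachments which are left) shows
that every vertex of the first part which is left is joined to an attachment which is left.
-/

namespace LongCyc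

/-- closure of `S` under adjacency, outside `W`, `n` rounds -/
def clo : ℕ → List ℕ → List ℕ → List ℕ
  | 0, _, S => S
  | n + 1, W, S => clo n W ((List.range 9).filter
      (fun j => !(decide (j ∈ W)) && (decide (j ∈ S) || S.any (fun i => pAdj i j))))

theorem clo_sound (W : List ℕ) (P : ℕ → Prop)
    (h : ∀ x y, P x → y < 9 → y ∉ W → pAdj x y = true → P y) :
    ∀ (n : ℕ) (S : List ℕ), (∀ x ∈ S, P x) → ∀ x ∈ clo n W S, P x := by
  intro n
  induction n with
  | zero => exact fun S hS => hS
  | succ n ih =>
    intro S hS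
    refine ih _ ?_
    intro x hx
    rw [List.mem_filter, List.mem_range] at hx
    obtain ⟨h1, h2⟩ := hx
    rw [Bool.and_eq_true, Bool.or_eq_true, Bool.not_eq_true', decide_eq_false_iff_not,
      decide_eq_true_iff, List.any_eq_true] at h2
    obtain ⟨h3, h4⟩ := h2
    rcases h4 with h4 | ⟨i, hi, h4⟩
    · exact hS x h4
    · exact h i x (hS i hi) h1 h3 h4

/-- the attachments which are left -/
def src (c d : ℕ) : List ℕ :=
  [(4, 10), (6, 11), (7, 12)].filterMap
    (fun y => if y.1 = c ∨ y.1 = d ∨ y.2 = c ∨ y.2 = d then none else some y.1)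

def fact1 (c d : ℕ) : Bool :=
  (List.range 9).all fun x => decide (x = c) || decide (x = d) || decide (x ∈ clo 6 [c, d] (src c d))

theorem fact1_all : ∀ c < 13, ∀ d < 13, fact1 c d = true := by decide +kernel

def fact2 (c : ℕ) : Bool :=
  (List.range 9).all fun x => decide (x = c) || decide (x ∈ clo 8 [c] [if c = 0 then 1 else 0])

theorem fact2_all : ∀ c < 10, fact2 c = true := by decide +kernel

/-- some vertex `inr j` is left -/
theorem core (T : ℕ) (W : Set (Fin 9 ⊕ Fin (T + 1))) (j : Fin (T + 1)) (hj : Sum.inr j ∉ W)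
    (c d : ℕ) (hc : c < 13) (hd : d < 13)
    (h : ∀ z : Fin 9, Sum.inl z ∈ W ↔ (z.val = c ∨ z.val = d))
    (h4 : ∀ i : Fin (T + 1), i.val = 0 → Sum.inr i ∈ W → c = 10 ∨ d = 10)
    (h6 : ∀ i : Fin (T + 1), i.val = T → Sum.inr i ∈ W → c = 11 ∨ d = 11)
    (h7 : ∀ i : Fin (T + 1), i.val = min 1 T → Sum.inr i ∈ W → c = 12 ∨ d = 12) :
    ((GT T).induce Wᶜ).Connected := by
  rw [SimpleGraph.connected_iff_exists_forall_reachable]
  refine ⟨⟨Sum.inr j, hj⟩, ?_⟩
  have hinr : ∀ (i : Fin (T + 1)) (hi : Sum.inr i ∉ W),
      ((GT T).induce Wᶜ).Reachable ⟨Sum.inr j, hj⟩ ⟨Sum.inr i, hi⟩ := by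
    intro i hi
    by_cases hij : j = i
    · subst hij
      exact SimpleGraph.Reachable.refl _
    · refine SimpleGraph.Adj.reachable ?_
      show (GT T).Adj (Sum.inr j) (Sum.inr i)
      exact hij
  have hsrc : ∀ x ∈ src c d, ∃ (hx : x < 9) (hW : Sum.inl (⟨x, hx⟩ : Fin 9) ∉ W),
      ((GT T).induce Wᶜ).Reachable ⟨Sum.inr j, hj⟩ ⟨Sum.inl ⟨x, hx⟩, hW⟩ := by
    have key : ∀ (x i : ℕ) (hx : x < 9) (hi : i < T + 1), x ≠ c → x ≠ d →
        Sum.inr (⟨i, hi⟩ : Fin (T + 1)) ∉ W → att T x i = true →
        ∃ (hx : x < 9) (hW : Sum.inl (⟨x, hx⟩ : Fin 9) ∉ W),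
          ((GT T).induce Wᶜ).Reachable ⟨Sum.inr j, hj⟩ ⟨Sum.inl ⟨x, hx⟩, hW⟩ := by
      intro x i hx hi hxc hxd hiW ha
      have hW : Sum.inl (⟨x, hx⟩ : Fin 9) ∉ W := by
        rw [h]
        rintro (h | h)
        · exact hxc h
        · exact hxd h
      refine ⟨hx, hW, (hinr ⟨i, hi⟩ hiW).trans (SimpleGraph.Adj.reachable ?_)⟩
      show (GT T).Adj (Sum.inr ⟨i, hi⟩) (Sum.inl ⟨x, hx⟩)
      exact ha
    intro x hx
    unfold src at hx
    rw [List.mem_filterMap] at hx
    obtain ⟨⟨a, b⟩, hab, hx⟩ := hx
    by_cases hcase : a = c ∨ a = d ∨ b = c ∨ b = d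
    · simp [hcase] at hx
    · simp only [hcase, if_false, Option.some.injEq] at hx
      subst hx
      push Not at hcase
      obtain ⟨n1, n2, n3, n4⟩ := hcase
      simp only [List.mem_cons, Prod.mk.injEq, List.not_mem_nil, or_false] at hab
      rcases hab with ⟨rfl, rfl⟩ | ⟨rfl, rfl⟩ | ⟨rfl, rfl⟩
      · refine key 4 0 (by norm_num) (by omega) n1 n2 ?_ ?_
        · intro hm
          rcases h4 _ rfl hm with h | h <;> omega
        · simp [att]
      · refine key 6 T (by norm_num) (by omega) n1 n2 ?_ ?_
        · intro hm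
          rcases h6 _ rfl hm with h | h <;> omega
        · simp [att]
      · refine key 7 (min 1 T) (by norm_num) (by omega) n1 n2 ?_ ?_
        · intro hm
          rcases h7 _ rfl hm with h | h <;> omega
        · simp [att]
  rintro ⟨x | i, hx⟩
  · have hx' : Sum.inl x ∉ W := hx
    have hf := fact1_all c hc d hd
    unfold fact1 at hf
    rw [List.all_eq_true] at hf
    have hfx := hf x.val (List.mem_range.2 x.isLt)
    rw [Bool.or_eq_true, Bool.or_eq_true, decide_eq_true_iff, decide_eq_true_iff,
      decide_eq_true_iff] at hfx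
    rcases hfx with (hfx | hfx) | hfx
    · exact absurd ((h x).2 (Or.inl hfx)) hx'
    · exact absurd ((h x).2 (Or.inr hfx)) hx'
    · obtain ⟨h1, h2, h3⟩ := clo_sound [c, d]
        (fun x => ∃ (hx : x < 9) (hW : Sum.inl (⟨x, hx⟩ : Fin 9) ∉ W),
          ((GT T).induce Wᶜ).Reachable ⟨Sum.inr j, hj⟩ ⟨Sum.inl ⟨x, hx⟩, hW⟩)
        (by
          rintro a b ⟨ha, haW, har⟩ hb hbW hab
          have hbW' : Sum.inl (⟨b, hb⟩ : Fin 9) ∉ W := by
            rw [h]
            simpa using hbW
          refine ⟨hb, hbW', har.trans (SimpleGraph.Adj.reachable ?_)⟩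
          show (GT T).Adj (Sum.inl ⟨a, ha⟩) (Sum.inl ⟨b, hb⟩)
          exact hab) 6 (src c d) hsrc x.val hfx
      exact h3
  · exact hinr i hx

/-- the part `{0..8}` with at most one vertex deleted -/
theorem core2 (T : ℕ) (W : Set (Fin 9 ⊕ Fin (T + 1))) (hW : ∀ j : Fin (T + 1), Sum.inr j ∈ W)
    (c : ℕ) (hc : c < 10) (h : ∀ z : Fin 9, Sum.inl z ∈ W ↔ z.val = c) :
    ((GT T).induce Wᶜ).Connected := by
  rw [SimpleGraph.connected_iff_exists_forall_reachable]
  obtain ⟨s, hs, hsc⟩ : ∃ s : ℕ, s < 9 ∧ s = (if c = 0 then 1 else 0) :=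
    ⟨if c = 0 then 1 else 0, by split_ifs <;> norm_num, rfl⟩
  have hsW : Sum.inl (⟨s, hs⟩ : Fin 9) ∉ W := by
    rw [h]
    show s ≠ c
    rw [hsc]
    split_ifs <;> omega
  refine ⟨⟨Sum.inl ⟨s, hs⟩, hsW⟩, ?_⟩
  rintro ⟨x | i, hx⟩
  · have hx' : Sum.inl x ∉ W := hx
    have hf := fact2_all c hc
    unfold fact2 at hf
    rw [List.all_eq_true] at hf
    have hfx := hf x.val (List.mem_range.2 x.isLt)
    rw [Bool.or_eq_true, decide_eq_true_iff, decide_eq_true_iff] at hfx
    rcases hfx with hfx | hfx
    · exact absurd ((h x).2 hfx) hx'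
    · obtain ⟨h1, h2, h3⟩ := clo_sound [c]
        (fun x => ∃ (hx : x < 9) (hW : Sum.inl (⟨x, hx⟩ : Fin 9) ∉ W),
          ((GT T).induce Wᶜ).Reachable ⟨Sum.inl ⟨s, hs⟩, hsW⟩ ⟨Sum.inl ⟨x, hx⟩, hW⟩)
        (by
          rintro a b ⟨ha, haW, har⟩ hb hbW hab
          have hbW' : Sum.inl (⟨b, hb⟩ : Fin 9) ∉ W := by
            rw [h]
            simpa using hbW
          refine ⟨hb, hbW', har.trans (SimpleGraph.Adj.reachable ?_)⟩
          show (GT T).Adj (Sum.inl ⟨a, ha⟩) (Sum.inl ⟨b, hb⟩)
          exact hab) 8 [if c = 0 then 1 else 0]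
        (by
          intro y hy
          rw [List.mem_singleton] at hy
          have hy' : y = s := by rw [hy, hsc]
          subst hy'
          exact ⟨hs, hsW, SimpleGraph.Reachable.refl _⟩) x.val hfx
      exact h3
  · exact absurd (hW i) hx

/-- the code of a vertex, `T ≥ 2` -/
def cod (T : ℕ) : Fin 9 ⊕ Fin (T + 1) → ℕ
  | .inl x => x.val
  | .inr i => if i.val = 0 then 10 else if i.val = T then 11 else if i.val = 1 then 12 else 9

theorem card_GT (T : ℕ) : Fintype.card (Fin 9 ⊕ Fin (T + 1)) = T + 10 := by
  rw [Fintype.card_sum, Fintype.card_fin, Fintype.card_fin]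
  omega

/-- a set with at most two elements -/
theorem two_cases {α : Type} [Finite α] (W : Set α) (h : W.ncard < 3) :
    W = ∅ ∨ (∃ u, W = {u}) ∨ ∃ u v, u ≠ v ∧ W = {u, v} := by
  have h0 : W.ncard = 0 ∨ W.ncard = 1 ∨ W.ncard = 2 := by omega
  rcases h0 with h0 | h0 | h0
  · left
    exact (Set.ncard_eq_zero (Set.toFinite W)).1 h0
  · right; left
    exact Set.ncard_eq_one.1 h0
  · right; right
    exact Set.ncard_eq_two.1 h0

theorem big (T : ℕ) (hT : 2 ≤ T) (W : Set (Fin 9 ⊕ Fin (T + 1))) (h : W.ncard < 3) :
    ((GT T).induce Wᶜ).Connected := by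
  -- codes
  obtain ⟨u, v, hu, hv, hW⟩ : ∃ u v : ℕ, u < 13 ∧ v < 13 ∧
      (∀ x, x ∈ W → cod T x = u ∨ cod T x = v) ∧
      (∀ z : Fin 9, (z.val = u ∨ z.val = v) → Sum.inl z ∈ W) := by
    have hc : ∀ x, cod T x < 13 := by
      rintro (x | i)
      · show x.val < 13
        have := x.isLt
        omega
      · show (if i.val = 0 then 10 else if i.val = T then 11 else if i.val = 1 then 12 else 9) < 13
        split_ifs <;> norm_num
    have hz : ∀ (z : Fin 9) (x : Fin 9 ⊕ Fin (T + 1)), z.val = cod T x → Sum.inl z = x := by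
      rintro z (x | i) hzx
      · exact congrArg Sum.inl (Fin.ext hzx)
      · have h1 : z.val = (if i.val = 0 then 10 else if i.val = T then 11 else
            if i.val = 1 then 12 else 9) := hzx
        have := z.isLt
        split_ifs at h1 <;> omega
    rcases two_cases W h with rfl | ⟨x, rfl⟩ | ⟨x, y, -, rfl⟩
    · refine ⟨9, 9, by norm_num, by norm_num, ?_, ?_⟩
      · intro x hx
        exact absurd hx (Set.notMem_empty x)
      · intro z hz
        have := z.isLt
        omega
    · refine ⟨cod T x, 9, hc x, by norm_num, ?_, ?_⟩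
      · intro a ha
        rw [Set.mem_singleton_iff] at ha
        rw [ha]
        exact Or.inl rfl
      · rintro z (hz' | hz')
        · exact hz z x hz'
        · have := z.isLt
          omega
    · refine ⟨cod T x, cod T y, hc x, hc y, ?_, ?_⟩
      · intro a ha
        rcases ha with ha | ha
        · rw [ha]; exact Or.inl rfl
        · rw [Set.mem_singleton_iff] at ha
          rw [ha]; exact Or.inr rfl
      · rintro z (hz' | hz')
        · exact Or.inl (hz z x hz')
        · exact Or.inr (hz z y hz')
  obtain ⟨j, hj⟩ : ∃ j : Fin (T + 1), Sum.inr j ∉ W := by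
    by_contra hcon
    push Not at hcon
    have h3 : (({Sum.inr (⟨0, by omega⟩ : Fin (T + 1)), Sum.inr ⟨1, by omega⟩,
        Sum.inr ⟨2, by omega⟩} : Finset (Fin 9 ⊕ Fin (T + 1)))).card = 3 := by
      rw [Finset.card_eq_three]
      refine ⟨_, _, _, ?_, ?_, ?_, rfl⟩
      · intro h'
        simp at h'
      · intro h'
        simp at h'
      · intro h'
        simp at h'
    have h4 : (↑({Sum.inr (⟨0, by omega⟩ : Fin (T + 1)), Sum.inr ⟨1, by omega⟩,
        Sum.inr ⟨2, by omega⟩} : Finset (Fin 9 ⊕ Fin (T + 1))) : Set _) ⊆ W := by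
      intro x hx
      simp only [Finset.coe_insert, Finset.coe_singleton, Set.mem_insert_iff,
        Set.mem_singleton_iff] at hx
      rcases hx with rfl | rfl | rfl
      · exact hcon _
      · exact hcon _
      · exact hcon _
    have h5 := Set.ncard_le_ncard h4 (Set.toFinite W)
    rw [Set.ncard_coe_finset, h3] at h5
    omega
  refine core T W j hj u v hu hv ?_ ?_ ?_ ?_
  · intro z
    exact ⟨fun hz => hW.1 _ hz, fun hz => hW.2 z hz⟩
  · intro i hi hiW
    have h1 : cod T (Sum.inr i) = 10 := by
      show (if i.val = 0 then 10 else if i.val = T then 11 else if i.val = 1 then 12 else 9) = 10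
      rw [if_pos hi]
    rcases hW.1 _ hiW with h2 | h2
    · exact Or.inl (h2.symm.trans h1)
    · exact Or.inr (h2.symm.trans h1)
  · intro i hi hiW
    have h1 : cod T (Sum.inr i) = 11 := by
      show (if i.val = 0 then 10 else if i.val = T then 11 else if i.val = 1 then 12 else 9) = 11
      rw [if_neg (by omega), if_pos hi]
    rcases hW.1 _ hiW with h2 | h2
    · exact Or.inl (h2.symm.trans h1)
    · exact Or.inr (h2.symm.trans h1)
  · intro i hi hiW
    have hi1 : i.val = 1 := by omega
    have h1 : cod T (Sum.inr i) = 12 := by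
      show (if i.val = 0 then 10 else if i.val = T then 11 else if i.val = 1 then 12 else 9) = 12
      rw [if_neg (by omega), if_neg (by omega), if_pos hi1]
    rcases hW.1 _ hiW with h2 | h2
    · exact Or.inl (h2.symm.trans h1)
    · exact Or.inr (h2.symm.trans h1)

/-- `T = 0` -/
theorem zer (W : Set (Fin 9 ⊕ Fin (0 + 1))) (h : W.ncard < 3) :
    ((GT 0).induce Wᶜ).Connected := by
  have hi0 : ∀ i : Fin (0 + 1), i = 0 := fun i => Fin.ext (by have := i.isLt; show i.val = 0; omega)
  -- code: `inl x` is `x`, `inr 0` is `9`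
  have hz : ∀ (z : Fin 9) (x : Fin 9 ⊕ Fin (0 + 1)),
      z.val = (Sum.elim (fun a : Fin 9 => a.val) (fun _ => 9) x : ℕ) ↔ Sum.inl z = x := by
    rintro z (x | i)
    · constructor
      · intro h
        exact congrArg Sum.inl (Fin.ext h)
      · intro h
        exact congrArg Fin.val (Sum.inl.inj h)
    · constructor
      · intro h
        have := z.isLt
        have h' : z.val = 9 := h
        omega
      · intro h
        exact absurd h (by simp)
  have hlt : ∀ x : Fin 9 ⊕ Fin (0 + 1),
      (Sum.elim (fun a : Fin 9 => a.val) (fun _ => 9) x : ℕ) < 10 := by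
    rintro (x | i)
    · show x.val < 10
      have := x.isLt
      omega
    · show 9 < 10
      norm_num
  by_cases h0 : Sum.inr (0 : Fin (0 + 1)) ∈ W
  · -- `W = {inr 0}` or `{inr 0, u}`
    obtain ⟨u, hu, hW⟩ : ∃ u : ℕ, u < 10 ∧ ∀ z : Fin 9, Sum.inl z ∈ W ↔ z.val = u := by
      rcases two_cases W h with rfl | ⟨x, rfl⟩ | ⟨x, y, -, rfl⟩
      · exact absurd h0 (Set.notMem_empty _)
      · rw [Set.mem_singleton_iff] at h0
        subst h0
        refine ⟨9, by norm_num, fun z => ?_⟩
        rw [Set.mem_singleton_iff]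
        exact (hz z (Sum.inr 0)).symm
      · rcases h0 with h0 | h0
        · subst h0
          refine ⟨_, hlt y, fun z => ?_⟩
          rw [hz z y]
          constructor
          · rintro (h | h)
            · exact absurd h (by simp)
            · exact h
          · exact fun h => Or.inr h
        · rw [Set.mem_singleton_iff] at h0
          subst h0
          refine ⟨_, hlt x, fun z => ?_⟩
          rw [hz z x]
          constructor
          · rintro (h | h)
            · exact h
            · exact absurd h (by simp)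
          · exact fun h => Or.inl h
    refine core2 0 W ?_ u hu hW
    intro j
    rw [hi0 j]
    exact h0
  · obtain ⟨u, v, hu, hv, hW⟩ : ∃ u v : ℕ, u < 10 ∧ v < 10 ∧
        ∀ z : Fin 9, Sum.inl z ∈ W ↔ (z.val = u ∨ z.val = v) := by
      rcases two_cases W h with rfl | ⟨x, rfl⟩ | ⟨x, y, -, rfl⟩
      · refine ⟨9, 9, by norm_num, by norm_num, fun z => ?_⟩
        have := z.isLt
        constructor
        · intro h
          exact absurd h (Set.notMem_empty _)
        · intro h
          omega
      · refine ⟨_, _, hlt x, hlt x, fun z => ?_⟩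
        rw [hz z x, or_self, Set.mem_singleton_iff]
      · refine ⟨_, _, hlt x, hlt y, fun z => ?_⟩
        rw [hz z x, hz z y]
        rfl
    have hno : ∀ i : Fin (0 + 1), Sum.inr i ∈ W → False := by
      intro i hi
      rw [hi0 i] at hi
      exact h0 hi
    exact core 0 W 0 h0 u v (by omega) (by omega) hW (fun i _ hi => (hno i hi).elim)
      (fun i _ hi => (hno i hi).elim) (fun i _ hi => (hno i hi).elim)

theorem conn3 (T : ℕ) (hT : T ≠ 1) : KConnected 3 (GT T) := by
  refine ⟨by rw [card_GT]; omega, fun W hW => ?_⟩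
  rcases Nat.eq_zero_or_pos T with rfl | hT0
  · exact zer W hW
  · exact big T (by omega) W hW

theorem conn2 (T : ℕ) : KConnected 2 (GT T) := by
  by_cases hT : T = 1
  · subst hT
    refine ⟨by rw [card_GT]; omega, fun W hW => ?_⟩
    have h1 : W.ncard = 0 ∨ W.ncard = 1 := by omega
    rcases h1 with h1 | h1
    · have hW0 : W = ∅ := (Set.ncard_eq_zero (Set.toFinite W)).1 h1
      subst hW0
      refine core 1 ∅ 0 (Set.notMem_empty _) 9 9 (by norm_num) (by norm_num) ?_ ?_ ?_ ?_
      · intro z
        have := z.isLt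
        constructor
        · intro h
          exact absurd h (Set.notMem_empty _)
        · intro h
          omega
      · exact fun i _ hi => absurd hi (Set.notMem_empty _)
      · exact fun i _ hi => absurd hi (Set.notMem_empty _)
      · exact fun i _ hi => absurd hi (Set.notMem_empty _)
    · obtain ⟨x, rfl⟩ := Set.ncard_eq_one.1 h1
      rcases x with x | i
      · refine core 1 {Sum.inl x} 0 (by simp) x.val 9 (by have := x.isLt; omega) (by norm_num)
          ?_ ?_ ?_ ?_
        · intro z
          have := z.isLt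
          rw [Set.mem_singleton_iff]
          constructor
          · intro h
            exact Or.inl (congrArg Fin.val (Sum.inl.inj h))
          · rintro (h | h)
            · exact congrArg Sum.inl (Fin.ext h)
            · omega
        · intro i _ hi
          exact absurd hi (by simp)
        · intro i _ hi
          exact absurd hi (by simp)
        · intro i _ hi
          exact absurd hi (by simp)
      · have hi : i.val = 0 ∨ i.val = 1 := by
          have := i.isLt
          omega
        have hne : ∀ a : Fin 2, a.val ≠ i.val → (Sum.inr a : Fin 9 ⊕ Fin (1 + 1)) ∉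
            ({Sum.inr i} : Set (Fin 9 ⊕ Fin (1 + 1))) := by
          intro a ha h
          rw [Set.mem_singleton_iff] at h
          exact ha (congrArg Fin.val (Sum.inr.inj h))
        have hmem : ∀ a : Fin (1 + 1), Sum.inr a ∈ ({Sum.inr i} : Set (Fin 9 ⊕ Fin (1 + 1))) →
            a.val = i.val := by
          intro a h
          rw [Set.mem_singleton_iff] at h
          exact congrArg Fin.val (Sum.inr.inj h)
        have hinl : ∀ z : Fin 9, Sum.inl z ∉ ({Sum.inr i} : Set (Fin 9 ⊕ Fin (1 + 1))) := by
          intro z h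
          rw [Set.mem_singleton_iff] at h
          exact absurd h (by simp)
        rcases hi with hi | hi
        · refine core 1 {Sum.inr i} 1 (hne 1 (by rw [hi]; norm_num)) 10 9 (by norm_num)
            (by norm_num) ?_ ?_ ?_ ?_
          · intro z
            have := z.isLt
            constructor
            · intro h
              exact absurd h (hinl z)
            · intro h
              omega
          · exact fun _ _ _ => Or.inl rfl
          · intro a ha h
            have := hmem a h
            omega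
          · intro a ha h
            have := hmem a h
            have h2 : min 1 1 = 1 := rfl
            omega
        · refine core 1 {Sum.inr i} 0 (hne 0 (by rw [hi]; norm_num)) 11 12 (by norm_num)
            (by norm_num) ?_ ?_ ?_ ?_
          · intro z
            have := z.isLt
            constructor
            · intro h
              exact absurd h (hinl z)
            · intro h
              omega
          · intro a ha h
            have := hmem a h
            omega
          · exact fun _ _ _ => Or.inl rfl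
          · exact fun _ _ _ => Or.inr rfl
  · obtain ⟨h1, h2⟩ := conn3 T hT
    exact ⟨by omega, fun W hW => h2 W (by omega)⟩

end LongCyc
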