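import Pool.Agent.LongCyc.Basic

/-!
# Longest cycle intersections (MP_7b0c7a_co): a cycle of a state gives a cycle of the graph

Paper proof.  For the walk from the node `cur` with list of pieces `es` let the vertex list be
`f cur :: (J e ++ rest)`, where `J e = I e` if the piece is run from its source and
`J e = (I e).reverse` otherwise, and `rest` is the list of the remaining walk from the next node.
By induction on `es` (generalising `cur`, `vis`, `ue`), `walk S n0 cur vis ue es = true` with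
`cur < S.nv` gives a list `l` with `List.IsChain G.Adj (f cur :: (l ++ [f n0]))`,
`(f cur :: l).length = (es.map (fun e => (I e).length + 1)).sum`, every element of `l` is `f i` with
`i < S.nv`, `i ∉ vis`, or belongs to `I e` with `e ∈ es`; all `e ∈ es` are `< S.ps.length` and
`∉ ue`; and `l` is nodup.  In the inductive step the next node is not in `vis` and the later nodes
are not in `next :: vis`; the later pieces are not in `e :: ue`; hence everything is disjoint by
`h.inj`, `h.dj`, `h.fI`.  At the top: `cur = n0`, `vis = [n0]`, `ue = []`.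
-/

namespace LongCyc

variable {V : Type*}

private def Good (G : SimpleGraph V) (S : St) (f : ℕ → V) (I : ℕ → List V) (n0 cur : ℕ)
    (vis ue es : List ℕ) : Prop :=
  ∃ l : List V, List.IsChain G.Adj (f cur :: (l ++ [f n0])) ∧
    (f cur :: l).length = (es.map (fun e => (I e).length + 1)).sum ∧
    (∀ x ∈ l, (∃ i, i < S.nv ∧ i ∉ vis ∧ x = f i) ∨ (∃ e ∈ es, x ∈ I e)) ∧
    (∀ e ∈ es, e < S.ps.length ∧ e ∉ ue) ∧ l.Nodup

private theorem good_one {G : SimpleGraph V} {S : St} {f : ℕ → V} {I : ℕ → List V} {n0 cur e : ℕ}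
    {vis ue : List ℕ} {J : List V} (he : e < S.ps.length) (hu : e ∉ ue)
    (hc : List.IsChain G.Adj (f cur :: (J ++ [f n0]))) (hn : J.Nodup)
    (hm : ∀ x, x ∈ J ↔ x ∈ I e) (hl : J.length = (I e).length) :
    Good G S f I n0 cur vis ue [e] := by
  refine ⟨J, hc, ?_, ?_, ?_, hn⟩
  · simp [hl]
  · intro x hx
    exact Or.inr ⟨e, by simp, (hm x).mp hx⟩
  · intro e' he'
    have : e' = e := by simpa using he'
    subst this
    exact ⟨he, hu⟩

private theorem good_cons {G : SimpleGraph V} {W : Set V} {s L : ℕ} {S : St} {f : ℕ → V}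
    {I : ℕ → List V} (h : Rz G W s L S f I) {n0 cur nx e : ℕ}
    {vis ue es : List ℕ} {J : List V} (he : e < S.ps.length) (hu : e ∉ ue)
    (hnx : nx < S.nv) (hv : nx ∉ vis)
    (hc : List.IsChain G.Adj (f cur :: (J ++ [f nx]))) (hn : J.Nodup)
    (hm : ∀ x, x ∈ J ↔ x ∈ I e) (hl : J.length = (I e).length)
    (hg : Good G S f I n0 nx (nx :: vis) (e :: ue) es) :
    Good G S f I n0 cur vis ue (e :: es) := by
  obtain ⟨l, lc, ll, lm, le, ln⟩ := hg
  refine ⟨J ++ f nx :: l, ?_, ?_, ?_, ?_, ?_⟩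
  · have h1 : f cur :: ((J ++ f nx :: l) ++ [f n0]) = (f cur :: J) ++ f nx :: (l ++ [f n0]) := by
      simp
    rw [h1, List.isChain_split]
    exact ⟨by simpa using hc, lc⟩
  · simp only [List.length_cons, List.length_append, List.map_cons, List.sum_cons] at ll ⊢
    rw [← ll, hl]
    omega
  · intro x hx
    rcases List.mem_append.mp hx with hx | hx
    · exact Or.inr ⟨e, by simp, (hm x).mp hx⟩
    · rcases List.mem_cons.mp hx with hx | hx
      · exact Or.inl ⟨nx, hnx, hv, hx⟩
      · rcases lm x hx with ⟨i, hi, hi2, hi3⟩ | ⟨e', he', hx'⟩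
        · exact Or.inl ⟨i, hi, fun hh => hi2 (List.mem_cons_of_mem _ hh), hi3⟩
        · exact Or.inr ⟨e', List.mem_cons_of_mem _ he', hx'⟩
  · intro e' he'
    rcases List.mem_cons.mp he' with he' | he'
    · subst he'
      exact ⟨he, hu⟩
    · have := le e' he'
      exact ⟨this.1, fun hh => this.2 (List.mem_cons_of_mem _ hh)⟩
  · rw [List.nodup_append]
    refine ⟨hn, ?_, ?_⟩
    · rw [List.nodup_cons]
      refine ⟨?_, ln⟩
      intro hx
      rcases lm _ hx with ⟨i, hi, hi2, hi3⟩ | ⟨e', he', hx'⟩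
      · have : nx = i := h.inj nx hnx i hi hi3
        subst this
        exact hi2 (by simp)
      · exact h.fI nx hnx e' (le e' he').1 hx'
    · intro x hx y hy hxy
      subst hxy
      have hx1 : x ∈ I e := (hm x).mp hx
      rcases List.mem_cons.mp hy with hy | hy
      · subst hy
        exact h.fI nx hnx e he hx1
      · rcases lm x hy with ⟨i, hi, hi2, hi3⟩ | ⟨e', he', hx'⟩
        · subst hi3
          exact h.fI i hi e he hx1
        · have h3 := le e' he'
          have h4 : e ≠ e' := fun hh => h3.2 (by rw [hh]; simp)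
          exact h.dj e he e' h3.1 h4 x hx1 hx'

private theorem walk_cases {S : St} {n0 cur e : ℕ} {vis ue es : List ℕ}
    (hw : walk S n0 cur vis ue (e :: es) = true) :
    e < S.ps.length ∧ e ∉ ue ∧ ∃ nx, (((S.pc e).1 = cur ∧ nx = (S.pc e).2.1) ∨
      ((S.pc e).2.1 = cur ∧ nx = (S.pc e).1)) ∧ ((es = [] ∧ nx = n0) ∨
        (nx ∉ vis ∧ walk S n0 nx (nx :: vis) (e :: ue) es = true)) := by
  have hu : ∀ l : List ℕ, memb e l = false → e ∉ l := by
    intro l hl hh
    rw [(memb_iff e l).mpr hh] at hl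
    exact absurd hl (by decide)
  have hv : ∀ (x : ℕ) (l : List ℕ), memb x l = false → x ∉ l := by
    intro x l hl hh
    rw [(memb_iff x l).mpr hh] at hl
    exact absurd hl (by decide)
  cases es with
  | nil =>
    simp only [walk, Bool.and_eq_true, Bool.not_eq_true', Nat.ble_eq] at hw
    obtain ⟨⟨h1, h2⟩, h3⟩ := hw
    refine ⟨by omega, hu _ h2, ?_⟩
    split at h3
    · rename_i h4
      exact ⟨(S.pc e).2.1, Or.inl ⟨by simpa using h4, rfl⟩, Or.inl ⟨rfl, by simpa using h3⟩⟩
    · rename_i h4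
      simp only [Bool.and_eq_true] at h3
      exact ⟨(S.pc e).1, Or.inr ⟨by simpa using h3.1, rfl⟩, Or.inl ⟨rfl, by simpa using h3.2⟩⟩
  | cons e2 es =>
    simp only [walk, Bool.and_eq_true, Bool.not_eq_true', Nat.ble_eq] at hw
    obtain ⟨⟨h1, h2⟩, h3⟩ := hw
    refine ⟨by omega, hu _ h2, ?_⟩
    split at h3
    · rename_i h4
      simp only [Bool.and_eq_true, Bool.not_eq_true'] at h3
      refine ⟨(S.pc e).2.1, Or.inl ⟨by simpa using h4, rfl⟩, Or.inr ⟨hv _ _ h3.1, ?_⟩⟩
      simpa only [walk, Bool.and_eq_true, Bool.not_eq_true', Nat.ble_eq] using h3.2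
    · rename_i h4
      simp only [Bool.and_eq_true, Bool.not_eq_true'] at h3
      refine ⟨(S.pc e).1, Or.inr ⟨by simpa using h3.1, rfl⟩, Or.inr ⟨hv _ _ h3.2.1, ?_⟩⟩
      simpa only [walk, Bool.and_eq_true, Bool.not_eq_true', Nat.ble_eq] using h3.2.2

private theorem walk_good {G : SimpleGraph V} {W : Set V} {s L : ℕ} {S : St} {f : ℕ → V}
    {I : ℕ → List V} (h : Rz G W s L S f I) (n0 : ℕ) : ∀ (es : List ℕ) (cur : ℕ)
    (vis ue : List ℕ), walk S n0 cur vis ue es = true → Good G S f I n0 cur vis ue es := by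
  intro es
  induction es with
  | nil => intro cur vis ue hw; simp [walk] at hw
  | cons e es ih =>
    intro cur vis ue hw
    obtain ⟨he, hu, nx, hor, hend⟩ := walk_cases hw
    have hlt := h.lt e he
    obtain ⟨J, hJc, hJn, hJm, hJl⟩ : ∃ J : List V, List.IsChain G.Adj (f cur :: (J ++ [f nx])) ∧
        J.Nodup ∧ (∀ x, x ∈ J ↔ x ∈ I e) ∧ J.length = (I e).length := by
      rcases hor with ⟨h1, h2⟩ | ⟨h1, h2⟩
      · refine ⟨I e, ?_, h.nd e he, fun x => Iff.rfl, rfl⟩
        rw [← h1, h2]
        exact h.ch e he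
      · refine ⟨(I e).reverse, ?_, List.nodup_reverse.mpr (h.nd e he), fun x => List.mem_reverse,
          List.length_reverse⟩
        rw [← h1, h2]
        have h3 : f (S.pc e).2.1 :: ((I e).reverse ++ [f (S.pc e).1]) =
            (f (S.pc e).1 :: (I e ++ [f (S.pc e).2.1])).reverse := by simp
        rw [h3, List.isChain_reverse]
        exact (h.ch e he).imp (fun a b hab => hab.symm)
    have hnx : nx < S.nv := by
      rcases hor with ⟨_, h2⟩ | ⟨_, h2⟩
      · rw [h2]; exact hlt.2
      · rw [h2]; exact hlt.1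
    rcases hend with ⟨h1, h2⟩ | ⟨h1, h2⟩
    · subst h1
      subst h2
      exact good_one he hu hJc hJn hJm hJl
    · exact good_cons h he hu hnx h1 hJc hJn hJm hJl (ih nx (nx :: vis) (e :: ue) h2)

theorem cyc_list {G : SimpleGraph V} {W : Set V} {s L : ℕ} {S : St} {f : ℕ → V}
    {I : ℕ → List V} (h : Rz G W s L S f I) {c : List ℕ} (hc : cyc S c = true) :
    ∃ (x : V) (t : List V), (x :: t).Nodup ∧ List.IsChain G.Adj (x :: (t ++ [x])) ∧
      (x :: t).length = ((c.tail).map (fun e => (I e).length + 1)).sum ∧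
      (∀ e ∈ c.tail, e < S.ps.length) ∧ 2 ≤ c.tail.length := by
  cases c with
  | nil => simp [cyc] at hc
  | cons n0 es =>
    simp only [cyc, Bool.and_eq_true, Nat.ble_eq] at hc
    obtain ⟨⟨h1, h2⟩, h3⟩ := hc
    obtain ⟨l, lc, ll, lm, le, ln⟩ := walk_good h n0 es n0 [n0] [] h3
    refine ⟨f n0, l, ?_, lc, ll, fun e he => (le e he).1, h1⟩
    rw [List.nodup_cons]
    refine ⟨?_, ln⟩
    intro hx
    rcases lm _ hx with ⟨i, hi, hi2, hi3⟩ | ⟨e', he', hx'⟩
    · have : n0 = i := h.inj n0 (by omega) i hi hi3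
      subst this
      exact hi2 (by simp)
    · exact h.fI n0 (by omega) e' (le e' he').1 hx'

end LongCyc
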