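import Pool.Agent.LongCyc.NonHam
import Pool.Agent.LongCyc.Conn3

/-!
# Longest cycle intersections (MP_7b0c7a_co): two longest cycles of the graphs `GT T`

Let `K = (List.finRange (T + 1)).map Sum.inr` (a chain, since different `inr`
vertices are adjacent), `pC = [6, 1, 2, 7, 5, 8, 3, 4]`, `pD = [6, 8, 3, 2, 7, 5, 0, 4]` (chains for
`pAdj`, mapped to `Sum.inl`).  The cyclic lists `pC ++ K` and `pD ++ K` are cycles with `T + 9`
vertices (`4` is attached to `0`, the first element of `K`, and `6` to `T`, the last one).  The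
first misses exactly the vertex `0`, the second exactly the vertex `1`.  Every cycle has at most
`T + 9` vertices by `nonham` (there are `T + 10` vertices).  So both are longest cycles, the common
vertices are all vertices except `0` and `1`: `T + 8` many, and `G` minus the common vertices is the
edge `0 - 1`, which is preconnected.
-/

namespace LongCyc

private theorem cyc_of (T : ℕ) (q : List (Fin 9)) (h1 : ((6 : Fin 9) :: q).Nodup)
    (h2 : List.IsChain (fun a b : Fin 9 => pAdj a.val b.val = true) (6 :: q))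
    (h3 : ((6 : Fin 9) :: q).getLast? = some 4) (hl : q.length = 7) :
    ∃ c : (GT T).Walk (Sum.inl 6) (Sum.inl 6), c.IsCycle ∧ c.length = T + 9 ∧
      ∀ y, y ∈ c.support ↔
        y ∈ ((6 : Fin 9) :: q).map Sum.inl ++ (List.finRange (T + 1)).map Sum.inr := by
  have e1 : (Sum.inl 6 : Fin 9 ⊕ Fin (T + 1)) ::
      (q.map Sum.inl ++ (List.finRange (T + 1)).map Sum.inr) =
      ((6 : Fin 9) :: q).map Sum.inl ++ (List.finRange (T + 1)).map Sum.inr := rfl
  have e2 : (Sum.inl 6 : Fin 9 ⊕ Fin (T + 1)) ::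
      ((q.map Sum.inl ++ (List.finRange (T + 1)).map Sum.inr) ++ [Sum.inl 6]) =
      ((6 : Fin 9) :: q).map Sum.inl ++ ((List.finRange (T + 1)).map Sum.inr ++ [Sum.inl 6]) := by
    simp
  have hlen : ((Sum.inl 6 : Fin 9 ⊕ Fin (T + 1)) ::
      (q.map Sum.inl ++ (List.finRange (T + 1)).map Sum.inr)).length = T + 9 := by
    simp [hl]
    omega
  obtain ⟨c, hc, hcl, hs⟩ := walk_of_list (GT T) (Sum.inl 6)
    (q.map Sum.inl ++ (List.finRange (T + 1)).map Sum.inr) (by
      rw [e1, List.nodup_append]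
      refine ⟨h1.map Sum.inl_injective, (List.nodup_finRange _).map Sum.inr_injective, ?_⟩
      intro a ha b hb hab
      obtain ⟨a', -, rfl⟩ := List.mem_map.1 ha
      obtain ⟨b', -, rfl⟩ := List.mem_map.1 hb
      exact Sum.inl_ne_inr hab) (by
      rw [e2, List.isChain_append]
      refine ⟨(List.isChain_map _).2 h2, ?_, ?_⟩
      · rw [List.isChain_append]
        refine ⟨?_, List.isChain_singleton _, ?_⟩
        · rw [List.isChain_map]
          exact (List.nodup_finRange (T + 1)).isChain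
        · intro x hx y hy
          rw [List.finRange_succ_last] at hx
          simp at hx hy
          subst hx hy
          show att T 6 T = true
          simp [att]
      · intro x hx y hy
        rw [List.getLast?_map, h3] at hx
        rw [List.finRange_succ] at hy
        simp at hx hy
        subst hx hy
        show att T 4 0 = true
        simp [att]) (by rw [hlen]; omega)
  exact ⟨c, hc, by rw [hcl, hlen], hs⟩

private theorem short (T : ℕ) {v : Fin 9 ⊕ Fin (T + 1)} (d : (GT T).Walk v v) (hd : d.IsCycle) :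
    d.length ≤ T + 9 := by
  obtain ⟨t, h1, h2, h3, h4⟩ := list_of_walk (GT T) d hd v d.start_mem_support
  by_contra hlt
  have h5 : Fintype.card (Fin 9 ⊕ Fin (T + 1)) = T + 10 := by
    simp
    omega
  refine nonham T v t h1 h2 fun y => ?_
  by_contra hy
  have h6 : (y :: (v :: t)).Nodup := List.nodup_cons.2 ⟨hy, h1⟩
  have h7 := h6.length_le_card
  rw [h5, List.length_cons, h3] at h7
  omega

private theorem noHam (T : ℕ) : ¬ ∃ (u : Fin 9 ⊕ Fin (T + 1)) (h : (GT T).Walk u u),
    h.IsCycle ∧ ∀ x, x ∈ h.support := by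
  rintro ⟨u, c, hc, hs⟩
  obtain ⟨t, h1, h2, h3, h4⟩ := list_of_walk (GT T) c hc u c.start_mem_support
  exact nonham T u t h1 h2 fun y => (h4 y).2 (hs y)

/-- The graph `GT T` shows that `A'_k(T + 8)` fails, if it is `k`-connected. -/
theorem fails (k T : ℕ) (hk : KConnected k (GT T)) : ¬ APrime k (T + 8) := by
  intro H
  obtain ⟨c, hc, hcl, hcs⟩ := cyc_of T [1, 2, 7, 5, 8, 3, 4] (by decide) (by decide) (by decide)
    rfl
  obtain ⟨d, hd, hdl, hds⟩ := cyc_of T [8, 3, 2, 7, 5, 0, 4] (by decide) (by decide) (by decide)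
    rfl
  have hcom : ∀ y, y ∈ commonVerts c d ↔ ¬ (y = Sum.inl 0 ∨ y = Sum.inl 1) := by
    intro y
    show y ∈ c.support ∧ y ∈ d.support ↔ _
    rw [hcs, hds]
    rcases y with a | j
    · have : ∀ a : Fin 9, ((a ∈ ([6, 1, 2, 7, 5, 8, 3, 4] : List (Fin 9)) ∧
          a ∈ ([6, 8, 3, 2, 7, 5, 0, 4] : List (Fin 9))) ↔ ¬ (a = 0 ∨ a = 1)) := by decide
      have h2 := this a
      have h3 : ∀ l : List (Fin 9), ((Sum.inl a : Fin 9 ⊕ Fin (T + 1)) ∈
          l.map Sum.inl ++ (List.finRange (T + 1)).map Sum.inr) ↔ a ∈ l := by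
        intro l
        simp
      rw [h3, h3, h2]
      simp
    · simp
  have h1 := H (Fin 9 ⊕ Fin (T + 1)) (GT T) hk (noHam T) _ _ c d
    ⟨hc, fun v e he => by rw [hcl]; exact short T e he⟩
    ⟨hd, fun v e he => by rw [hdl]; exact short T e he⟩ (by omega) ?_
  · refine h1 ?_
    have h01 : (GT T).Adj (Sum.inl 0) (Sum.inl 1) := by
      show pAdj 0 1 = true
      decide
    have key : ∀ x y : ((commonVerts c d)ᶜ : Set (Fin 9 ⊕ Fin (T + 1))), x = y ∨
        ((GT T).induce (commonVerts c d)ᶜ).Adj x y := by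
      rintro ⟨x, hx⟩ ⟨y, hy⟩
      have hx' : x = Sum.inl 0 ∨ x = Sum.inl 1 := by
        by_contra h
        exact hx ((hcom x).2 h)
      have hy' : y = Sum.inl 0 ∨ y = Sum.inl 1 := by
        by_contra h
        exact hy ((hcom y).2 h)
      rcases hx' with rfl | rfl <;> rcases hy' with rfl | rfl
      · exact Or.inl rfl
      · exact Or.inr h01
      · exact Or.inr h01.symm
      · exact Or.inl rfl
    intro x y
    rcases key x y with h | h
    · rw [h]
    · exact h.reachable
  · have h2 : commonVerts c d = ({Sum.inl 0, Sum.inl 1} : Set (Fin 9 ⊕ Fin (T + 1)))ᶜ := by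
      ext y
      rw [hcom]
      simp
    have h3 := Set.ncard_add_ncard_compl ({Sum.inl 0, Sum.inl 1} : Set (Fin 9 ⊕ Fin (T + 1)))
    rw [Set.ncard_pair (by simp), Nat.card_eq_fintype_card] at h3
    have h5 : Fintype.card (Fin 9 ⊕ Fin (T + 1)) = T + 10 := by
      simp
      omega
    rw [h2]
    omega

theorem fails2 (m : ℕ) (hm : 8 ≤ m) : ¬ APrime 2 m := by
  obtain ⟨T, rfl⟩ := Nat.exists_eq_add_of_le' hm
  exact fails 2 T (conn2 T)

theorem fails3 (m : ℕ) (hm : 8 ≤ m) (h9 : m ≠ 9) : ¬ APrime 3 m := by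
  obtain ⟨T, rfl⟩ := Nat.exists_eq_add_of_le' hm
  exact fails 3 T (conn3 T (by omega))

end LongCyc
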