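import Mathlib

/-!
# Longest cycle intersections (MP_7b0c7a_co): the finite search

States of the case analysis: two closed trails `C`, `D` with shared nodes and connecting paths,
as a multigraph with `nv` nodes and a list of pieces.  A piece is `(u, v, tag)`, where the tag is
`0` (part of `C`), `1` (part of `D`), `2` (connecting path), `3` (segment of `C`, not yet decided),
`4` (segment of `D`, not yet decided), `5` (segment of `C` without interior vertex),
`6` (segment of `D` without interior vertex).
-/

namespace LongCyc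

/-- A state of the search. -/
structure St where
  nv : ℕ
  ps : List (ℕ × ℕ × ℕ)

/-- access to a piece. -/
def getP : List (ℕ × ℕ × ℕ) → ℕ → ℕ × ℕ × ℕ
  | [], _ => (0, 0, 9)
  | p :: _, 0 => p
  | _ :: ps, n + 1 => getP ps n

/-- the piece with index `e`. -/
def St.pc (S : St) (e : ℕ) : ℕ × ℕ × ℕ := getP S.ps e

/-- number of pieces -/
def St.ne (S : St) : ℕ := S.ps.length

def isC (t : ℕ) : Bool := Nat.beq t 0 || Nat.beq t 3 || Nat.beq t 5
def isD (t : ℕ) : Bool := Nat.beq t 1 || Nat.beq t 4 || Nat.beq t 6
def isE (t : ℕ) : Bool := Nat.beq t 5 || Nat.beq t 6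
def isU (t : ℕ) : Bool := Nat.beq t 3 || Nat.beq t 4
def norm (t : ℕ) : ℕ := if Nat.beq t 3 then 0 else if Nat.beq t 4 then 1 else t
def empt (t : ℕ) : ℕ := if Nat.beq t 3 then 5 else if Nat.beq t 4 then 6 else t

/-- replace the piece with index `e`. -/
def setP : List (ℕ × ℕ × ℕ) → ℕ → ℕ × ℕ × ℕ → List (ℕ × ℕ × ℕ)
  | [], _, _ => []
  | _ :: ps, 0, q => q :: ps
  | p :: ps, n + 1, q => p :: setP ps n q

/-- subdivide piece `e` by a new node (with number `S.nv`). -/
def St.split (S : St) (e : ℕ) : St :=
  ⟨S.nv + 1, setP S.ps e ((S.pc e).1, S.nv, norm (S.pc e).2.2) ++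
    [(S.nv, (S.pc e).2.1, norm (S.pc e).2.2)]⟩

/-- add a connecting path from node `u` to node `v`. -/
def St.add (S : St) (u v : ℕ) : St := ⟨S.nv, S.ps ++ [(u, v, 2)]⟩

/-- declare piece `e` to be without interior vertex. -/
def St.mkE (S : St) (e : ℕ) : St :=
  ⟨S.nv, setP S.ps e ((S.pc e).1, (S.pc e).2.1, empt (S.pc e).2.2)⟩

/-- the children of a state when the undecided piece `e` is examined; `s` is the number of
shared nodes. -/
def St.kids (s : ℕ) (S : St) (e : ℕ) : List St :=
  S.mkE e ::
  (((List.range (S.nv - s)).map (fun i => (S.split e).add S.nv (s + i))) ++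
   (((List.range S.ps.length).filter
      (fun e' => !(Nat.beq e' e) && !(isE (S.pc e').2.2))).map
      (fun e' => ((S.split e).split e').add S.nv (S.nv + 1))))

/-- `e` is a member of the list. -/
def memb (e : ℕ) : List ℕ → Bool
  | [] => false
  | x :: l => Nat.beq x e || memb e l

/-- number of occurrences. -/
def cnt (e : ℕ) : List ℕ → ℕ
  | [] => 0
  | x :: l => if Nat.beq x e then cnt e l + 1 else cnt e l

/-- The edge sequence `es` is a path from the node `cur` back to `n0`; `vis` is the list of nodes
and `ue` the list of pieces used so far. -/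
def walk (S : St) (n0 : ℕ) : ℕ → List ℕ → List ℕ → List ℕ → Bool
  | _, _, _, [] => false
  | cur, vis, ue, e :: es =>
    Nat.ble (e + 1) S.ps.length && !(memb e ue) &&
    (if Nat.beq (S.pc e).1 cur then
      (match es with
        | [] => Nat.beq (S.pc e).2.1 n0
        | _ :: _ => !(memb (S.pc e).2.1 vis) && walk S n0 (S.pc e).2.1 ((S.pc e).2.1 :: vis) (e :: ue) es)
     else Nat.beq (S.pc e).2.1 cur &&
      (match es with
        | [] => Nat.beq (S.pc e).1 n0
        | _ :: _ => !(memb (S.pc e).1 vis) && walk S n0 (S.pc e).1 ((S.pc e).1 :: vis) (e :: ue) es))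

/-- A list `n0 :: es` encodes a cycle of the state. -/
def cyc (S : St) : List ℕ → Bool
  | [] => false
  | n0 :: es => Nat.ble 2 es.length && Nat.ble (n0 + 1) S.nv && walk S n0 n0 [n0] [] es

/-- the weight which the certificate puts on the piece with tag `t`. -/
def tgt (a b t : ℕ) : ℕ := if isC t then a else if isD t then b else 0

/-- A linear certificate: cycles `cs` of the state, of which `a` are compared with `C` and the
others with `D`. -/
def lpOK (S : St) (a : ℕ) (cs : List (List ℕ)) : Bool :=
  Nat.ble a cs.length && cs.all (cyc S) &&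
  ((List.range S.ps.length).all fun e =>
    isE (S.pc e).2.2 || Nat.ble (tgt a (cs.length - a) (S.pc e).2.2) (cnt e (cs.flatMap List.tail))) &&
  Nat.ble (((S.ps.map fun p => tgt a (cs.length - a) p.2.2).sum) + 1) (cs.flatMap List.tail).length

/-- the digits in base `64` (with fuel). -/
def digs : ℕ → ℕ → List ℕ
  | 0, _ => []
  | f + 1, n => if Nat.beq n 0 then [] else (n % 64 - 1) :: digs f (n / 64)

/-- One step of the certificate. -/
inductive Item where
  | lp (a : ℕ) (cs : List ℕ)
  | br (e : ℕ)

/-- Run the certificate on a stack of states. -/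
def run (s : ℕ) : List Item → List St → Bool
  | _, [] => true
  | [], _ :: _ => false
  | .lp a cs :: its, S :: rest => lpOK S a (cs.map (digs 40)) && run s its rest
  | .br e :: its, S :: rest =>
    Nat.ble (e + 1) S.ps.length && isU (S.pc e).2.2 && run s its (S.kids s e ++ rest)

/-- consecutive pieces along the node sequence `q0, qs, q1`. -/
def chainP (u t : ℕ) (last tl : ℕ) : List ℕ → List (ℕ × ℕ × ℕ)
  | [] => [(u, last, tl)]
  | v :: vs => (u, v, t) :: chainP v (tl + 3) last tl vs

/-- The root state for the order type `τ` of `s` shared nodes: `C` runs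
`s, 0, 1, …, s-1, s` and `D` runs `s+1, τ 0, …, τ (s-1), s+1`, and there is a path from node `s`
to node `s+1`. -/
def root (s : ℕ) (τ : List ℕ) : St :=
  ⟨s + 2, chainP s 0 s 0 (List.range s) ++ chainP (s + 1) 1 (s + 1) 1 τ ++ [(s, s + 1, 2)]⟩

/-- reversal of `C` -/
def rC (s : ℕ) (τ : List ℕ) : List ℕ := τ.map (fun x => s - 1 - x)
/-- position of `x` in a list -/
def pos (x : ℕ) : List ℕ → ℕ
  | [] => 0
  | y :: l => if Nat.beq y x then 0 else pos x l + 1
/-- exchange of `C` and `D` -/
def sw (s : ℕ) (τ : List ℕ) : List ℕ := (List.range s).map (fun i => pos i τ)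
/-- code of an order type -/
def code (τ : List ℕ) : ℕ := τ.foldl (fun a x => a * 8 + x) 0
/-- the images under the group of order eight -/
def imgs (s : ℕ) (τ : List ℕ) : List (List ℕ) :=
  [rC s τ, τ.reverse, rC s τ.reverse, sw s τ, rC s (sw s τ), (sw s τ).reverse,
    rC s (sw s τ).reverse]
/-- `τ` has the smallest code in its orbit. -/
def isMin (s : ℕ) (τ : List ℕ) : Bool := (imgs s τ).all (fun σ => Nat.ble (code τ) (code σ))

end LongCyc
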