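import Pool.Agent.LongCyc.Prop
import Pool.Agent.LongCyc.Bridge

/-!
# Longest cycle intersections (MP_7b0c7a_co): the family of counterexamples

The Petersen graph with outer cycle `0 1 2 3 4`, spokes `i, i + 5` and inner cycle
`5 7 9 6 8`; the vertex `9` (neighbours `4`, `6`, `7`) is replaced by a complete graph on
`T + 1` vertices, the three edges to `4`, `6`, `7` now end in the vertices `0`, `T`, `min 1 T` of
the complete graph.  `T = 0` is the Petersen graph itself, `T = 1` the Petersen graph with a
subdivided edge (`2`-connected), for `T ≥ 2` the graph is `3`-connected.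
-/

namespace LongCyc

/-- adjacency of the Petersen graph without the vertex `9`. -/
def pAdj (x y : ℕ) : Bool :=
  decide ((x, y) ∈ [(0, 1), (1, 2), (2, 3), (3, 4), (4, 0), (0, 5), (1, 6), (2, 7), (3, 8),
    (5, 7), (6, 8), (8, 5),
    (1, 0), (2, 1), (3, 2), (4, 3), (0, 4), (5, 0), (6, 1), (7, 2), (8, 3),
    (7, 5), (8, 6), (5, 8)])

/-- the attachments: `4 - 0`, `6 - T`, `7 - min 1 T`. -/
def att (T x i : ℕ) : Bool :=
  (decide (x = 4) && decide (i = 0)) || (decide (x = 6) && decide (i = T)) ||
    (decide (x = 7) && decide (i = min 1 T))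

/-- The graph of the family with parameter `T`. -/
def GT (T : ℕ) : SimpleGraph (Fin 9 ⊕ Fin (T + 1)) where
  Adj x y := match x, y with
    | .inl a, .inl b => pAdj a.val b.val = true
    | .inr i, .inr j => i ≠ j
    | .inl a, .inr i => att T a.val i.val = true
    | .inr i, .inl a => att T a.val i.val = true
  symm := ⟨by
    rintro (a | i) (b | j) h
    · have : ∀ a b : Fin 9, pAdj a.val b.val = true → pAdj b.val a.val = true := by decide
      exact this a b h
    · exact h
    · exact h
    · exact fun h' => h h'.symm⟩
  loopless := ⟨by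
    rintro (a | i) h
    · have : ∀ a : Fin 9, pAdj a.val a.val = true → False := by decide
      exact this a h
    · exact h rfl⟩

end LongCyc
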