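import Pool.Agent.LongCyc.Link

/-!
# Longest cycle intersections (MP_7b0c7a_co): two disjoint paths between two sets

Paper proof (Menger for two paths).  STEP 1.  Claim: if there are `a1 ≠ a2` in `A`, disjoint nodup
lists `p1`, `p2`, and a nodup list `z :: t` such that `a1 :: (p1 ++ [z])`, `a2 :: (p2 ++ [z])`,
`z :: t` are chains, `p1`, `p2` avoid `A`, `B`, `z :: t`; `z :: t` avoids `A`; the last
element of `z :: t` is in `B` and the others are not; then the conclusion holds.  Induction on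
`t.length`.  Apply `exists_link` with `W = {z}`, `X = A ∪ p1 ∪ p2`, `Y = (t ∪ B) \ {z}` (`Y` is
nonempty: `B` has a second element; `X` contains `a1`).  It gives `x ∈ X`, `y ∈ Y` and a path `q`
avoiding `X`, `Y`, `z`.  Up to exchanging `1` and `2` we get an `A`-start `a'` and a list `q1` with
`a' :: (q1 ++ [y])` a chain, and an `a'' ≠ a'` with `a'' :: (q2 ++ [z])` a chain, `q1`, `q2` disjoint:
if `x = a1`: `a' = a1`, `q1 = q`, `a'' = a2`, `q2 = p2`; if `x ∈ A`, `x ≠ a1`: `a' = x`, `q1 = q`,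
`a'' = a1`, `q2 = p1`; if `x ∈ p1`, `p1 = u ++ x :: v`: `a' = a1`, `q1 = u ++ x :: q`, `a'' = a2`,
`q2 = p2`; if `x ∈ p2` symmetric.  If `y ∈ t`, `t = t1 ++ y :: t2`: use the induction hypothesis with
`z := y`, `t := t2`, the two lists `q1` and `q2 ++ z :: t1`.  If `y ∉ t`: then `y ∈ B`, `y ≠ z`, and
the two disjoint paths are `a' :: (q1 ++ [y])` and `a'' :: (q2 ++ z :: t)` (whose last element is
in `B` and different from `y`).
STEP 2.  Start: `exists_link` with `W = ∅` (from `h0`) gives a path `a :: (p ++ [b])` from `A` to `B`.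
`exists_link` with `W = {a}`, `X = A \ {a}`, `Y = p ∪ B` gives `c ∈ A \ {a}`, `y ∈ Y`, `q`.  If
`y ∈ B`, `y ≠ b`: done.  Otherwise `y` is an element of `p ++ [b]`, `p ++ [b] = u ++ y :: t`, and
STEP 1 applies with `z = y`, `p1 = u`, `p2 = q`.
-/

namespace LongCyc

variable {V : Type*}

private theorem join_chain (R : V → V → Prop) (l1 l2 : List V) (z : V)
    (h1 : List.IsChain R (l1 ++ [z])) (h2 : List.IsChain R (z :: l2)) :
    List.IsChain R (l1 ++ z :: l2) := by
  have h := List.IsChain.append_overlap (l₁ := l1) (l₂ := [z]) (l₃ := l2) h1 (by simpa using h2)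
    (by simp)
  simpa using h

private theorem tail_last (l1 s t : List V) (y b : V) (h : l1 ++ y :: t = s ++ [b]) :
    ∃ s', y :: t = s' ++ [b] ∧ s = l1 ++ s' := by
  have hne : y :: t ≠ [] := by simp
  have h2 := List.dropLast_append_getLast hne
  refine ⟨(y :: t).dropLast, ?_, ?_⟩
  · have h3 : (l1 ++ (y :: t).dropLast) ++ [(y :: t).getLast hne] = s ++ [b] := by
      rw [List.append_assoc, h2, h]
    have h4 := List.append_inj' h3 (by simp)
    have h5 : (y :: t).getLast hne = b := by simpa using h4.2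
    rw [← h5, h2]
  · have h3 : (l1 ++ (y :: t).dropLast) ++ [(y :: t).getLast hne] = s ++ [b] := by
      rw [List.append_assoc, h2, h]
    exact (List.append_inj' h3 (by simp)).1.symm

/-- The conclusion of `two_paths`. -/
private def Concl (G : SimpleGraph V) (A B : Set V) : Prop :=
  ∃ a1 ∈ A, ∃ a2 ∈ A, ∃ b1 ∈ B, ∃ b2 ∈ B, ∃ p1 p2 : List V, a1 ≠ a2 ∧ b1 ≠ b2 ∧
      p1.Nodup ∧ p2.Nodup ∧ (∀ z ∈ p1, z ∉ p2) ∧
      (∀ z ∈ p1, z ∉ A ∧ z ∉ B) ∧ (∀ z ∈ p2, z ∉ A ∧ z ∉ B) ∧
      List.IsChain G.Adj (a1 :: (p1 ++ [b1])) ∧ List.IsChain G.Adj (a2 :: (p2 ++ [b2]))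

/-- the normal form after one link -/
private theorem normal (G : SimpleGraph V) (A B : Set V) (a1 a2 z x y : V) (p1 p2 q t : List V)
    (ha1 : a1 ∈ A) (ha2 : a2 ∈ A) (haa : a1 ≠ a2) (n1 : p1.Nodup) (n2 : p2.Nodup)
    (d : ∀ w ∈ p1, w ∉ p2) (v1 : ∀ w ∈ p1, w ∉ A ∧ w ∉ B) (v2 : ∀ w ∈ p2, w ∉ A ∧ w ∉ B)
    (t1 : ∀ w ∈ p1, w ∉ z :: t) (t2 : ∀ w ∈ p2, w ∉ z :: t)
    (c1 : List.IsChain G.Adj (a1 :: (p1 ++ [z]))) (c2 : List.IsChain G.Adj (a2 :: (p2 ++ [z])))
    (hx : x ∈ A ∨ x ∈ p1 ∨ x ∈ p2) (nq : q.Nodup)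
    (vq : ∀ w ∈ q, w ∉ A ∧ w ∉ B ∧ w ∉ p1 ∧ w ∉ p2 ∧ w ∉ z :: t)
    (cq : List.IsChain G.Adj (x :: (q ++ [y]))) :
    ∃ a' ∈ A, ∃ a'' ∈ A, ∃ q1 q2 : List V, a' ≠ a'' ∧ q1.Nodup ∧ q2.Nodup ∧ (∀ w ∈ q1, w ∉ q2) ∧
      (∀ w ∈ q1, w ∉ A ∧ w ∉ B) ∧ (∀ w ∈ q2, w ∉ A ∧ w ∉ B) ∧
      (∀ w ∈ q1, w ∉ z :: t) ∧ (∀ w ∈ q2, w ∉ z :: t) ∧
      List.IsChain G.Adj (a' :: (q1 ++ [y])) ∧ List.IsChain G.Adj (a'' :: (q2 ++ [z])) := by
  rcases hx with hx | hx | hx
  · by_cases hxa : x = a1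
    · subst hxa
      exact ⟨x, hx, a2, ha2, q, p2, haa, nq, n2, fun w hw => (vq w hw).2.2.2.1,
        fun w hw => ⟨(vq w hw).1, (vq w hw).2.1⟩, v2, fun w hw => (vq w hw).2.2.2.2, t2, cq, c2⟩
    · exact ⟨x, hx, a1, ha1, q, p1, hxa, nq, n1, fun w hw => (vq w hw).2.2.1,
        fun w hw => ⟨(vq w hw).1, (vq w hw).2.1⟩, v1, fun w hw => (vq w hw).2.2.2.2, t1, cq, c1⟩
  · obtain ⟨u, v, rfl⟩ := List.append_of_mem hx
    have hn := List.nodup_append.1 n1
    have hsub : ∀ w ∈ u ++ x :: q, w ∈ u ++ x :: v ∨ w ∈ q := by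
      intro w hw
      simp only [List.mem_append, List.mem_cons] at hw ⊢
      tauto
    refine ⟨a1, ha1, a2, ha2, u ++ x :: q, p2, haa, ?_, n2, ?_, ?_, v2, ?_, t2, ?_, c2⟩
    · rw [List.nodup_append]
      refine ⟨hn.1, ?_, ?_⟩
      · rw [List.nodup_cons]
        exact ⟨fun h => (vq x h).2.2.1 hx, nq⟩
      · intro w hw w' hw' he
        subst he
        rcases List.mem_cons.1 hw' with rfl | h
        · exact hn.2.2 w hw w (by simp) rfl
        · exact (vq w h).2.2.1 (by simp [hw])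
    · intro w hw
      rcases hsub w hw with h | h
      · exact d w h
      · exact (vq w h).2.2.2.1
    · intro w hw
      rcases hsub w hw with h | h
      · exact v1 w h
      · exact ⟨(vq w h).1, (vq w h).2.1⟩
    · intro w hw
      rcases hsub w hw with h | h
      · exact t1 w h
      · exact (vq w h).2.2.2.2
    · have h1 : List.IsChain G.Adj ((a1 :: u) ++ [x]) := by
        have h2 : a1 :: ((u ++ x :: v) ++ [z]) = ((a1 :: u) ++ [x]) ++ (v ++ [z]) := by simp
        rw [h2] at c1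
        exact c1.left_of_append
      have h3 := join_chain G.Adj (a1 :: u) (q ++ [y]) x h1 cq
      simpa using h3
  · obtain ⟨u, v, rfl⟩ := List.append_of_mem hx
    have hn := List.nodup_append.1 n2
    have hsub : ∀ w ∈ u ++ x :: q, w ∈ u ++ x :: v ∨ w ∈ q := by
      intro w hw
      simp only [List.mem_append, List.mem_cons] at hw ⊢
      tauto
    refine ⟨a2, ha2, a1, ha1, u ++ x :: q, p1, haa.symm, ?_, n1, ?_, ?_, v1, ?_, t1, ?_, c1⟩
    · rw [List.nodup_append]
      refine ⟨hn.1, ?_, ?_⟩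
      · rw [List.nodup_cons]
        exact ⟨fun h => (vq x h).2.2.2.1 hx, nq⟩
      · intro w hw w' hw' he
        subst he
        rcases List.mem_cons.1 hw' with rfl | h
        · exact hn.2.2 w hw w (by simp) rfl
        · exact (vq w h).2.2.2.1 (by simp [hw])
    · intro w hw
      rcases hsub w hw with h | h
      · exact fun h' => d w h' h
      · exact (vq w h).2.2.1
    · intro w hw
      rcases hsub w hw with h | h
      · exact v2 w h
      · exact ⟨(vq w h).1, (vq w h).2.1⟩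
    · intro w hw
      rcases hsub w hw with h | h
      · exact t2 w h
      · exact (vq w h).2.2.2.2
    · have h1 : List.IsChain G.Adj ((a2 :: u) ++ [x]) := by
        have h2 : a2 :: ((u ++ x :: v) ++ [z]) = ((a2 :: u) ++ [x]) ++ (v ++ [z]) := by simp
        rw [h2] at c2
        exact c2.left_of_append
      have h3 := join_chain G.Adj (a2 :: u) (q ++ [y]) x h1 cq
      simpa using h3

private theorem step (G : SimpleGraph V) (A B : Set V)
    (h1 : ∀ v : V, (G.induce ({v} : Set V)ᶜ).Preconnected)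
    (hAB : ∀ x ∈ A, x ∉ B) {b b' : V} (hb : b ∈ B) (hb' : b' ∈ B) (hbb : b ≠ b') :
    ∀ (n : ℕ) (a1 a2 z : V) (p1 p2 t : List V), t.length = n → a1 ∈ A → a2 ∈ A → a1 ≠ a2 →
      p1.Nodup → p2.Nodup → (∀ w ∈ p1, w ∉ p2) → (∀ w ∈ p1, w ∉ A ∧ w ∉ B) →
      (∀ w ∈ p2, w ∉ A ∧ w ∉ B) → (∀ w ∈ p1, w ∉ z :: t) → (∀ w ∈ p2, w ∉ z :: t) →
      (z :: t).Nodup → (∀ w ∈ z :: t, w ∉ A) → List.IsChain G.Adj (a1 :: (p1 ++ [z])) →
      List.IsChain G.Adj (a2 :: (p2 ++ [z])) → List.IsChain G.Adj (z :: t) →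
      (∃ s : List V, ∃ c ∈ B, z :: t = s ++ [c] ∧ ∀ w ∈ s, w ∉ B) → Concl G A B := by
  intro n
  induction n using Nat.strong_induction_on with
  | _ n ih =>
    intro a1 a2 z p1 p2 t hn ha1 ha2 haa n1 n2 d v1 v2 t1 t2 nt vt c1 c2 ct hlast
    obtain ⟨y0, hy0B, hy0z⟩ : ∃ y0 ∈ B, y0 ≠ z := by
      by_cases h : b = z
      · exact ⟨b', hb', fun h' => hbb (h.trans h'.symm)⟩
      · exact ⟨b, hb, h⟩
    obtain ⟨x, hx, y, hy, q, nq, vq, cq⟩ := exists_link G {z} (A ∪ {w | w ∈ p1} ∪ {w | w ∈ p2})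
      (({w | w ∈ t} ∪ B) \ {z}) (h1 z)
      (by
        rintro w ((hw | hw) | hw) hz
        · exact vt z (by simp) (by rw [Set.mem_singleton_iff] at hz; exact hz ▸ hw)
        · exact t1 w hw (by rw [Set.mem_singleton_iff] at hz; simp [hz])
        · exact t2 w hw (by rw [Set.mem_singleton_iff] at hz; simp [hz]))
      (fun w hw => hw.2)
      (by
        rintro w ((hw | hw) | hw) ⟨h | h, -⟩
        · exact vt w (List.mem_cons_of_mem _ h) hw
        · exact hAB w hw h
        · exact t1 w hw (List.mem_cons_of_mem _ h)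
        · exact (v1 w hw).2 h
        · exact t2 w hw (List.mem_cons_of_mem _ h)
        · exact (v2 w hw).2 h)
      (x0 := a1) (y0 := y0) (Or.inl (Or.inl ha1)) ⟨Or.inr hy0B, hy0z⟩
    have hyz : y ≠ z := hy.2
    have hvq : ∀ w ∈ q, w ∉ A ∧ w ∉ B ∧ w ∉ p1 ∧ w ∉ p2 ∧ w ∉ z :: t := by
      intro w hw
      obtain ⟨e1, e2, e3⟩ := vq w hw
      have hwz : w ≠ z := e3
      refine ⟨fun h => e1 (Or.inl (Or.inl h)), fun h => e2 ⟨Or.inr h, hwz⟩,
        fun h => e1 (Or.inl (Or.inr h)), fun h => e1 (Or.inr h), fun h => ?_⟩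
      rcases List.mem_cons.1 h with h | h
      · exact hwz h
      · exact e2 ⟨Or.inl h, hwz⟩
    have hx' : x ∈ A ∨ x ∈ p1 ∨ x ∈ p2 := by
      rcases hx with (h | h) | h
      · exact Or.inl h
      · exact Or.inr (Or.inl h)
      · exact Or.inr (Or.inr h)
    obtain ⟨a', ha', a'', ha'', q1, q2, hne, nq1, nq2, dq, w1, w2, s1, s2, e1, e2⟩ :=
      normal G A B a1 a2 z x y p1 p2 q t ha1 ha2 haa n1 n2 d v1 v2 t1 t2 c1 c2 hx' nq hvq cq
    obtain ⟨s, c, hcB, hs, hsB⟩ := hlast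
    by_cases hyt : y ∈ t
    · obtain ⟨t1', t2', rfl⟩ := List.append_of_mem hyt
      have hsplit : z :: (t1' ++ y :: t2') = (z :: t1') ++ y :: t2' := rfl
      obtain ⟨s', hs1, hs2⟩ := tail_last (z :: t1') s t2' y c (by rw [← hsplit]; exact hs)
      rw [hsplit] at nt ct
      have hnt := List.nodup_append.1 nt
      refine ih t2'.length ?_ a' a'' y q1 (q2 ++ z :: t1') t2' rfl ha' ha'' hne nq1 ?_ ?_ w1 ?_ ?_ ?_
        hnt.2.1 ?_ e1 ?_ ct.right_of_append ⟨s', c, hcB, hs1, ?_⟩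
      · rw [← hn]; simp; omega
      · rw [List.nodup_append]
        refine ⟨nq2, hnt.1, ?_⟩
        intro w hw w' hw' he
        subst he
        refine s2 w hw ?_
        rw [hsplit]
        exact List.mem_append_left _ hw'
      · intro w hw h
        rcases List.mem_append.1 h with h | h
        · exact dq w hw h
        · refine s1 w hw ?_
          rw [hsplit]
          exact List.mem_append_left _ h
      · intro w hw
        rcases List.mem_append.1 hw with h | h
        · exact w2 w h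
        · refine ⟨vt w ?_, hsB w ?_⟩
          · rw [hsplit]
            exact List.mem_append_left _ h
          · rw [hs2]
            exact List.mem_append_left _ h
      · intro w hw h
        refine s1 w hw ?_
        rw [hsplit]
        exact List.mem_append_right _ h
      · intro w hw h
        rcases List.mem_append.1 hw with h' | h'
        · refine s2 w h' ?_
          rw [hsplit]
          exact List.mem_append_right _ h
        · exact hnt.2.2 w h' w h rfl
      · intro w hw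
        refine vt w ?_
        rw [hsplit]
        exact List.mem_append_right _ hw
      · have h3 : List.IsChain G.Adj (z :: (t1' ++ [y])) := by
          have h4 : (z :: t1') ++ y :: t2' = (z :: (t1' ++ [y])) ++ t2' := by simp
          rw [h4] at ct
          exact ct.left_of_append
        have h5 := join_chain G.Adj (a'' :: q2) (t1' ++ [y]) z (by simpa using e2) h3
        simpa using h5
      · intro w hw
        refine hsB w ?_
        rw [hs2]
        exact List.mem_append_right _ hw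
    · have hyB : y ∈ B := by
        rcases hy.1 with h | h
        · exact absurd h hyt
        · exact h
      have hcm : c ∈ z :: t := by rw [hs]; simp
      have hsm : ∀ w ∈ s, w ∈ z :: t := by
        intro w hw
        rw [hs]
        exact List.mem_append_left _ hw
      have hyc : y ≠ c := by
        rintro rfl
        rcases List.mem_cons.1 hcm with h | h
        · exact hyz h
        · exact hyt h
      rw [hs] at nt
      have hnt := List.nodup_append.1 nt
      refine ⟨a', ha', a'', ha'', y, hyB, c, hcB, q1, q2 ++ s, hne, hyc, nq1, ?_, ?_, w1, ?_, e1, ?_⟩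
      · rw [List.nodup_append]
        refine ⟨nq2, hnt.1, ?_⟩
        intro w hw w' hw' he
        subst he
        exact s2 w hw (hsm w hw')
      · intro w hw h
        rcases List.mem_append.1 h with h | h
        · exact dq w hw h
        · exact s1 w hw (hsm w h)
      · intro w hw
        rcases List.mem_append.1 hw with h | h
        · exact w2 w h
        · exact ⟨vt w (hsm w h), hsB w h⟩
      · have h5 := join_chain G.Adj (a'' :: q2) t z (by simpa using e2) ct
        have h6 : (a'' :: q2) ++ z :: t = a'' :: ((q2 ++ s) ++ [c]) := by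
          rw [hs]; simp
        rw [← h6]
        exact h5

theorem two_paths (G : SimpleGraph V) (A B : Set V)
    (h0 : G.Preconnected) (h1 : ∀ v : V, (G.induce ({v} : Set V)ᶜ).Preconnected)
    (hAB : ∀ x ∈ A, x ∉ B) {a a' b b' : V} (ha : a ∈ A) (ha' : a' ∈ A) (haa : a ≠ a')
    (hb : b ∈ B) (hb' : b' ∈ B) (hbb : b ≠ b') :
    ∃ a1 ∈ A, ∃ a2 ∈ A, ∃ b1 ∈ B, ∃ b2 ∈ B, ∃ p1 p2 : List V, a1 ≠ a2 ∧ b1 ≠ b2 ∧
      p1.Nodup ∧ p2.Nodup ∧ (∀ z ∈ p1, z ∉ p2) ∧
      (∀ z ∈ p1, z ∉ A ∧ z ∉ B) ∧ (∀ z ∈ p2, z ∉ A ∧ z ∉ B) ∧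
      List.IsChain G.Adj (a1 :: (p1 ++ [b1])) ∧ List.IsChain G.Adj (a2 :: (p2 ++ [b2])) := by
  have hpre : (G.induce ((∅ : Set V)ᶜ)).Preconnected := by
    intro u v
    obtain ⟨w⟩ := h0 u.1 v.1
    have hf : ∀ {x y : V}, G.Adj x y → (G.induce ((∅ : Set V)ᶜ)).Adj ⟨x, by simp⟩ ⟨y, by simp⟩ := by
      intro x y h
      exact h
    exact ⟨w.map (⟨fun x => ⟨x, by simp⟩, fun h => hf h⟩ : G →g G.induce ((∅ : Set V)ᶜ))⟩
  obtain ⟨a0, ha0, b0, hb0, p, np, vp, cp⟩ := exists_link G ∅ A B hpre (fun x _ => by simp)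
    (fun x _ => by simp) hAB ha hb
  obtain ⟨x0, hx0A, hx0a⟩ : ∃ x0 ∈ A, x0 ≠ a0 := by
    by_cases h : a = a0
    · exact ⟨a', ha', fun h' => haa (h.trans h'.symm)⟩
    · exact ⟨a, ha, h⟩
  obtain ⟨c, hc, y, hy, q, nq, vq, cq⟩ := exists_link G {a0} (A \ {a0}) ({w | w ∈ p} ∪ B) (h1 a0)
    (fun w hw => hw.2)
    (by
      rintro w (hw | hw) h
      · rw [Set.mem_singleton_iff] at h
        exact (vp w hw).1 (h ▸ ha0)
      · rw [Set.mem_singleton_iff] at h
        exact hAB a0 ha0 (h ▸ hw))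
    (by
      rintro w hw (h | h)
      · exact (vp w h).1 hw.1
      · exact hAB w hw.1 h)
    (x0 := x0) (y0 := b0) ⟨hx0A, hx0a⟩ (Or.inr hb0)
  have hca : a0 ≠ c := fun h => hc.2 h.symm
  have hvq : ∀ w ∈ q, w ∉ A ∧ w ∉ B ∧ w ∉ p := by
    intro w hw
    obtain ⟨e1, e2, e3⟩ := vq w hw
    exact ⟨fun h => e1 ⟨h, e3⟩, fun h => e2 (Or.inr h), fun h => e2 (Or.inl h)⟩
  by_cases hyp : y ∈ p ++ [b0]
  · obtain ⟨u, t, hut⟩ := List.append_of_mem hyp
    have hpb : (p ++ [b0]).Nodup := by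
      rw [List.nodup_append]
      refine ⟨np, by simp, ?_⟩
      intro w hw w' hw' he
      rw [List.mem_singleton] at hw'
      exact (vp w hw).2.1 (by rw [he, hw']; exact hb0)
    have hpA : ∀ w ∈ p ++ [b0], w ∉ A := by
      intro w hw
      rcases List.mem_append.1 hw with h | h
      · exact (vp w h).1
      · rw [List.mem_singleton] at h
        intro h'
        exact hAB w h' (h ▸ hb0)
    obtain ⟨s', hs1, hs2⟩ := tail_last u p t y b0 hut.symm
    have hup : ∀ w ∈ u, w ∈ p := by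
      intro w hw
      rw [hs2]
      exact List.mem_append_left _ hw
    have hyt : ∀ w ∈ y :: t, w ∈ p ++ [b0] := by
      intro w hw
      rw [hut]
      exact List.mem_append_right _ hw
    rw [hut] at hpb cp
    have hnu := List.nodup_append.1 hpb
    refine step G A B h1 hAB hb hb' hbb t.length a0 c y u q t rfl ha0 hc.1 hca hnu.1 nq ?_ ?_ ?_ ?_ ?_
      hnu.2.1 ?_ ?_ cq ?_ ⟨s', b0, hb0, hs1, ?_⟩
    · exact fun w hw h => (hvq w h).2.2 (hup w hw)
    · exact fun w hw => ⟨(vp w (hup w hw)).1, (vp w (hup w hw)).2.1⟩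
    · exact fun w hw => ⟨(hvq w hw).1, (hvq w hw).2.1⟩
    · exact fun w hw h => hnu.2.2 w hw w h rfl
    · intro w hw h
      rcases List.mem_append.1 (hyt w h) with h' | h'
      · exact (hvq w hw).2.2 h'
      · rw [List.mem_singleton] at h'
        exact (hvq w hw).2.1 (h' ▸ hb0)
    · exact fun w hw => hpA w (hyt w hw)
    · have h4 : a0 :: (u ++ y :: t) = (a0 :: (u ++ [y])) ++ t := by simp
      rw [h4] at cp
      exact cp.left_of_append
    · have h4 : a0 :: (u ++ y :: t) = (a0 :: u) ++ (y :: t) := by simp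
      rw [h4] at cp
      exact cp.right_of_append
    · intro w hw
      refine (vp w ?_).2.1
      rw [hs2]
      exact List.mem_append_right _ hw
  · have hyB : y ∈ B := by
      rcases hy with h | h
      · exact absurd (List.mem_append_left _ h) hyp
      · exact h
    have hby : b0 ≠ y := by
      rintro rfl
      exact hyp (by simp)
    exact ⟨a0, ha0, c, hc.1, b0, hb0, y, hyB, p, q, hca, hby, np, nq,
      fun w hw h => (hvq w h).2.2 hw, fun w hw => ⟨(vp w hw).1, (vp w hw).2.1⟩,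
      fun w hw => ⟨(hvq w hw).1, (hvq w hw).2.1⟩, cp, cq⟩

end LongCyc
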