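import Pool.Agent.LongCyc.Fam

/-!
# Longest cycle intersections (MP_7b0c7a_co): no Hamiltonian path of `P - 9` between two of `4,6,7`

Paper proof.  Finite search: write a depth first search on lists of natural numbers (structural
recursion with fuel) with a soundness lemma, and `decide +kernel`.
-/

namespace LongCyc

/-- Is there a path with `n` more vertices from `cur` to `4`, `6` or `7` avoiding `vis`? -/
private def go : ℕ → List ℕ → ℕ → Bool
  | 0, _, cur => decide (cur = 4 ∨ cur = 6 ∨ cur = 7)
  | n + 1, vis, cur => (List.range 9).any fun y => pAdj cur y && (decide (y ∉ vis) && go n (y :: vis) y)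

private theorem go_sound : ∀ (n : ℕ) (rest vis : List ℕ) (cur : ℕ), rest.length = n →
    List.IsChain (fun x y => pAdj x y = true) (cur :: rest) → rest.Nodup → (∀ x ∈ rest, x ∉ vis) →
    (∀ x ∈ rest, x < 9) → (∀ x ∈ (cur :: rest).getLast?, x = 4 ∨ x = 6 ∨ x = 7) → go n vis cur = true
  | 0, rest, vis, cur, h1, _, _, _, _, h6 => by
    have h7 : rest = [] := List.length_eq_zero_iff.1 h1
    subst h7
    unfold go
    exact decide_eq_true (h6 cur (by simp))
  | n + 1, [], vis, cur, h1, _, _, _, _, _ => by
    simp at h1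
  | n + 1, y :: rest, vis, cur, h1, h2, h3, h4, h5, h6 => by
    have h7 := List.isChain_cons_cons.1 h2
    have h8 := List.nodup_cons.1 h3
    have h9 : go n (y :: vis) y = true := by
      refine go_sound n rest (y :: vis) y (by simpa using h1) h7.2 h8.2 ?_ (fun x hx => h5 x (List.mem_cons_of_mem _ hx)) ?_
      · intro x hx hxv
        rcases List.mem_cons.1 hxv with h | h
        · exact h8.1 (h ▸ hx)
        · exact h4 x (List.mem_cons_of_mem _ hx) h
      · intro x hx
        exact h6 x (by rwa [List.getLast?_cons_cons])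
    unfold go
    rw [List.any_eq_true]
    refine ⟨y, List.mem_range.2 (h5 y List.mem_cons_self), ?_⟩
    rw [h7.1, h9, decide_eq_true (h4 y List.mem_cons_self)]
    rfl

private theorem go_false : go 8 [4] 4 = false ∧ go 8 [6] 6 = false ∧ go 8 [7] 7 = false := by
  decide +kernel

theorem no_ham_path (l : List ℕ) (h1 : l.length = 9) (h2 : l.Nodup) (h3 : ∀ x ∈ l, x < 9)
    (h4 : List.IsChain (fun x y => pAdj x y = true) l)
    (h5 : ∀ x ∈ l.head?, x = 4 ∨ x = 6 ∨ x = 7)
    (h6 : ∀ x ∈ l.getLast?, x = 4 ∨ x = 6 ∨ x = 7) : False := by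
  obtain ⟨cur, rest, rfl⟩ : ∃ cur rest, l = cur :: rest := by
    cases l with
    | nil => simp at h1
    | cons a t => exact ⟨a, t, rfl⟩
  have h7 := List.nodup_cons.1 h2
  have h8 : go 8 [cur] cur = true := by
    refine go_sound 8 rest [cur] cur (by simpa using h1) h4 h7.2 ?_
      (fun x hx => h3 x (List.mem_cons_of_mem _ hx)) h6
    intro x hx hxv
    rw [List.mem_singleton] at hxv
    exact h7.1 (hxv ▸ hx)
  have h9 := h5 cur (by simp)
  obtain ⟨g1, g2, g3⟩ := go_false
  rcases h9 with h | h | h
  · rw [h, g1] at h8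
    exact Bool.false_ne_true h8
  · rw [h, g2] at h8
    exact Bool.false_ne_true h8
  · rw [h, g3] at h8
    exact Bool.false_ne_true h8

end LongCyc
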