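import Mathlib

/-!
# Longest cycle intersections (MP_7b0c7a_co): a path between two sets which avoids `W`

Paper proof.  There is a walk from `x0` to `y0` in `G - W`; its support is a chain for `G.Adj`.
Strong induction on the length of the middle part `m` of a chain `x0 :: (m ++ [y0])` with `x0 ∈ X`,
`y0 ∈ Y` and all entries of `m` outside `W`: if `m` contains an element of `X`, cut before it; if it
contains an element of `Y`, cut after it; if `m` is not nodup, shorten it; otherwise we are done.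
(`X` and `Y` are disjoint, hence the walk has length at least one.)
-/

namespace LongCyc

variable {V : Type*}

private theorem link_aux (G : SimpleGraph V) (W X Y : Set V) :
    ∀ (n : ℕ) (m : List V) (x y : V), m.length = n → m.Nodup → (∀ z ∈ m, z ∉ W) → x ∈ X → y ∈ Y →
      List.IsChain G.Adj (x :: (m ++ [y])) →
      ∃ x ∈ X, ∃ y ∈ Y, ∃ p : List V, p.Nodup ∧ (∀ z ∈ p, z ∉ X ∧ z ∉ Y ∧ z ∉ W) ∧
        List.IsChain G.Adj (x :: (p ++ [y])) := by
  intro n
  induction n using Nat.strong_induction_on with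
  | _ n ih =>
    intro m x y hn hnd hW hx hy hc
    by_cases h1 : ∃ z ∈ m, z ∈ X
    · obtain ⟨z, hz, hzX⟩ := h1
      obtain ⟨a, b, rfl⟩ := List.append_of_mem hz
      refine ih b.length ?_ b z y rfl ?_ ?_ hzX hy ?_
      · rw [← hn]; simp; omega
      · exact ((List.nodup_append.1 hnd).2.1).of_cons
      · intro w hw
        exact hW w (by simp [hw])
      · have h2 : x :: ((a ++ z :: b) ++ [y]) = (x :: a) ++ (z :: (b ++ [y])) := by simp
        rw [h2] at hc
        exact hc.right_of_append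
    · by_cases h2 : ∃ z ∈ m, z ∈ Y
      · obtain ⟨z, hz, hzY⟩ := h2
        obtain ⟨a, b, rfl⟩ := List.append_of_mem hz
        refine ih a.length ?_ a x z rfl ?_ ?_ hx hzY ?_
        · rw [← hn]; simp
        · exact (List.nodup_append.1 hnd).1
        · intro w hw
          exact hW w (by simp [hw])
        · have h3 : x :: ((a ++ z :: b) ++ [y]) = (x :: (a ++ [z])) ++ (b ++ [y]) := by simp
          rw [h3] at hc
          exact hc.left_of_append
      · exact ⟨x, hx, y, hy, m, hnd, fun z hz => ⟨fun h => h1 ⟨z, hz, h⟩,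
          fun h => h2 ⟨z, hz, h⟩, hW z hz⟩, hc⟩

theorem exists_link (G : SimpleGraph V) (W X Y : Set V)
    (hW : (G.induce Wᶜ).Preconnected) (hXW : ∀ x ∈ X, x ∉ W) (hYW : ∀ y ∈ Y, y ∉ W)
    (hXY : ∀ x ∈ X, x ∉ Y) {x0 y0 : V} (hx0 : x0 ∈ X) (hy0 : y0 ∈ Y) :
    ∃ x ∈ X, ∃ y ∈ Y, ∃ p : List V, p.Nodup ∧ (∀ z ∈ p, z ∉ X ∧ z ∉ Y ∧ z ∉ W) ∧
      List.IsChain G.Adj (x :: (p ++ [y])) := by
  classical
  have hne : x0 ≠ y0 := fun h => hXY x0 hx0 (h ▸ hy0)
  obtain ⟨p0⟩ := hW ⟨x0, hXW x0 hx0⟩ ⟨y0, hYW y0 hy0⟩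
  obtain ⟨p, hp⟩ : ∃ p : (G.induce Wᶜ).Walk ⟨x0, hXW x0 hx0⟩ ⟨y0, hYW y0 hy0⟩, p.IsPath :=
    ⟨p0.bypass, p0.bypass_isPath⟩
  have hsup : p.support.Nodup := hp.support_nodup
  have hch : List.IsChain (G.induce Wᶜ).Adj p.support := p.isChain_adj_support
  cases p with
  | nil => exact absurd rfl hne
  | cons h p' =>
    have hlast := SimpleGraph.Walk.getLast_support p'
    have hdec : p'.support = p'.support.dropLast ++ [⟨y0, hYW y0 hy0⟩] := by
      conv_lhs => rw [← List.dropLast_append_getLast p'.support_ne_nil, hlast]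
    have hcons : (SimpleGraph.Walk.cons h p').support = ⟨x0, hXW x0 hx0⟩ :: p'.support := rfl
    rw [hcons] at hsup hch
    rw [hdec] at hsup hch
    refine link_aux G W X Y _ (p'.support.dropLast.map Subtype.val) x0 y0 rfl ?_ ?_ hx0 hy0 ?_
    · exact ((List.nodup_append.1 hsup.of_cons).1).map Subtype.val_injective
    · intro z hz
      obtain ⟨w, -, rfl⟩ := List.mem_map.1 hz
      exact w.2
    · have h4 : x0 :: (p'.support.dropLast.map Subtype.val ++ [y0]) =
          (⟨x0, hXW x0 hx0⟩ :: (p'.support.dropLast ++ [⟨y0, hYW y0 hy0⟩]) : List ↑Wᶜ).map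
            Subtype.val := by
        simp only [List.map_cons, List.map_append, List.map_nil]
      rw [h4]
      exact (List.isChain_map _).2 hch

end LongCyc
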