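import Pool.Agent.LongCyc.Split
import Pool.Agent.LongCyc.AddP
import Pool.Agent.LongCyc.Link

/-!
# Longest cycle intersections (MP_7b0c7a_co): the branching step is sound

Paper proof.  If `I e = []` use `mkE_rz` (first child).  Otherwise let `X` be the set of the elements
of `I e` and `Y` the set of all `f w` with `s ≤ w < S.nv` and of all elements of `I e'`, `e' ≠ e`,
`e' < S.ps.length`.  `Y` is nonempty since `f s ∈ Y` (`h.sn`).  `exists_link` gives `x ∈ I e`,
`y ∈ Y` and a path `p` which avoids `X`, `Y` and `W`, hence all interiors and all nodes (nodes with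
number `< s` are in `W`).  Write `I e = I1 ++ x :: I2` and apply `split_rz` (tag 3 or 4 is not empty).
If `y = f w`: apply `add_rz` to the state `S.split e` with `u = S.nv`, `v = w` (the updated function
has value `x` at `S.nv` and `f w` at `w`); this is a child of the first kind, `w = s + i` with
`i = w - s`.  If `y ∈ I e'`, `e' ≠ e`: then `isE (S.pc e').2.2 = false` (else `I e' = []`), apply
`split_rz` again for `e'` to the state `S.split e` (the interior of `e'` has not changed; the new
node has number `S.nv + 1`), then `add_rz` with `u = S.nv`, `v = S.nv + 1`.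
-/

namespace LongCyc

variable {V : Type*}

theorem kids_sound {G : SimpleGraph V} {W : Set V} {s L : ℕ} {S : St} {f : ℕ → V}
    {I : ℕ → List V} (hW : (G.induce Wᶜ).Preconnected) (h : Rz G W s L S f I) {e : ℕ}
    (he : e < S.ps.length) (hU : isU (S.pc e).2.2 = true) :
    ∃ S' ∈ S.kids s e, ∃ f' I', Rz G W s L S' f' I' := by
  classical
  by_cases hIe : I e = []
  · exact ⟨S.mkE e, List.mem_cons_self, f, I, mkE_rz h he hIe⟩
  have hE : isE (S.pc e).2.2 = false := by
    rcases isU_cases _ hU with h3 | h3 <;> rw [h3] <;> rfl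
  obtain ⟨x0, hx0⟩ := List.exists_mem_of_ne_nil _ hIe
  obtain ⟨Y, hY⟩ : ∃ Y : Set V, Y = {z | (∃ w, s ≤ w ∧ w < S.nv ∧ z = f w) ∨
    ∃ e', e' < S.ps.length ∧ e' ≠ e ∧ z ∈ I e'} := ⟨_, rfl⟩
  obtain ⟨x, hx, y, hy, p, hp, hpz, hc⟩ := exists_link G W {z | z ∈ I e} Y hW
    (fun z hz => h.wI e he z hz)
    (fun z hz => by
      rw [hY] at hz
      rcases hz with ⟨w, hw1, hw2, rfl⟩ | ⟨e', he', _, hz⟩
      · exact h.wN w hw2 hw1
      · exact h.wI e' he' z hz)
    (fun z hz hzY => by
      rw [hY] at hzY
      rcases hzY with ⟨w, hw1, hw2, rfl⟩ | ⟨e', he', hne, hz'⟩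
      · exact h.fI w hw2 e he hz
      · exact h.dj e he e' he' hne.symm z hz hz')
    (x0 := x0) (y0 := f s) hx0
    (by
      rw [hY]
      exact Or.inl ⟨s, le_rfl, h.sn, rfl⟩)
  have hx' : x ∈ I e := hx
  obtain ⟨I1, I2, hI⟩ := List.append_of_mem hx'
  have hr := split_rz h he hE hI
  -- the vertices of the path
  have hpe : ∀ z ∈ p, z ∉ I e := fun z hz => (hpz z hz).1
  have hpI1 : ∀ z ∈ p, z ∉ I1 := fun z hz hz1 => hpe z hz (by rw [hI]; simp [hz1])
  have hpI2 : ∀ z ∈ p, z ∉ I2 := fun z hz hz1 => hpe z hz (by rw [hI]; simp [hz1])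
  have hpx : ∀ z ∈ p, z ≠ x := fun z hz hz1 => hpe z hz (by rw [hI]; simp [hz1])
  have hpe' : ∀ z ∈ p, ∀ e' < S.ps.length, z ∉ I e' := by
    intro z hz e' he' hz'
    by_cases hee : e' = e
    · exact hpe z hz (hee ▸ hz')
    · refine (hpz z hz).2.1 ?_
      rw [hY]
      exact Or.inr ⟨e', he', hee, hz'⟩
  have hpf : ∀ z ∈ p, ∀ i < S.nv, z ≠ f i := by
    intro z hz i hi hzi
    by_cases hsi : s ≤ i
    · refine (hpz z hz).2.1 ?_
      rw [hY]
      exact Or.inl ⟨i, hsi, hi, hzi⟩
    · refine (hpz z hz).2.2 ?_
      rw [hzi]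
      exact h.wW i hi (by omega)
  have hpW : ∀ z ∈ p, z ∉ W := fun z hz => (hpz z hz).2.2
  have hs1 : ∀ z ∈ p, ∀ e1 < (S.split e).ps.length,
      z ∉ (Function.update (Function.update I e I1) S.ps.length I2) e1 := by
    intro z hz e1 he1
    rw [split_len] at he1
    by_cases h4 : e1 = S.ps.length
    · rw [h4, Function.update_self]
      exact hpI2 z hz
    · rw [Function.update_of_ne h4]
      by_cases h5 : e1 = e
      · rw [h5, Function.update_self]
        exact hpI1 z hz
      · rw [Function.update_of_ne h5]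
        exact hpe' z hz e1 (by omega)
  have hs2 : ∀ z ∈ p, ∀ i < (S.split e).nv, z ≠ (Function.update f S.nv x) i := by
    intro z hz i hi
    rw [split_nv] at hi
    by_cases h4 : i = S.nv
    · rw [h4, Function.update_self]
      exact hpx z hz
    · rw [Function.update_of_ne h4]
      exact hpf z hz i (by omega)
  have hy' := hy
  rw [hY] at hy'
  rcases hy' with ⟨w, hw1, hw2, rfl⟩ | ⟨e', he', hne, hye⟩
  · refine ⟨(S.split e).add S.nv w, ?_, _, _, add_rz (p := p) hr (by rw [split_nv]; omega)
      (by rw [split_nv]; omega) ?_ hp hs1 hs2 hpW⟩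
    · refine List.mem_cons_of_mem _ (List.mem_append_left _ (List.mem_map.2 ⟨w - s, ?_, ?_⟩))
      · rw [List.mem_range]
        omega
      · have h6 : s + (w - s) = w := by omega
        rw [h6]
    · rw [Function.update_self, Function.update_of_ne (by omega : w ≠ S.nv)]
      exact hc
  · have hE' : isE (S.pc e').2.2 = false := by
      by_contra hcon
      have h6 : isE (S.pc e').2.2 = true := by simpa using hcon
      rw [h.emp e' he' h6] at hye
      exact absurd hye (by simp)
    obtain ⟨J1, J2, hJ⟩ := List.append_of_mem hye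
    have hr2 := split_rz (x := y) (I1 := J1) (I2 := J2) hr (e := e')
      (by rw [split_len]; omega) (by rw [split_pc_ne S e e' he' hne]; exact hE')
      (by rw [Function.update_of_ne (by omega : e' ≠ S.ps.length), Function.update_of_ne hne]; exact hJ)
    have hpI : ∀ z ∈ p, z ∉ J1 ∧ z ∉ J2 ∧ z ≠ y := by
      intro z hz
      have h6 := hpe' z hz e' he'
      rw [hJ] at h6
      simp only [List.mem_append, List.mem_cons, not_or] at h6
      exact ⟨h6.1, h6.2.2, h6.2.1⟩
    refine ⟨((S.split e).split e').add S.nv (S.nv + 1), ?_, _, _, add_rz (p := p) hr2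
      (by rw [split_nv, split_nv]; omega) (by rw [split_nv, split_nv]; omega) ?_ hp ?_ ?_ hpW⟩
    · refine List.mem_cons_of_mem _ (List.mem_append_right _ (List.mem_map.2 ⟨e', ?_, rfl⟩))
      rw [List.mem_filter, List.mem_range]
      refine ⟨he', ?_⟩
      have h7 : Nat.beq e' e = false := by
        cases hb : Nat.beq e' e with
        | false => rfl
        | true => exact absurd (Nat.eq_of_beq_eq_true hb) hne
      rw [h7, hE']
      rfl
    · rw [split_nv, Function.update_self, Function.update_of_ne (by omega : S.nv ≠ S.nv + 1),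
        Function.update_self]
      exact hc
    · intro z hz e1 he1
      rw [split_len, split_len] at he1
      by_cases h4 : e1 = (S.split e).ps.length
      · rw [h4, Function.update_self]
        exact (hpI z hz).2.1
      · rw [Function.update_of_ne h4]
        by_cases h5 : e1 = e'
        · rw [h5, Function.update_self]
          exact (hpI z hz).1
        · rw [Function.update_of_ne h5]
          rw [split_len] at h4
          exact hs1 z hz e1 (by rw [split_len]; omega)
    · intro z hz i hi
      rw [split_nv, split_nv] at hi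
      by_cases h4 : i = (S.split e).nv
      · rw [h4, Function.update_self]
        exact (hpI z hz).2.2
      · rw [Function.update_of_ne h4]
        rw [split_nv] at h4
        exact hs2 z hz i (by rw [split_nv]; omega)

end LongCyc
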