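import Pool.Agent.LongCyc.CycL

/-!
# Longest cycle intersections (MP_7b0c7a_co): the linear certificate is sound

Paper proof.  Let `x e = (I e).length + 1`, `flat = cs.flatMap List.tail`, `b = cs.length - a`,
`T e = tgt a b (S.pc e).2.2`.  For every `c ∈ cs` the sum of `x e` over `e ∈ c.tail` is at most `L`:
by `cyc_list` it is the length of a cycle list; if this length is at least 3 use `hb`, otherwise it
is at most `2 ≤ L`.  Hence the sum of `x e` over `flat` is at most `cs.length * L = a * L + b * L`,
which is the sum of `T e * x e` over `e < S.ps.length` by `h.sC`, `h.sD` (a tag is not both `isC` and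
`isD`).  On the other hand the sum over `flat` is the sum over `e < S.ps.length` of
`cnt e flat * x e` (all entries of `flat` are `< S.ps.length`), and
`(cnt e flat - T e) * (x e - 1) ≥ 0` for every `e` in the integers (if the tag is empty `x e = 1`,
otherwise `T e ≤ cnt e flat`).  So `0 ≥ ∑ (cnt e flat - T e) * x e ≥ ∑ (cnt e flat - T e)
= flat.length - ∑ T e > 0`, a contradiction.
-/

namespace LongCyc

variable {V : Type*}

theorem lp_one {G : SimpleGraph V} {W : Set V} {s L : ℕ} {S : St} {f : ℕ → V}
    {I : ℕ → List V} (h : Rz G W s L S f I) (hb : Bd G L) (h3 : 3 ≤ L) {c : List ℕ}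
    (hc : cyc S c = true) :
    ((c.tail).map (fun e => (I e).length + 1)).sum ≤ L ∧ ∀ e ∈ c.tail, e < S.ps.length := by
  obtain ⟨x, t, hn, hch, hl, hlt, -⟩ := cyc_list h hc
  refine ⟨?_, hlt⟩
  rw [← hl]
  by_cases h4 : 3 ≤ (x :: t).length
  · exact hb x t hn hch h4
  · omega

theorem lp_all {G : SimpleGraph V} {W : Set V} {s L : ℕ} {S : St} {f : ℕ → V}
    {I : ℕ → List V} (h : Rz G W s L S f I) (hb : Bd G L) (h3 : 3 ≤ L) (cs : List (List ℕ))
    (hc : ∀ c ∈ cs, cyc S c = true) :
    ((cs.flatMap List.tail).map (fun e => (I e).length + 1)).sum ≤ cs.length * L ∧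
      ∀ e ∈ cs.flatMap List.tail, e < S.ps.length := by
  induction cs with
  | nil => simp
  | cons c cs ih =>
    obtain ⟨h5, h6⟩ := ih (fun c' hc' => hc c' (List.mem_cons_of_mem _ hc'))
    obtain ⟨h7, h8⟩ := lp_one h hb h3 (hc c List.mem_cons_self)
    constructor
    · rw [List.flatMap_cons, List.map_append, List.sum_append, List.length_cons, Nat.add_mul, Nat.one_mul,
        Nat.add_comm]
      exact Nat.add_le_add h5 h7
    · intro e he
      rw [List.flatMap_cons, List.mem_append] at he
      rcases he with he | he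
      · exact h8 e he
      · exact h6 e he

theorem lp_count (n : ℕ) (x : ℕ → ℕ) (l : List ℕ) (hl : ∀ e ∈ l, e < n) :
    (l.map x).sum = ∑ e ∈ Finset.range n, l.count e * x e := by
  induction l with
  | nil => simp
  | cons c l ih =>
    have h1 := ih (fun e he => hl e (List.mem_cons_of_mem _ he))
    have h2 : c ∈ Finset.range n := Finset.mem_range.2 (hl c List.mem_cons_self)
    rw [List.map_cons, List.sum_cons, h1]
    have h3 : ∀ e ∈ Finset.range n, (c :: l).count e * x e = (if e = c then x e else 0) + l.count e * x e := by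
      intro e _
      rw [List.count_cons]
      by_cases h4 : e = c
      · subst h4
        simp
        ring
      · have h5 : ¬ (c = e) := fun h => h4 h.symm
        simp [h4, h5]
    rw [Finset.sum_congr rfl h3, Finset.sum_add_distrib, Finset.sum_ite_eq' (Finset.range n) c, if_pos h2]

theorem lp_sum_pc (l : List (ℕ × ℕ × ℕ)) (g : ℕ → ℕ) :
    (l.map fun p => g p.2.2).sum = ∑ e ∈ Finset.range l.length, g (getP l e).2.2 := by
  induction l with
  | nil => simp
  | cons p l ih =>
    rw [List.map_cons, List.sum_cons, List.length_cons, Finset.sum_range_succ', ih, Nat.add_comm]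
    rfl

theorem isC_isD (t : ℕ) (h : isC t = true) : isD t = false := by
  unfold isC at h
  unfold isD
  have h2 : t = 0 ∨ t = 3 ∨ t = 5 := by
    simp only [Bool.or_eq_true] at h
    rcases h with (h | h) | h
    · exact Or.inl (Nat.eq_of_beq_eq_true h)
    · exact Or.inr (Or.inl (Nat.eq_of_beq_eq_true h))
    · exact Or.inr (Or.inr (Nat.eq_of_beq_eq_true h))
  rcases h2 with rfl | rfl | rfl <;> rfl

theorem lp_sound {G : SimpleGraph V} {W : Set V} {s L : ℕ} {S : St} {f : ℕ → V}
    {I : ℕ → List V} (h : Rz G W s L S f I) (hb : Bd G L) (h3 : 3 ≤ L) {a : ℕ}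
    {cs : List (List ℕ)} (hl : lpOK S a cs = true) : False := by
  unfold lpOK at hl
  simp only [Bool.and_eq_true, List.all_eq_true, List.mem_range, Bool.or_eq_true, Nat.ble_eq] at hl
  obtain ⟨⟨⟨h1, h2⟩, h4⟩, h5⟩ := hl
  obtain ⟨h6, h7⟩ := lp_all h hb h3 cs h2
  set flat := cs.flatMap List.tail with hflat
  set b := cs.length - a with hbdef
  set n := S.ps.length with hn
  set x : ℕ → ℕ := fun e => (I e).length + 1 with hx
  set T : ℕ → ℕ := fun e => tgt a b (S.pc e).2.2 with hT
  -- the sum over the certificate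
  have e1 : (flat.map x).sum = ∑ e ∈ Finset.range n, flat.count e * x e := lp_count n x flat h7
  have e2 : flat.length = ∑ e ∈ Finset.range n, flat.count e := by
    have := lp_count n (fun _ => 1) flat h7
    simpa using this
  have e3 : (S.ps.map fun p => tgt a b p.2.2).sum = ∑ e ∈ Finset.range n, T e :=
    lp_sum_pc S.ps (tgt a b)
  have e4 : ∑ e ∈ Finset.range n, T e * x e = cs.length * L := by
    have h8 : cs.length = a + b := by omega
    rw [h8, Nat.add_mul]
    conv_rhs => rw [← h.sC]
    have h9 : b * (∑ e ∈ Finset.range S.ps.length, (if isC (S.pc e).2.2 = true then (I e).length + 1 else 0)) =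
        b * ∑ e ∈ Finset.range S.ps.length, (if isD (S.pc e).2.2 = true then (I e).length + 1 else 0) := by
      rw [h.sC, h.sD]
    rw [h9, Finset.mul_sum, Finset.mul_sum, ← Finset.sum_add_distrib]
    refine Finset.sum_congr rfl fun e _ => ?_
    show tgt a b (S.pc e).2.2 * ((I e).length + 1) = _
    unfold tgt
    by_cases hC : isC (S.pc e).2.2 = true
    · have hD := isC_isD _ hC
      simp [hC, hD]
    · by_cases hD : isD (S.pc e).2.2 = true
      · simp [hC, hD]
      · simp [hC, hD]
  -- comparison
  have e5 : ∀ e ∈ Finset.range n, (0 : ℤ) ≤ ((flat.count e : ℤ) - T e) * ((x e : ℤ) - 1) := by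
    intro e he
    have he' := Finset.mem_range.1 he
    rcases h4 e he' with h8 | h8
    · have h9 : I e = [] := h.emp e he' h8
      have : (x e : ℤ) = 1 := by simp [hx, h9]
      rw [this]
      simp
    · rw [cnt_eq] at h8
      have h9 : (T e : ℤ) ≤ flat.count e := by exact_mod_cast h8
      have h10 : (1 : ℤ) ≤ x e := by
        have : 1 ≤ x e := by simp [hx]
        exact_mod_cast this
      exact mul_nonneg (by linarith) (by linarith)
  have e6 := Finset.sum_nonneg e5
  have e7 : ∑ e ∈ Finset.range n, ((flat.count e : ℤ) - T e) * ((x e : ℤ) - 1) =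
      (∑ e ∈ Finset.range n, (flat.count e : ℤ) * x e) - (∑ e ∈ Finset.range n, (T e : ℤ) * x e) -
      (∑ e ∈ Finset.range n, (flat.count e : ℤ)) + ∑ e ∈ Finset.range n, (T e : ℤ) := by
    rw [← Finset.sum_sub_distrib, ← Finset.sum_sub_distrib, ← Finset.sum_add_distrib]
    refine Finset.sum_congr rfl fun e _ => ?_
    ring
  rw [e7] at e6
  rw [e3] at h5
  have e8 : (∑ e ∈ Finset.range n, (flat.count e : ℤ) * x e) ≤ ∑ e ∈ Finset.range n, (T e : ℤ) * x e := by
    have h8 : (flat.map x).sum ≤ ∑ e ∈ Finset.range n, T e * x e := by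
      rw [e4]
      exact h6
    rw [e1] at h8
    exact_mod_cast h8
  have e9 : (∑ e ∈ Finset.range n, (T e : ℤ)) + 1 ≤ ∑ e ∈ Finset.range n, (flat.count e : ℤ) := by
    rw [e2] at h5
    exact_mod_cast h5
  linarith

end LongCyc
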