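import Mathlib

/-!
# Longest cycle intersections (MP_7b0c7a_co): the definitions of the problem
-/

namespace LongCyc

/-- `G` is `k`-connected: it has more than `k` vertices, and deleting any set of fewer than `k`
vertices leaves a connected graph. -/
def KConnected (k : ℕ) {V : Type} [Fintype V] (G : SimpleGraph V) : Prop :=
  k < Fintype.card V ∧ ∀ W : Set V, W.ncard < k → (G.induce Wᶜ).Connected

/-- The closed walk `c` is a longest cycle of `G`; its length is the circumference of `G`. -/
def IsLongestCycle {V : Type} (G : SimpleGraph V) {u : V} (c : G.Walk u u) : Prop :=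
  c.IsCycle ∧ ∀ (v : V) (d : G.Walk v v), d.IsCycle → d.length ≤ c.length

/-- `C ∩ D`: the set of the common vertices of two closed walks. -/
def commonVerts {V : Type} {G : SimpleGraph V} {u v : V} (c : G.Walk u u) (d : G.Walk v v) :
    Set V := {x | x ∈ c.support ∧ x ∈ d.support}

/-- `W` is an articulation set of `G`: the graph `G - W` is disconnected. -/
def IsArticulationSet {V : Type} (G : SimpleGraph V) (W : Set V) : Prop :=
  ¬ (G.induce Wᶜ).Preconnected

/-- The property `A'_k(m)`: for every `k`-connected non-Hamiltonian finite graph `G` whose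
circumference is larger than `m` and any two longest cycles `C`, `D` of `G` with `|C ∩ D| ≤ m`,
the set `C ∩ D` is an articulation set of `G`. -/
def APrime (k m : ℕ) : Prop :=
  ∀ (V : Type) [Fintype V] (G : SimpleGraph V), KConnected k G →
    (¬ ∃ (u : V) (h : G.Walk u u), h.IsCycle ∧ ∀ x, x ∈ h.support) →
    ∀ (u v : V) (c : G.Walk u u) (d : G.Walk v v), IsLongestCycle G c → IsLongestCycle G d →
      m < c.length → (commonVerts c d).ncard ≤ m → IsArticulationSet G (commonVerts c d)

end LongCyc
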