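import Pool.Agent.LongCyc.Defs

/-!
# Longest cycle intersections (MP_7b0c7a_co): realisations of a state in a graph
-/

namespace LongCyc

variable {V : Type*}

/-- A realisation of the state `S` in the graph `G`: the nodes are the distinct vertices `f i`, the
pieces are internally disjoint paths with interiors `I e`; the first `s` nodes are in `W`, nothing
else meets `W`; the total lengths of the pieces of `C` and of `D` are `L`. -/
structure Rz (G : SimpleGraph V) (W : Set V) (s L : ℕ) (S : St) (f : ℕ → V)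
    (I : ℕ → List V) : Prop where
  lt : ∀ e < S.ps.length, (S.pc e).1 < S.nv ∧ (S.pc e).2.1 < S.nv
  ch : ∀ e < S.ps.length, List.IsChain G.Adj (f (S.pc e).1 :: (I e ++ [f (S.pc e).2.1]))
  inj : ∀ i < S.nv, ∀ j < S.nv, f i = f j → i = j
  nd : ∀ e < S.ps.length, (I e).Nodup
  dj : ∀ e < S.ps.length, ∀ e' < S.ps.length, e ≠ e' → ∀ x ∈ I e, x ∉ I e'
  fI : ∀ i < S.nv, ∀ e < S.ps.length, f i ∉ I e
  emp : ∀ e < S.ps.length, isE (S.pc e).2.2 = true → I e = []
  sC : ∑ e ∈ Finset.range S.ps.length,
    (if isC (S.pc e).2.2 = true then (I e).length + 1 else 0) = L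
  sD : ∑ e ∈ Finset.range S.ps.length,
    (if isD (S.pc e).2.2 = true then (I e).length + 1 else 0) = L
  wN : ∀ i < S.nv, s ≤ i → f i ∉ W
  wW : ∀ i < S.nv, i < s → f i ∈ W
  wI : ∀ e < S.ps.length, ∀ x ∈ I e, x ∉ W
  sn : s < S.nv

/-- The graph has no cycle with more than `L` vertices (in list form). -/
def Bd (G : SimpleGraph V) (L : ℕ) : Prop :=
  ∀ (x : V) (t : List V), (x :: t).Nodup → List.IsChain G.Adj (x :: (t ++ [x])) →
    3 ≤ (x :: t).length → (x :: t).length ≤ L

/-- A configuration: cycles `a :: rc` and `b :: rd` with `L` vertices, `a` not on the second,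
`b` not on the first, and a path with interior `p` from `a` to `b` which avoids both cycles. -/
structure Cfg (G : SimpleGraph V) (L : ℕ) (a b : V) (rc rd p : List V) : Prop where
  ndc : (a :: rc).Nodup
  ndd : (b :: rd).Nodup
  chc : List.IsChain G.Adj (a :: (rc ++ [a]))
  chd : List.IsChain G.Adj (b :: (rd ++ [b]))
  lc : (a :: rc).length = L
  ld : (b :: rd).length = L
  ad : a ∉ b :: rd
  bc : b ∉ a :: rc
  chp : List.IsChain G.Adj (a :: (p ++ [b]))
  ndp : p.Nodup
  pc : ∀ z ∈ p, z ∉ a :: rc
  pd : ∀ z ∈ p, z ∉ b :: rd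

/-- The shared vertices in the order of `rc`. -/
def sh [DecidableEq V] (rc rd : List V) : List V := rc.filter (fun x => decide (x ∈ rd))

/-- The order type of a configuration. -/
def typ [DecidableEq V] (rc rd : List V) : List ℕ :=
  (sh rd rc).map (fun x => (sh rc rd).idxOf x)

end LongCyc
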