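import Pool.Agent.LongCyc.Fan
import Pool.Agent.LongCyc.Rz

/-!
# Longest cycle intersections (MP_7b0c7a_co): two longest cycles are not disjoint

Paper proof.  Let the cycles be disjoint.  `two_paths` with `A` the vertices of the first and `B` the
vertices of the second cycle gives disjoint paths `a1 p1 b1` and `a2 p2 b2`.  Rotate the first cycle
such that it is `a1 :: (u ++ a2 :: v)` and the second such that it is `b1 :: (u' ++ b2 :: v')`.
The two lists
`a1 :: (u ++ a2 :: (p2 ++ b2 :: (u'.reverse ++ b1 :: p1.reverse)))` and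
`a1 :: (v.reverse ++ a2 :: (p2 ++ b2 :: (v' ++ b1 :: p1.reverse)))` are cycles (check: the second runs
`a1`, `v` backwards, `a2`, `p2`, `b2`, `v'` forwards, `b1`, `p1` backwards), of total length
`|u| + |u'| + |v| + |v'| + 8 + 2|p1| + 2|p2| = 2 L + 4 + 2|p1| + 2|p2|`, so one of them is longer
than `L`.
-/

namespace LongCyc

variable {V : Type*}

private theorem zjoin (R : V → V → Prop) (l1 l2 : List V) (z : V)
    (h1 : List.IsChain R (l1 ++ [z])) (h2 : List.IsChain R (z :: l2)) :
    List.IsChain R (l1 ++ z :: l2) := by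
  have h := List.IsChain.append_overlap (l₁ := l1) (l₂ := [z]) (l₃ := l2) h1 (by simpa using h2)
    (by simp)
  simpa using h

private theorem zleft (R : V → V → Prop) (x y z : V) (l1 l2 : List V)
    (h : List.IsChain R (x :: ((l1 ++ y :: l2) ++ [z]))) : List.IsChain R (x :: (l1 ++ [y])) := by
  have h4 : x :: ((l1 ++ y :: l2) ++ [z]) = (x :: (l1 ++ [y])) ++ (l2 ++ [z]) := by simp
  rw [h4] at h
  exact h.left_of_append

private theorem zright (R : V → V → Prop) (x y z : V) (l1 l2 : List V)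
    (h : List.IsChain R (x :: ((l1 ++ y :: l2) ++ [z]))) : List.IsChain R (y :: (l2 ++ [z])) := by
  have h4 : x :: ((l1 ++ y :: l2) ++ [z]) = (x :: l1) ++ (y :: (l2 ++ [z])) := by simp
  rw [h4] at h
  exact h.right_of_append

private theorem zrev (G : SimpleGraph V) (x y : V) (l : List V)
    (h : List.IsChain G.Adj (x :: (l ++ [y]))) : List.IsChain G.Adj (y :: (l.reverse ++ [x])) := by
  have h2 : y :: (l.reverse ++ [x]) = (x :: (l ++ [y])).reverse := by simp
  rw [h2, List.isChain_reverse]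
  exact h.imp fun a b hab => hab.symm

/-- A list cycle can be run from each of its vertices, and a second vertex splits it. -/
private theorem zrot (G : SimpleGraph V) {x y : V} {t : List V} (h1 : (x :: t).Nodup)
    (h2 : List.IsChain G.Adj (x :: (t ++ [x]))) (hy : y ∈ x :: t) :
    ∃ t' : List V, (y :: t').Nodup ∧ List.IsChain G.Adj (y :: (t' ++ [y])) ∧
      (y :: t').length = (x :: t).length ∧ ∀ w, w ∈ y :: t' ↔ w ∈ x :: t := by
  rcases List.mem_cons.1 hy with h | h
  · subst h
    exact ⟨t, h1, h2, rfl, fun w => Iff.rfl⟩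
  · obtain ⟨l1, l2, rfl⟩ := List.append_of_mem h
    have hp : (y :: (l2 ++ x :: l1)).Perm (x :: (l1 ++ y :: l2)) := by
      have e1 : (x :: (l1 ++ y :: l2)) = (x :: l1) ++ (y :: l2) := by simp
      have e2 : (y :: (l2 ++ x :: l1)) = (y :: l2) ++ (x :: l1) := by simp
      rw [e1, e2]
      exact List.perm_append_comm
    refine ⟨l2 ++ x :: l1, hp.nodup_iff.2 h1, ?_, hp.length_eq, fun w => hp.mem_iff⟩
    have a1 := zleft G.Adj x y x l1 l2 h2
    have a2 := zright G.Adj x y x l1 l2 h2
    have a3 := zjoin G.Adj (y :: l2) (l1 ++ [y]) x (by simpa using a2) a1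
    simpa using a3

private theorem zfour (G : SimpleGraph V) (w1 w2 w3 w4 : V) (s1 s2 s3 s4 : List V)
    (h1 : List.IsChain G.Adj (w1 :: (s1 ++ [w2]))) (h2 : List.IsChain G.Adj (w2 :: (s2 ++ [w3])))
    (h3 : List.IsChain G.Adj (w3 :: (s3 ++ [w4]))) (h4 : List.IsChain G.Adj (w4 :: (s4 ++ [w1]))) :
    List.IsChain G.Adj (w1 :: ((s1 ++ w2 :: (s2 ++ w3 :: (s3 ++ w4 :: s4))) ++ [w1])) := by
  have a3 := zjoin G.Adj (w3 :: s3) (s4 ++ [w1]) w4 (by simpa using h3) h4
  have a2 := zjoin G.Adj (w2 :: s2) (s3 ++ w4 :: (s4 ++ [w1])) w3 (by simpa using h2)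
    (by simpa using a3)
  have a1 := zjoin G.Adj (w1 :: s1) (s2 ++ w3 :: (s3 ++ w4 :: (s4 ++ [w1]))) w2 (by simpa using h1)
    (by simpa using a2)
  simpa using a1

theorem not_disjoint (G : SimpleGraph V) (L : ℕ) (hb : Bd G L)
    (h0 : G.Preconnected) (h1 : ∀ v : V, (G.induce ({v} : Set V)ᶜ).Preconnected)
    {a b : V} {rc rd : List V} (h2 : (a :: rc).Nodup) (h3 : (b :: rd).Nodup)
    (h4 : List.IsChain G.Adj (a :: (rc ++ [a]))) (h5 : List.IsChain G.Adj (b :: (rd ++ [b])))
    (h6 : (a :: rc).length = L) (h7 : (b :: rd).length = L) (h8 : 3 ≤ L)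
    (h9 : ∀ x ∈ a :: rc, x ∉ b :: rd) : False := by
  classical
  obtain ⟨a', ha', haa⟩ : ∃ a' ∈ a :: rc, a ≠ a' := by
    cases rc with
    | nil => simp at h6; omega
    | cons a' r =>
      refine ⟨a', by simp, ?_⟩
      rintro rfl
      simp at h2
  obtain ⟨b', hb', hbb⟩ : ∃ b' ∈ b :: rd, b ≠ b' := by
    cases rd with
    | nil => simp at h7; omega
    | cons b' r =>
      refine ⟨b', by simp, ?_⟩
      rintro rfl
      simp at h3
  obtain ⟨a1, ha1, a2, ha2, b1, hb1, b2, hb2, p1, p2, ha12, hb12, np1, np2, dp, v1, v2, c1, c2⟩ :=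
    two_paths G {x | x ∈ a :: rc} {x | x ∈ b :: rd} h0 h1 (fun x hx => h9 x hx)
      (show a ∈ {x | x ∈ a :: rc} by simp) ha' haa (show b ∈ {x | x ∈ b :: rd} by simp) hb' hbb
  simp only [Set.mem_ofPred_eq] at ha1 ha2 hb1 hb2 v1 v2
  obtain ⟨t, nt, ct, lt, mt⟩ := zrot G h2 h4 ha1
  obtain ⟨r, nr, cr, lr, mr⟩ := zrot G h3 h5 hb1
  have ha2' : a2 ∈ t := by
    rcases List.mem_cons.1 ((mt a2).2 ha2) with h | h
    · exact absurd h.symm ha12
    · exact h
  have hb2' : b2 ∈ r := by
    rcases List.mem_cons.1 ((mr b2).2 hb2) with h | h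
    · exact absurd h.symm hb12
    · exact h
  obtain ⟨u, v, rfl⟩ := List.append_of_mem ha2'
  obtain ⟨u', v', rfl⟩ := List.append_of_mem hb2'
  -- the big list
  have big : ((a1 :: (u ++ a2 :: v)) ++ ((b1 :: (u' ++ b2 :: v')) ++ (p1 ++ p2))).Nodup := by
    rw [List.nodup_append]
    refine ⟨nt, ?_, ?_⟩
    · rw [List.nodup_append]
      refine ⟨nr, ?_, ?_⟩
      · rw [List.nodup_append]
        exact ⟨np1, np2, fun x hx y hy he => dp x hx (he ▸ hy)⟩
      · intro x hx y hy he
        subst he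
        rcases List.mem_append.1 hy with h | h
        · exact (v1 x h).2 ((mr x).1 hx)
        · exact (v2 x h).2 ((mr x).1 hx)
    · intro x hx y hy he
      subst he
      have hx' := (mt x).1 hx
      rcases List.mem_append.1 hy with h | h
      · exact h9 x hx' ((mr x).1 h)
      · rcases List.mem_append.1 h with h | h
        · exact (v1 x h).1 hx'
        · exact (v2 x h).1 hx'
  rw [List.nodup_iff_count_le_one] at big
  have n1 : (a1 :: (u ++ a2 :: (p2 ++ b2 :: (u'.reverse ++ b1 :: p1.reverse)))).Nodup := by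
    rw [List.nodup_iff_count_le_one]
    intro x
    have := big x
    simp only [List.count_cons, List.count_append, List.count_reverse] at this ⊢
    omega
  have n2 : (a1 :: (v.reverse ++ a2 :: (p2 ++ b2 :: (v' ++ b1 :: p1.reverse)))).Nodup := by
    rw [List.nodup_iff_count_le_one]
    intro x
    have := big x
    simp only [List.count_cons, List.count_append, List.count_reverse] at this ⊢
    omega
  have d1 := zfour G a1 a2 b2 b1 u p2 u'.reverse p1.reverse (zleft G.Adj a1 a2 a1 u v ct) c2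
    (zrev G b1 b2 u' (zleft G.Adj b1 b2 b1 u' v' cr)) (zrev G a1 b1 p1 c1)
  have d2 := zfour G a1 a2 b2 b1 v.reverse p2 v' p1.reverse
    (zrev G a2 a1 v (zright G.Adj a1 a2 a1 u v ct)) c2
    (zright G.Adj b1 b2 b1 u' v' cr) (zrev G a1 b1 p1 c1)
  have e1 := hb _ _ n1 d1 (by simp; omega)
  have e2 := hb _ _ n2 d2 (by simp; omega)
  simp only [List.length_cons, List.length_append, List.length_reverse] at e1 e2 lt lr h6 h7
  omega

end LongCyc
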