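import Pool.Agent.LongCyc.Red
import Pool.Agent.LongCyc.Zero
import Pool.Agent.LongCyc.Bridge
import Pool.Agent.LongCyc.Prop

/-!
# Longest cycle intersections (MP_7b0c7a_co): the positive theorem
-/

namespace LongCyc

/-- Longest cycles `c`, `d` of a graph which stays connected after deleting any vertex; if they
have at most `7` common vertices and do not have the same vertices then the common vertices are
an articulation set. -/
theorem articulation {V : Type} (G : SimpleGraph V) (h0 : G.Preconnected)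
    (h1 : ∀ v : V, (G.induce ({v} : Set V)ᶜ).Preconnected)
    (u v : V) (c : G.Walk u u) (d : G.Walk v v) (hc : IsLongestCycle G c)
    (hd : IsLongestCycle G d) (h7 : (commonVerts c d).ncard ≤ 7)
    (hL : (commonVerts c d).ncard < c.length) :
    IsArticulationSet G (commonVerts c d) := by
  classical
  intro hW
  have hlen : d.length = c.length := le_antisymm (hc.2 _ _ hd.1) (hd.2 _ _ hc.1)
  have hb : Bd G c.length := bd_of_longest G c.length hc.2
  -- the two lists
  obtain ⟨t0, hn0, hch0, hl0, hm0⟩ := list_of_walk G c hc.1 u c.start_mem_support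
  obtain ⟨t1, hn1, hch1, hl1, hm1⟩ := list_of_walk G d hd.1 v d.start_mem_support
  have hfin : (commonVerts c d).Finite := by
    apply Set.Finite.subset (List.finite_toSet c.support)
    intro x hx
    exact hx.1
  -- a vertex of c outside d
  have key : ∀ (l : List V), l.Nodup → c.length ≤ l.length → (∀ x ∈ l, x ∈ commonVerts c d) →
      False := by
    intro l hl h8 hsub
    have h9 : (l.toFinset : Set V).ncard ≤ (commonVerts c d).ncard :=
      Set.ncard_le_ncard (fun x hx => hsub x (by simpa using hx)) hfin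
    rw [Set.ncard_coe_finset, List.toFinset_card_of_nodup hl] at h9
    omega
  have hx0 : ∃ x ∈ c.support, x ∉ d.support := by
    by_contra hcon
    push Not at hcon
    exact key (u :: t0) hn0 (by omega) (fun x hx => ⟨(hm0 x).mp hx, hcon x ((hm0 x).mp hx)⟩)
  have hy0 : ∃ y ∈ d.support, y ∉ c.support := by
    by_contra hcon
    push Not at hcon
    exact key (v :: t1) hn1 (by omega) (fun x hx => ⟨hcon x ((hm1 x).mp hx), (hm1 x).mp hx⟩)
  obtain ⟨x0, hx0c, hx0d⟩ := hx0
  obtain ⟨y0, hy0d, hy0c⟩ := hy0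
  obtain ⟨a, ⟨hac, had⟩, b, ⟨hbd, hbc⟩, p, hp1, hp2, hp3⟩ := exists_link G (commonVerts c d)
    {x | x ∈ c.support ∧ x ∉ d.support} {x | x ∈ d.support ∧ x ∉ c.support} hW
    (fun x hx h => hx.2 h.2) (fun x hx h => hx.2 h.1) (fun x hx h => hx.2 h.1)
    (show x0 ∈ {x | x ∈ c.support ∧ x ∉ d.support} from ⟨hx0c, hx0d⟩)
    (show y0 ∈ {x | x ∈ d.support ∧ x ∉ c.support} from ⟨hy0d, hy0c⟩)
  obtain ⟨rc, hn2, hch2, hl2, hm2⟩ := list_of_walk G c hc.1 a hac
  obtain ⟨rd, hn3, hch3, hl3, hm3⟩ := list_of_walk G d hd.1 b hbd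
  have hcfg : Cfg G c.length a b rc rd p := by
    refine ⟨hn2, hn3, hch2, hch3, hl2, by rw [hl3, hlen], ?_, ?_, hp3, hp1, ?_, ?_⟩
    · intro h; exact had ((hm3 a).mp h)
    · intro h; exact hbc ((hm2 b).mp h)
    · intro z hz h
      obtain ⟨q1, q2, q3⟩ := hp2 z hz
      have hzc := (hm2 z).mp h
      by_cases hzd : z ∈ d.support
      · exact q3 ⟨hzc, hzd⟩
      · exact q1 ⟨hzc, hzd⟩
    · intro z hz h
      obtain ⟨q1, q2, q3⟩ := hp2 z hz
      have hzd := (hm3 z).mp h
      by_cases hzc : z ∈ c.support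
      · exact q3 ⟨hzc, hzd⟩
      · exact q2 ⟨hzd, hzc⟩
  have hWeq : {x | x ∈ rc ∧ x ∈ rd} = commonVerts c d := by
    ext x
    constructor
    · rintro ⟨h2, h3⟩
      exact ⟨(hm2 x).mp (List.mem_cons_of_mem _ h2), (hm3 x).mp (List.mem_cons_of_mem _ h3)⟩
    · rintro ⟨h2, h3⟩
      have h4 := (hm2 x).mpr h2
      have h5 := (hm3 x).mpr h3
      rw [List.mem_cons] at h4 h5
      refine ⟨?_, ?_⟩
      · rcases h4 with h4 | h4
        · subst h4; exact absurd h3 had
        · exact h4
      · rcases h5 with h5 | h5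
        · subst h5; exact absurd h2 hbc
        · exact h5
  have hnrc : rc.Nodup := (List.nodup_cons.mp hn2).2
  have hshn : (sh rc rd).Nodup := hnrc.filter _
  have hs7 : (sh rc rd).length ≤ 7 := by
    have h9 : ((sh rc rd).toFinset : Set V) = commonVerts c d := by
      rw [← hWeq]
      ext x
      simp [sh]
    rw [← h9, Set.ncard_coe_finset, List.toFinset_card_of_nodup hshn] at h7
    exact h7
  have h3 : 3 ≤ c.length := hc.1.three_le_length
  by_cases hs0 : (sh rc rd).length = 0
  · -- disjoint cycles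
    have hsh : sh rc rd = [] := List.length_eq_zero_iff.mp hs0
    have hemp : ∀ x, x ∉ commonVerts c d := by
      intro x hx
      rw [← hWeq] at hx
      have : x ∈ sh rc rd := by
        unfold sh
        rw [List.mem_filter]
        exact ⟨hx.1, by simpa using hx.2⟩
      rw [hsh] at this
      simp at this
    refine not_disjoint G c.length hb h0 h1 hn2 hn3 hch2 hch3 hl2 (by rw [hl3, hlen]) h3 ?_
    intro x hx hx'
    exact hemp x ⟨(hm2 x).mp hx, (hm3 x).mp hx'⟩
  · refine no_cfg G c.length hb h3 _ a b rc rd p le_rfl hcfg ?_ (by omega) hs7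
    rw [hWeq]
    exact hW

theorem holds (k m : ℕ) (hk : 2 ≤ k) (hm : m ≤ 7) : APrime k m := by
  intro V _ G hG _ u v c d hc hd hL hcd
  have h0 : G.Preconnected := by
    have := (hG.2 ∅ (by simp; omega)).preconnected
    intro x y
    obtain ⟨w⟩ := this ⟨x, by simp⟩ ⟨y, by simp⟩
    exact ⟨w.map (SimpleGraph.Embedding.induce _).toHom⟩
  have h1 : ∀ v : V, (G.induce ({v} : Set V)ᶜ).Preconnected := by
    intro v
    exact (hG.2 {v} (by simp; omega)).preconnected
  exact articulation G h0 h1 u v c d hc hd (by omega) (by omega)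

end LongCyc
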