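import Pool.Agent.LongCyc.Fam
import Pool.Agent.LongCyc.FinHam

/-!
# Longest cycle intersections (MP_7b0c7a_co): the graphs `GT T` are not Hamiltonian

Paper proof.  A cyclic list containing all vertices contains `inr` vertices and `inl` vertices, so
after a rotation the first element of the list `l` is an `inr` and the last one is an `inl` (the
cyclic condition is invariant under rotation).  Let `K` be the maximal prefix of `inr` elements,
`l = K ++ R`.  CLAIM: all elements of `R` are `inl`.  Otherwise `R = R1 ++ K2 ++ R3`, `R1` nonempty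
and all `inl`, `K2` nonempty and all `inr`, `R3` nonempty, with first element `inl`.  The four
crossing edges are (last of `K`, first of `R1`), (last of `R1`, first of `K2`), (last of `K2`, first
of `R3`), (last of `R3`, first of `K`); an `inl` end `x` of a crossing edge is `4`, `6` or `7` and
determines the `inr` end (`att`).  The first and the last element of `R1` are different (otherwise
last of `K` = first of `K2`, contradiction to nodup), and the first and the last element of `R3` are
different (otherwise last of `K2` = first of `K`).  So `4, 6, 7` contain four different elements, a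
contradiction.  Hence `R` is a list of all nine `inl` vertices, a chain for `pAdj`, nodup, whose
first and last elements are in `{4, 6, 7}`.  A finite search (`no_ham_path`) shows
that there is no such list (the Petersen graph is not Hamiltonian).
-/

namespace LongCyc

/-- split at the first element with property `P`. -/
private theorem nh_split {α : Type*} (P : α → Prop) :
    ∀ l : List α, (∃ x ∈ l, P x) → ∃ A y B, l = A ++ y :: B ∧ (∀ z ∈ A, ¬ P z) ∧ P y
  | [], h => by simp at h
  | x :: l, h => by
    by_cases hx : P x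
    · exact ⟨[], x, l, rfl, by simp, hx⟩
    · obtain ⟨z, hz, hz'⟩ := h
      have hz2 : z ∈ l := by
        rcases List.mem_cons.1 hz with rfl | h
        · exact absurd hz' hx
        · exact h
      obtain ⟨A, y, B, e, hA, hy⟩ := nh_split P l ⟨z, hz2, hz'⟩
      refine ⟨x :: A, y, B, by rw [e]; rfl, ?_, hy⟩
      intro w hw
      rcases List.mem_cons.1 hw with rfl | h
      · exact hx
      · exact hA w h

private theorem nh_last {α : Type*} (l : List α) (h : l ≠ []) : ∃ A y, l = A ++ [y] :=
  ⟨l.dropLast, l.getLast h, (List.dropLast_append_getLast h).symm⟩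

/-- lifting along `inl` -/
private theorem nh_lift {α β : Type*} :
    ∀ l : List (α ⊕ β), (∀ z ∈ l, ¬ ∃ j, z = Sum.inr j) → ∃ l0 : List α, l = l0.map Sum.inl
  | [], _ => ⟨[], rfl⟩
  | x :: l, h => by
    obtain ⟨l0, e⟩ := nh_lift l (fun z hz => h z (List.mem_cons_of_mem _ hz))
    rcases x with a | j
    · exact ⟨a :: l0, by rw [e]; rfl⟩
    · exact absurd ⟨j, rfl⟩ (h _ List.mem_cons_self)

/-- the attachments are functional -/
private theorem nh_att {T x i j : ℕ} (h1 : att T x i = true) (h2 : att T x j = true) : i = j := by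
  simp only [att, Bool.or_eq_true, Bool.and_eq_true, decide_eq_true_eq] at h1 h2
  omega

private theorem nh_att' {T x i : ℕ} (h1 : att T x i = true) : x = 4 ∨ x = 6 ∨ x = 7 := by
  simp only [att, Bool.or_eq_true, Bool.and_eq_true, decide_eq_true_eq] at h1
  omega

/-- the main case: the cyclic list begins with an `inr` and ends with an `inl`. -/
private theorem nh_main (T : ℕ) (l : List (Fin 9 ⊕ Fin (T + 1))) (i0 : Fin (T + 1)) (d : Fin 9)
    (h1 : l.Nodup) (h2 : List.IsChain (GT T).Adj l) (h3 : ∀ y, y ∈ l)
    (h4 : l.head? = some (Sum.inr i0)) (h5 : l.getLast? = some (Sum.inl d))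
    (h6 : (GT T).Adj (Sum.inl d) (Sum.inr i0)) : False := by
  -- first `inl`
  obtain ⟨K, y, S1, e1, hK, ⟨a, rfl⟩⟩ :=
    nh_split (fun z => ∃ a : Fin 9, z = Sum.inl a) l ⟨_, h3 (Sum.inl 0), 0, rfl⟩
  have hK0 : K ≠ [] := by
    rintro rfl
    rw [e1] at h4
    simp at h4
  obtain ⟨K', z, eK⟩ := nh_last K hK0
  obtain ⟨i, rfl⟩ : ∃ i, z = Sum.inr i := by
    rcases z with z | z
    · exact absurd ⟨z, rfl⟩ (hK (Sum.inl z) (by rw [eK]; simp))
    · exact ⟨z, rfl⟩
  have hc := h2
  rw [e1, List.isChain_append] at hc
  obtain ⟨-, hcR, hcx⟩ := hc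
  have ea : att T a.val i.val = true :=
    hcx (Sum.inr i) (by rw [eK]; simp) (Sum.inl a) (by simp)
  have hi0K : Sum.inr i0 ∈ K := by
    rcases K with _ | ⟨k, K⟩
    · exact absurd rfl hK0
    · rw [e1] at h4
      simp only [List.cons_append, List.head?_cons, Option.some.injEq] at h4
      rw [h4]; exact List.mem_cons_self
  have hiK : Sum.inr i ∈ K := by rw [eK]; simp
  have hnd := h1
  rw [e1, List.nodup_append] at hnd
  obtain ⟨-, hndR, hdis⟩ := hnd
  have h5' : (Sum.inl a :: S1).getLast? = some (Sum.inl d) := by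
    rw [e1, List.getLast?_append] at h5
    simpa using h5
  by_cases hall : ∃ z ∈ (Sum.inl a :: S1 : List (Fin 9 ⊕ Fin (T + 1))), ∃ j, z = Sum.inr j
  · -- two blocks
    obtain ⟨R1, y, S2, e2, hR1, ⟨j, rfl⟩⟩ := nh_split (fun z => ∃ j, z = Sum.inr j) _ hall
    have hR10 : R1 ≠ [] := by
      rintro rfl
      simp at e2
    obtain ⟨R1', z, eR⟩ := nh_last R1 hR10
    obtain ⟨b, rfl⟩ : ∃ b, z = Sum.inl b := by
      rcases z with z | z
      · exact ⟨z, rfl⟩
      · exact absurd ⟨z, rfl⟩ (hR1 (Sum.inr z) (by rw [eR]; simp))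
    have haR : Sum.inl a ∈ R1 := by
      rcases R1 with _ | ⟨k, R1⟩
      · exact absurd rfl hR10
      · simp only [List.cons_append, List.cons.injEq] at e2
        rw [← e2.1]; exact List.mem_cons_self
    have hbR : Sum.inl b ∈ R1 := by rw [eR]; simp
    rw [e2] at hcR hndR h5' hdis
    rw [List.isChain_append] at hcR
    obtain ⟨-, hcS, hcx2⟩ := hcR
    have eb : att T b.val j.val = true :=
      hcx2 (Sum.inl b) (by rw [eR]; simp) (Sum.inr j) (by simp)
    rw [List.nodup_append] at hndR
    obtain ⟨-, hndS, hdis2⟩ := hndR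
    have h5'' : (Sum.inr j :: S2).getLast? = some (Sum.inl d) := by
      rw [List.getLast?_append] at h5'
      simpa using h5'
    have hdS : Sum.inl d ∈ (Sum.inr j :: S2 : List (Fin 9 ⊕ Fin (T + 1))) :=
      List.mem_of_getLast? h5''
    obtain ⟨K2, y, S3, e3, hK2, ⟨c, rfl⟩⟩ :=
      nh_split (fun z => ∃ a : Fin 9, z = Sum.inl a) _ ⟨_, hdS, d, rfl⟩
    have hK20 : K2 ≠ [] := by
      rintro rfl
      simp at e3
    obtain ⟨K2', z, eK2⟩ := nh_last K2 hK20
    obtain ⟨i2, rfl⟩ : ∃ i, z = Sum.inr i := by
      rcases z with z | z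
      · exact absurd ⟨z, rfl⟩ (hK2 (Sum.inl z) (by rw [eK2]; simp))
      · exact ⟨z, rfl⟩
    have hjK2 : Sum.inr j ∈ K2 := by
      rcases K2 with _ | ⟨k, K2⟩
      · exact absurd rfl hK20
      · simp only [List.cons_append, List.cons.injEq] at e3
        rw [← e3.1]; exact List.mem_cons_self
    have hi2K2 : Sum.inr i2 ∈ K2 := by rw [eK2]; simp
    rw [e3] at hcS hndS h5'' hdis hdis2
    rw [List.isChain_append] at hcS
    obtain ⟨-, -, hcx3⟩ := hcS
    have ec : att T c.val i2.val = true :=
      hcx3 (Sum.inr i2) (by rw [eK2]; simp) (Sum.inl c) (by simp)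
    have h5b : (Sum.inl c :: S3).getLast? = some (Sum.inl d) := by
      rw [List.getLast?_append] at h5''
      simpa using h5''
    have hdS3 : Sum.inl d ∈ (Sum.inl c :: S3 : List (Fin 9 ⊕ Fin (T + 1))) :=
      List.mem_of_getLast? h5b
    have hcS3 : Sum.inl c ∈ (Sum.inl c :: S3 : List (Fin 9 ⊕ Fin (T + 1))) :=
      List.mem_cons_self
    have ed : att T d.val i0.val = true := h6
    -- distinctness
    have n1 : a ≠ b := by
      rintro rfl
      have hij : i = j := Fin.ext (nh_att ea eb)
      subst hij
      exact hdis _ hiK _ (by simp [hjK2]) rfl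
    have n2 : c ≠ d := by
      rintro rfl
      have hij : i2 = i0 := Fin.ext (nh_att ec ed)
      subst hij
      exact hdis _ hi0K _ (by simp [hi2K2]) rfl
    have n3 : a ≠ c := by
      rintro rfl
      exact hdis2 _ haR _ (List.mem_append_right _ hcS3) rfl
    have n4 : a ≠ d := by
      rintro rfl
      exact hdis2 _ haR _ (List.mem_append_right _ hdS3) rfl
    have n5 : b ≠ c := by
      rintro rfl
      exact hdis2 _ hbR _ (List.mem_append_right _ hcS3) rfl
    have n6 : b ≠ d := by
      rintro rfl
      exact hdis2 _ hbR _ (List.mem_append_right _ hdS3) rfl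
    have m1 := fun h => n1 (Fin.ext h)
    have m2 := fun h => n2 (Fin.ext h)
    have m3 := fun h => n3 (Fin.ext h)
    have m4 := fun h => n4 (Fin.ext h)
    have m5 := fun h => n5 (Fin.ext h)
    have m6 := fun h => n6 (Fin.ext h)
    have q1 := nh_att' ea
    have q2 := nh_att' eb
    have q3 := nh_att' ec
    have q4 := nh_att' ed
    omega
  · -- one block
    push_neg at hall
    obtain ⟨R0, eR0⟩ := nh_lift (Sum.inl a :: S1) (by
      rintro z hz ⟨j, hj⟩
      exact hall z hz j hj)
    have hndR0 : R0.Nodup := by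
      rw [eR0] at hndR
      exact hndR.of_map _
    have hmem : ∀ x : Fin 9, x ∈ R0 := by
      intro x
      have hx := h3 (Sum.inl x)
      rw [e1, List.mem_append] at hx
      rcases hx with hx | hx
      · exact absurd ⟨x, rfl⟩ (hK _ hx)
      · rw [eR0, List.mem_map] at hx
        obtain ⟨w, hw, hw'⟩ := hx
        rw [← Sum.inl_injective hw']; exact hw
    have hlen : R0.length = 9 := by
      have h := List.toFinset_card_of_nodup hndR0
      have h' : R0.toFinset = Finset.univ := by
        ext x; simp [hmem x]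
      rw [h', Finset.card_univ, Fintype.card_fin] at h
      exact h.symm
    have hchain : List.IsChain (fun x y : Fin 9 => pAdj x.val y.val = true) R0 := by
      rw [eR0, List.isChain_map] at hcR
      exact hcR
    refine no_ham_path (R0.map Fin.val) (by simpa using hlen)
      (hndR0.map Fin.val_injective) ?_ ?_ ?_ ?_
    · intro x hx
      obtain ⟨w, -, rfl⟩ := List.mem_map.1 hx
      exact w.isLt
    · rw [List.isChain_map]
      exact hchain
    · intro x hx
      have : R0.head? = some a := by
        rcases R0 with _ | ⟨r, R0⟩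
        · simp at eR0
        · simp only [List.map_cons, List.cons.injEq] at eR0
          simp [Sum.inl_injective eR0.1]
      rw [List.head?_map, this] at hx
      simp only [Option.map_some, Option.mem_def, Option.some.injEq] at hx
      rw [← hx]
      exact nh_att' ea
    · intro x hx
      have hl : R0.getLast? = some d := by
        rw [eR0, List.getLast?_map] at h5'
        rcases hR : R0.getLast? with _ | r
        · rw [hR] at h5'; simp at h5'
        · rw [hR] at h5'
          simp only [Option.map_some, Option.some.injEq] at h5'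
          rw [Sum.inl_injective h5']
      rw [List.getLast?_map, hl] at hx
      simp only [Option.map_some, Option.mem_def, Option.some.injEq] at hx
      rw [← hx]
      have ed : att T d.val i0.val = true := h6
      exact nh_att' ed

/-- rotation of a closed chain -/
private theorem nh_rot {α : Type*} {R : α → α → Prop} (A B : List α) (x y : α)
    (h : List.IsChain R (x :: ((A ++ y :: B) ++ [x]))) :
    List.IsChain R (y :: ((B ++ x :: A) ++ [y])) := by
  have e : ((x :: (A ++ y :: B) : List α) : Cycle α) = ((y :: (B ++ x :: A) : List α) : Cycle α) := by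
    rw [Cycle.coe_eq_coe]
    have : List.IsRotated ((x :: A) ++ (y :: B)) ((y :: B) ++ (x :: A)) := List.isRotated_append
    simpa using this
  rw [← Cycle.chain_coe_cons, ← e, Cycle.chain_coe_cons]
  exact h

private theorem nh_inl (T : ℕ) (x : Fin 9) (t : List (Fin 9 ⊕ Fin (T + 1)))
    (h1 : (Sum.inl x :: t).Nodup) (h2 : List.IsChain (GT T).Adj (Sum.inl x :: (t ++ [Sum.inl x])))
    (h3 : ∀ y, y ∈ Sum.inl x :: t) : False := by
  obtain ⟨A, y, B, e, hA, ⟨i0, rfl⟩⟩ := nh_split (fun z => ∃ j, z = Sum.inr j) t (by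
    refine ⟨Sum.inr 0, ?_, 0, rfl⟩
    have := h3 (Sum.inr 0)
    simpa using this)
  subst e
  have h2' := nh_rot _ _ _ _ h2
  -- the rotated list ends with the last element of `inl x :: A`
  obtain ⟨A', z, eA⟩ := nh_last (Sum.inl x :: A) (by simp)
  obtain ⟨d, rfl⟩ : ∃ b, z = Sum.inl b := by
    rcases z with z | z
    · exact ⟨z, rfl⟩
    · exfalso
      have hz : Sum.inr z ∈ (Sum.inl x :: A : List (Fin 9 ⊕ Fin (T + 1))) := by rw [eA]; simp
      rcases List.mem_cons.1 hz with h | h
      · simp at h
      · exact hA _ h ⟨z, rfl⟩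
  have hperm : (Sum.inr i0 :: (B ++ Sum.inl x :: A)).Perm (Sum.inl x :: (A ++ Sum.inr i0 :: B)) := by
    have : ((Sum.inr i0 :: B) ++ (Sum.inl x :: A)).Perm ((Sum.inl x :: A) ++ (Sum.inr i0 :: B)) :=
      List.perm_append_comm
    simpa using this
  have hl : (Sum.inr i0 :: (B ++ Sum.inl x :: A)).getLast? = some (Sum.inl d) := by
    rw [← List.cons_append, List.getLast?_append, eA]
    simp
  refine nh_main T (Sum.inr i0 :: (B ++ Sum.inl x :: A)) i0 d (hperm.nodup_iff.2 h1) ?_
    (fun y => hperm.mem_iff.2 (h3 y)) rfl hl ?_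
  · rw [← List.cons_append, List.isChain_append] at h2'
    exact h2'.1
  · rw [← List.cons_append, List.isChain_append] at h2'
    exact h2'.2.2 (Sum.inl d) hl (Sum.inr i0) (by simp)

theorem nonham (T : ℕ) (x : Fin 9 ⊕ Fin (T + 1)) (t : List (Fin 9 ⊕ Fin (T + 1)))
    (h1 : (x :: t).Nodup) (h2 : List.IsChain (GT T).Adj (x :: (t ++ [x])))
    (h3 : ∀ y, y ∈ x :: t) : False := by
  rcases x with x | x
  · exact nh_inl T x t h1 h2 h3
  · obtain ⟨A, y, B, e, hA, ⟨a, rfl⟩⟩ := nh_split (fun z => ∃ a : Fin 9, z = Sum.inl a) t (by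
      refine ⟨Sum.inl 0, ?_, 0, rfl⟩
      have := h3 (Sum.inl 0)
      simpa using this)
    subst e
    have h2' := nh_rot _ _ _ _ h2
    have hperm : (Sum.inl a :: (B ++ Sum.inr x :: A)).Perm
        (Sum.inr x :: (A ++ Sum.inl a :: B)) := by
      have : ((Sum.inl a :: B) ++ (Sum.inr x :: A)).Perm ((Sum.inr x :: A) ++ (Sum.inl a :: B)) :=
        List.perm_append_comm
      simpa using this
    exact nh_inl T a _ (hperm.nodup_iff.2 h1) h2' (fun y => hperm.mem_iff.2 (h3 y))

end LongCyc
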