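import Pool.Agent.LongCyc.Basic

/-!
# Longest cycle intersections (MP_7b0c7a_co): a configuration realises the root state of its type

Paper proof.  Let `ms = sh rc rd` (shared vertices in the order of `rc`), `md = sh rd rc`,
`s = ms.length`.  Nodes: `f i = ms[i]` for `i < s`, `f s = a`, `f (s+1) = b`.  Cutting the list `rc`
at its elements in `rd` gives interiors `J_0, …, J_s` with
`rc = J_0 ++ [ms_0] ++ J_1 ++ … ++ [ms_{s-1}] ++ J_s`; these are the pieces `0, …, s` of
`root s τ`.  Similarly `rd` is cut at its elements in `rc`; these are the pieces `s+1, …, 2s+1`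
(`f (τ j) = md[j]`).  The last piece `2s+2` has interior `p`.  Suggested general lemma, by
induction on `l` with accumulator `J`: if `List.IsChain G.Adj (f q :: (J ++ l ++ [f q1]))` and
`l.filter P = qs.map f`, and no element of `J` satisfies `P`, then there is a list `Js` of lists with
`Js.length = qs.length + 1`, such that `J ++ l` is a permutation of `Js.flatten ++ qs.map f`, no
element of `Js.flatten` satisfies `P`, and the chain condition holds for the pieces
`chainP q t q1 tl qs` with the interiors `Js` (for example
`∀ i (h : i < Js.length), List.IsChain G.Adj (f (getP (chainP q t q1 tl qs) i).1 :: (Js[i] ++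
[f (getP (chainP q t q1 tl qs) i).2.1]))`).
The tags of the pieces of `C` are `0` or `3`, those of `D` are `1` or `4`, hence `sC`, `sD` are
`(a :: rc).length` and `(b :: rd).length`.
-/

namespace LongCyc

variable {V : Type*}

private theorem chainP_len (u t last tl : ℕ) (qs : List ℕ) :
    (chainP u t last tl qs).length = qs.length + 1 := by
  induction qs generalizing u t with
  | nil => rfl
  | cons v vs ih => simp [chainP, ih]

private theorem chainP_mem (u t last tl : ℕ) (qs : List ℕ) :
    ∀ p ∈ chainP u t last tl qs, (p.1 = u ∨ p.1 ∈ qs) ∧ (p.2.1 = last ∨ p.2.1 ∈ qs) ∧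
      (p.2.2 = t ∨ p.2.2 = tl ∨ p.2.2 = tl + 3) := by
  induction qs generalizing u t with
  | nil =>
    intro p hp
    simp only [chainP, List.mem_singleton] at hp
    subst hp
    simp
  | cons v vs ih =>
    intro p hp
    simp only [chainP, List.mem_cons] at hp
    rcases hp with hp | hp
    · subst hp
      simp
    · obtain ⟨h1, h2, h3⟩ := ih v (tl + 3) p hp
      refine ⟨?_, ?_, ?_⟩
      · rcases h1 with h1 | h1
        · right; rw [h1]; exact List.mem_cons_self
        · right; exact List.mem_cons_of_mem _ h1
      · rcases h2 with h2 | h2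
        · left; exact h2
        · right; exact List.mem_cons_of_mem _ h2
      · rcases h3 with h3 | h3 | h3
        · right; right; exact h3
        · right; left; exact h3
        · right; right; exact h3

private theorem cut {G : SimpleGraph V} {f : ℕ → V} (P : V → Bool) (last tl : ℕ) :
    ∀ (l J : List V) (u t : ℕ) (qs : List ℕ),
      List.IsChain G.Adj (f u :: (J ++ l ++ [f last])) → l.filter P = qs.map f →
      (∀ x ∈ J, P x = false) →
      ∃ Js : List (List V), Js.length = (chainP u t last tl qs).length ∧
        (J ++ l).Perm (Js.flatten ++ qs.map f) ∧ (∀ x ∈ Js.flatten, P x = false) ∧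
        ∀ i < Js.length, List.IsChain G.Adj (f (getP (chainP u t last tl qs) i).1 ::
          (Js.getD i [] ++ [f (getP (chainP u t last tl qs) i).2.1])) := by
  intro l
  induction l with
  | nil =>
    intro J u t qs h1 h2 h3
    have hq : qs = [] := by
      have h4 : qs.map f = [] := h2.symm
      exact List.map_eq_nil_iff.mp h4
    subst hq
    refine ⟨[J], rfl, by simp, by simpa using h3, ?_⟩
    intro i hi
    have hi0 : i = 0 := by simpa using hi
    subst hi0
    simpa [chainP, getP] using h1
  | cons x l ih =>
    intro J u t qs h1 h2 h3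
    by_cases hx : P x = true
    · rw [List.filter_cons_of_pos hx] at h2
      cases qs with
      | nil => simp at h2
      | cons v vs =>
        rw [List.map_cons, List.cons.injEq] at h2
        obtain ⟨h4, h5⟩ := h2
        have h6 : List.IsChain G.Adj (f v :: ([] ++ l ++ [f last])) := by
          have h7 : f u :: (J ++ x :: l ++ [f last]) = (f u :: J) ++ (f v :: ([] ++ l ++ [f last])) := by
            rw [← h4]; simp
          rw [h7] at h1
          exact (List.isChain_append.mp h1).2.1
        have h8 : List.IsChain G.Adj (f u :: (J ++ [f v])) := by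
          have h7 : f u :: (J ++ x :: l ++ [f last]) = (f u :: (J ++ [f v])) ++ (l ++ [f last]) := by
            rw [← h4]; simp
          rw [h7] at h1
          exact (List.isChain_append.mp h1).1
        obtain ⟨Js, a1, a2, a3, a4⟩ := ih [] v (tl + 3) vs h6 h5 (by simp)
        refine ⟨J :: Js, ?_, ?_, ?_, ?_⟩
        · simp [chainP, a1]
        · rw [List.flatten_cons, List.map_cons, h4, List.append_assoc]
          refine List.Perm.append_left J ?_
          have h9 : l.Perm (Js.flatten ++ vs.map f) := by simpa using a2
          exact (List.Perm.cons _ h9).trans List.perm_middle.symm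
        · intro y hy
          rw [List.flatten_cons, List.mem_append] at hy
          rcases hy with hy | hy
          · exact h3 y hy
          · exact a3 y hy
        · intro i hi
          cases i with
          | zero => simpa [chainP, getP] using h8
          | succ n =>
            have h10 := a4 n (by simpa using hi)
            simpa [chainP, getP] using h10
    · have hx2 : P x = false := by simpa using hx
      rw [List.filter_cons_of_neg hx] at h2
      have h4 : List.IsChain G.Adj (f u :: ((J ++ [x]) ++ l ++ [f last])) := by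
        simpa using h1
      have h5 : ∀ y ∈ J ++ [x], P y = false := by
        intro y hy
        rw [List.mem_append, List.mem_singleton] at hy
        rcases hy with hy | hy
        · exact h3 y hy
        · rw [hy]; exact hx2
      obtain ⟨Js, a1, a2, a3, a4⟩ := ih (J ++ [x]) u t qs h4 h2 h5
      exact ⟨Js, a1, by simpa using a2, a3, a4⟩

private theorem sumlen (Js : List (List V)) :
    ∑ e ∈ Finset.range Js.length, ((Js.getD e []).length + 1) = Js.flatten.length + Js.length := by
  induction Js with
  | nil => simp
  | cons J Js ih =>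
    rw [List.length_cons, Finset.sum_range_succ']
    simp only [List.getD_cons_succ, List.getD_cons_zero, List.flatten_cons, List.length_append]
    rw [ih]
    omega

theorem root_rz [DecidableEq V] {G : SimpleGraph V} {L : ℕ} {a b : V} {rc rd p : List V}
    (h : Cfg G L a b rc rd p) :
    ∃ (f : ℕ → V) (I : ℕ → List V),
      Rz G {x | x ∈ rc ∧ x ∈ rd} (sh rc rd).length L
        (root (sh rc rd).length (typ rc rd)) f I := by
  obtain ⟨ndc, ndd, chc, chd, lc, ld, ad, bc, chp, ndp, pc, pd⟩ := h
  have hrc : rc.Nodup := (List.nodup_cons.mp ndc).2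
  have hrd : rd.Nodup := (List.nodup_cons.mp ndd).2
  have ha1 : a ∉ rc := (List.nodup_cons.mp ndc).1
  have hb1 : b ∉ rd := (List.nodup_cons.mp ndd).1
  have ha2 : a ∉ rd := fun hh => ad (List.mem_cons_of_mem _ hh)
  have hab : a ≠ b := fun hh => ad (by rw [hh]; exact List.mem_cons_self)
  have hb2 : b ∉ rc := fun hh => bc (List.mem_cons_of_mem _ hh)
  have memS : ∀ x, x ∈ sh rc rd ↔ x ∈ rc ∧ x ∈ rd := by intro x; simp [sh]
  have memD : ∀ x, x ∈ sh rd rc ↔ x ∈ rd ∧ x ∈ rc := by intro x; simp [sh]
  have ndS : (sh rc rd).Nodup := hrc.filter _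
  have ndn : (sh rc rd ++ [a, b]).Nodup := by
    rw [List.nodup_append]
    refine ⟨ndS, by simp [hab], ?_⟩
    intro x hx y hy hxy
    rw [memS] at hx
    subst hxy
    simp only [List.mem_cons, List.not_mem_nil, or_false] at hy
    rcases hy with hy | hy
    · rw [hy] at hx; exact ha1 hx.1
    · rw [hy] at hx; exact hb1 hx.2
  have hcov : ∃ f : ℕ → V, f = fun i => (sh rc rd ++ [a, b]).getD i b := ⟨_, rfl⟩
  obtain ⟨f, hf⟩ := hcov
  have fget : ∀ i (hi : i < (sh rc rd ++ [a, b]).length), f i = (sh rc rd ++ [a, b])[i] := by
    intro i hi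
    rw [hf]
    exact (List.getElem_eq_getD b).symm
  have flt : ∀ i (hi : i < (sh rc rd).length), f i = (sh rc rd)[i] := by
    intro i hi
    rw [fget i (by simp; omega), List.getElem_append_left hi]
  have fs : f (sh rc rd).length = a := by
    rw [fget _ (by simp), List.getElem_append_right le_rfl]
    simp
  have fs1 : f ((sh rc rd).length + 1) = b := by
    rw [fget _ (by simp), List.getElem_append_right (by omega)]
    simp
  have hmapC : rc.filter (fun x => decide (x ∈ rd)) = (List.range (sh rc rd).length).map f := by
    show sh rc rd = _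
    apply List.ext_getElem
    · simp
    · intro i h1 h2
      simp only [List.getElem_map, List.getElem_range]
      exact (flt i h1).symm
  have hidx : ∀ x ∈ sh rd rc, (sh rc rd).idxOf x < (sh rc rd).length ∧
      f ((sh rc rd).idxOf x) = x := by
    intro x hx
    have h1 : x ∈ sh rc rd := by rw [memS]; rw [memD] at hx; exact ⟨hx.2, hx.1⟩
    have h2 := List.idxOf_lt_length_of_mem h1
    refine ⟨h2, ?_⟩
    rw [flt _ h2]
    exact List.getElem_idxOf h2
  have hmapD : rd.filter (fun x => decide (x ∈ rc)) = (typ rc rd).map f := by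
    show sh rd rc = _
    unfold typ
    rw [List.map_map]
    conv_lhs => rw [← List.map_id (sh rd rc)]
    apply List.map_congr_left
    intro x hx
    exact ((hidx x hx).2).symm
  have htyp : ∀ q ∈ typ rc rd, q < (sh rc rd).length := by
    intro q hq
    unfold typ at hq
    rw [List.mem_map] at hq
    obtain ⟨x, hx, rfl⟩ := hq
    exact (hidx x hx).1
  obtain ⟨Jc, c1, c2, c3, c4⟩ := cut (G := G) (f := f) (fun x => decide (x ∈ rd))
    (sh rc rd).length 0 rc [] (sh rc rd).length 0 (List.range (sh rc rd).length)
    (by rw [fs]; simpa using chc) hmapC (by simp)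
  obtain ⟨Jd, d1, d2, d3, d4⟩ := cut (G := G) (f := f) (fun x => decide (x ∈ rc))
    ((sh rc rd).length + 1) 1 rd [] ((sh rc rd).length + 1) 1 (typ rc rd)
    (by rw [fs1]; simpa using chd) hmapD (by simp)
  rw [List.nil_append] at c2 d2
  have c5 : ∀ x ∈ Jc.flatten, x ∈ rc ∧ x ∉ rd := by
    intro x hx
    refine ⟨c2.symm.subset (List.mem_append_left _ hx), ?_⟩
    simpa using c3 x hx
  have d5 : ∀ x ∈ Jd.flatten, x ∈ rd ∧ x ∉ rc := by
    intro x hx
    refine ⟨d2.symm.subset (List.mem_append_left _ hx), ?_⟩
    simpa using d3 x hx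
  have c6 : Jc.flatten.Nodup := ((c2.nodup_iff.mp hrc).of_append_left)
  have d6 : Jd.flatten.Nodup := ((d2.nodup_iff.mp hrd).of_append_left)
  have hcov2 : ∃ Is : List (List V), Is = Jc ++ Jd ++ [p] := ⟨_, rfl⟩
  obtain ⟨Is, hIs⟩ := hcov2
  have hfl : Is.flatten = Jc.flatten ++ Jd.flatten ++ p := by
    rw [hIs]; simp
  have pel : ∀ x ∈ p, x ∉ rc ∧ x ∉ rd ∧ x ≠ a ∧ x ≠ b := by
    intro x hx
    refine ⟨fun hh => pc x hx (List.mem_cons_of_mem _ hh),
      fun hh => pd x hx (List.mem_cons_of_mem _ hh), ?_, ?_⟩
    · intro hh; exact pc x hx (by rw [hh]; exact List.mem_cons_self)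
    · intro hh; exact pd x hx (by rw [hh]; exact List.mem_cons_self)
  have hel : ∀ x ∈ Is.flatten, ¬ (x ∈ rc ∧ x ∈ rd) ∧ x ≠ a ∧ x ≠ b := by
    intro x hx
    rw [hfl, List.mem_append, List.mem_append] at hx
    rcases hx with (hx | hx) | hx
    · obtain ⟨h1, h2⟩ := c5 x hx
      refine ⟨fun hh => h2 hh.2, fun hh => ha1 (hh ▸ h1), fun hh => hb2 (hh ▸ h1)⟩
    · obtain ⟨h1, h2⟩ := d5 x hx
      refine ⟨fun hh => h2 hh.1, fun hh => ha2 (hh ▸ h1), fun hh => hb1 (hh ▸ h1)⟩
    · obtain ⟨h1, h2, h3, h4⟩ := pel x hx
      exact ⟨fun hh => h1 hh.1, h3, h4⟩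
  have hnd : Is.flatten.Nodup := by
    rw [hfl, List.nodup_append, List.nodup_append]
    refine ⟨⟨c6, d6, ?_⟩, ndp, ?_⟩
    · intro x hx y hy hxy
      subst hxy
      exact (c5 x hx).2 (d5 x hy).1
    · intro x hx y hy hxy
      subst hxy
      rw [List.mem_append] at hx
      obtain ⟨h1, h2, -, -⟩ := pel x hy
      rcases hx with hx | hx
      · exact h1 (c5 x hx).1
      · exact h2 (d5 x hx).1
  rw [List.nodup_flatten] at hnd
  obtain ⟨nd1, nd2⟩ := hnd
  have hps : (root (sh rc rd).length (typ rc rd)).ps =
      chainP (sh rc rd).length 0 (sh rc rd).length 0 (List.range (sh rc rd).length) ++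
      chainP ((sh rc rd).length + 1) 1 ((sh rc rd).length + 1) 1 (typ rc rd) ++
      [((sh rc rd).length, (sh rc rd).length + 1, 2)] := rfl
  have hlen : Is.length = (root (sh rc rd).length (typ rc rd)).ps.length := by
    rw [hps, hIs]
    simp only [List.length_append, c1, d1, List.length_singleton]
  have hpl : (root (sh rc rd).length (typ rc rd)).ps.length = Jc.length + (Jd.length + 1) := by
    rw [← hlen, hIs]
    simp only [List.length_append, List.length_singleton]
    omega
  have hnv : (root (sh rc rd).length (typ rc rd)).nv = (sh rc rd).length + 2 := rfl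
  have hcov3 : ∃ I : ℕ → List V, I = fun e => Is.getD e [] := ⟨_, rfl⟩
  obtain ⟨I, hI⟩ := hcov3
  have Iget : ∀ e (he : e < Is.length), I e = Is[e] := by
    intro e he
    rw [hI]
    exact (List.getElem_eq_getD []).symm
  have Imem : ∀ e, e < Is.length → I e ∈ Is := by
    intro e he
    rw [Iget e he]
    exact List.getElem_mem he
  have Ifl : ∀ e, e < Is.length → ∀ x ∈ I e, x ∈ Is.flatten := by
    intro e he x hx
    exact List.mem_flatten.mpr ⟨I e, Imem e he, hx⟩
  -- the three kinds of pieces
  have IC : ∀ e, e < Jc.length → I e = Jc.getD e [] := by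
    intro e he
    rw [Iget e (by rw [hlen, hpl]; omega)]
    simp only [hIs, List.append_assoc]
    rw [List.getElem_append_left he]
    exact List.getElem_eq_getD []
  have ID : ∀ e, e < Jd.length → I (Jc.length + e) = Jd.getD e [] := by
    intro e he
    rw [Iget _ (by rw [hlen, hpl]; omega)]
    simp only [hIs, List.append_assoc]
    rw [List.getElem_append_right (by omega), List.getElem_append_left (by omega)]
    simp only [Nat.add_sub_cancel_left]
    exact List.getElem_eq_getD []
  have IP : I (Jc.length + Jd.length) = p := by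
    rw [Iget _ (by rw [hlen, hpl]; omega)]
    simp only [hIs, List.append_assoc]
    rw [List.getElem_append_right (by omega), List.getElem_append_right (by omega)]
    simp
  have PC : ∀ e, e < Jc.length → (root (sh rc rd).length (typ rc rd)).pc e =
      getP (chainP (sh rc rd).length 0 (sh rc rd).length 0 (List.range (sh rc rd).length)) e := by
    intro e he
    show getP (root (sh rc rd).length (typ rc rd)).ps e = _
    rw [hps, List.append_assoc, getP_append_left _ _ _ (by rw [← c1]; exact he)]
  have PD : ∀ e, e < Jd.length → (root (sh rc rd).length (typ rc rd)).pc (Jc.length + e) =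
      getP (chainP ((sh rc rd).length + 1) 1 ((sh rc rd).length + 1) 1 (typ rc rd)) e := by
    intro e he
    show getP (root (sh rc rd).length (typ rc rd)).ps _ = _
    rw [hps, List.append_assoc, getP_append_right _ _ _ (by rw [← c1]; omega), ← c1,
      Nat.add_sub_cancel_left, getP_append_left _ _ _ (by rw [← d1]; exact he)]
  have PP : (root (sh rc rd).length (typ rc rd)).pc (Jc.length + Jd.length) =
      ((sh rc rd).length, (sh rc rd).length + 1, 2) := by
    show getP (root (sh rc rd).length (typ rc rd)).ps _ = _
    rw [hps, List.append_assoc, getP_append_right _ _ _ (by rw [← c1]; omega), ← c1,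
      Nat.add_sub_cancel_left, getP_append_right _ _ _ (by rw [← d1]), ← d1, Nat.sub_self]
    rfl
  have QC : ∀ e, e < Jc.length →
      ((root (sh rc rd).length (typ rc rd)).pc e).1 < (sh rc rd).length + 1 ∧
      ((root (sh rc rd).length (typ rc rd)).pc e).2.1 < (sh rc rd).length + 1 ∧
      (((root (sh rc rd).length (typ rc rd)).pc e).2.2 = 0 ∨
        ((root (sh rc rd).length (typ rc rd)).pc e).2.2 = 3) := by
    intro e he
    rw [PC e he, getP_lt _ _ (by rw [← c1]; exact he)]
    obtain ⟨h1, h2, h3⟩ := chainP_mem _ _ _ _ _ _ (List.getElem_mem (by rw [← c1]; exact he) :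
      (chainP (sh rc rd).length 0 (sh rc rd).length 0 (List.range (sh rc rd).length))[e]'(by
        rw [← c1]; exact he) ∈ _)
    refine ⟨?_, ?_, ?_⟩
    · rcases h1 with h1 | h1
      · rw [h1]; omega
      · have := List.mem_range.mp h1; omega
    · rcases h2 with h2 | h2
      · rw [h2]; omega
      · have := List.mem_range.mp h2; omega
    · rcases h3 with h3 | h3 | h3
      · left; exact h3
      · left; exact h3
      · right; exact h3
  have QD : ∀ e, e < Jd.length →
      ((root (sh rc rd).length (typ rc rd)).pc (Jc.length + e)).1 < (sh rc rd).length + 2 ∧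
      ((root (sh rc rd).length (typ rc rd)).pc (Jc.length + e)).2.1 < (sh rc rd).length + 2 ∧
      (((root (sh rc rd).length (typ rc rd)).pc (Jc.length + e)).2.2 = 1 ∨
        ((root (sh rc rd).length (typ rc rd)).pc (Jc.length + e)).2.2 = 4) := by
    intro e he
    rw [PD e he, getP_lt _ _ (by rw [← d1]; exact he)]
    obtain ⟨h1, h2, h3⟩ := chainP_mem _ _ _ _ _ _ (List.getElem_mem (by rw [← d1]; exact he) :
      (chainP ((sh rc rd).length + 1) 1 ((sh rc rd).length + 1) 1 (typ rc rd))[e]'(by
        rw [← d1]; exact he) ∈ _)
    refine ⟨?_, ?_, ?_⟩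
    · rcases h1 with h1 | h1
      · rw [h1]; omega
      · have := htyp _ h1; omega
    · rcases h2 with h2 | h2
      · rw [h2]; omega
      · have := htyp _ h2; omega
    · rcases h3 with h3 | h3 | h3
      · left; exact h3
      · left; exact h3
      · right; exact h3
  have split : ∀ e, e < (root (sh rc rd).length (typ rc rd)).ps.length →
      e < Jc.length ∨ (∃ e', e' < Jd.length ∧ e = Jc.length + e') ∨ e = Jc.length + Jd.length := by
    intro e he
    rw [hpl] at he
    by_cases h1 : e < Jc.length
    · left; exact h1
    · by_cases h2 : e < Jc.length + Jd.length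
      · right; left; exact ⟨e - Jc.length, by omega, by omega⟩
      · right; right; omega
  refine ⟨f, I, ?_⟩
  constructor
  · -- lt
    intro e he
    rw [hnv]
    rcases split e he with h1 | ⟨e', h1, rfl⟩ | rfl
    · have := QC e h1
      exact ⟨by omega, by omega⟩
    · exact ⟨(QD e' h1).1, (QD e' h1).2.1⟩
    · rw [PP]
      exact ⟨by simp, by simp⟩
  · -- ch
    intro e he
    rcases split e he with h1 | ⟨e', h1, rfl⟩ | rfl
    · rw [PC e h1, IC e h1]
      exact c4 e h1
    · rw [PD e' h1, ID e' h1]
      exact d4 e' h1
    · rw [PP, IP]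
      simp only [fs, fs1]
      exact chp
  · -- inj
    intro i hi j hj hij
    rw [hnv] at hi hj
    rw [fget i (by simpa using hi), fget j (by simpa using hj)] at hij
    exact (ndn.getElem_inj_iff).mp hij
  · -- nd
    intro e he
    exact nd1 _ (Imem e (by rw [hlen]; exact he))
  · -- dj
    intro e he e' he' hne x hx hx'
    rw [← hlen] at he he'
    rw [Iget e he] at hx
    rw [Iget e' he'] at hx'
    rw [List.pairwise_iff_getElem] at nd2
    rcases lt_or_gt_of_ne hne with h1 | h1
    · exact nd2 e e' he he' h1 hx hx'
    · exact nd2 e' e he' he h1 hx' hx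
  · -- fI
    intro i hi e he hx
    rw [hnv] at hi
    have h1 := hel _ (Ifl e (by rw [hlen]; exact he) _ hx)
    by_cases h2 : i < (sh rc rd).length
    · rw [flt i h2] at h1
      have h3 : (sh rc rd)[i] ∈ sh rc rd := List.getElem_mem h2
      rw [memS] at h3
      exact h1.1 h3
    · by_cases h3 : i = (sh rc rd).length
      · subst h3; exact h1.2.1 fs
      · have h4 : i = (sh rc rd).length + 1 := by omega
        subst h4; exact h1.2.2 fs1
  · -- emp
    intro e he hE
    rcases split e he with h1 | ⟨e', h1, rfl⟩ | rfl
    · rcases (QC e h1).2.2 with h2 | h2 <;> · rw [h2] at hE; simp [isE] at hE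
    · rcases (QD e' h1).2.2 with h2 | h2 <;> · rw [h2] at hE; simp [isE] at hE
    · rw [PP] at hE; simp [isE] at hE
  · -- sC
    rw [hpl, Finset.sum_range_add, Finset.sum_range_succ]
    have e1 : ∑ e ∈ Finset.range Jc.length,
        (if isC ((root (sh rc rd).length (typ rc rd)).pc e).2.2 = true then (I e).length + 1
          else 0) = Jc.flatten.length + Jc.length := by
      rw [← sumlen]
      apply Finset.sum_congr rfl
      intro e he
      rw [Finset.mem_range] at he
      rw [IC e he]
      rcases (QC e he).2.2 with h2 | h2 <;> · rw [h2]; simp [isC]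
    have e2 : ∑ e ∈ Finset.range Jd.length,
        (if isC ((root (sh rc rd).length (typ rc rd)).pc (Jc.length + e)).2.2 = true then
          (I (Jc.length + e)).length + 1 else 0) = 0 := by
      apply Finset.sum_eq_zero
      intro e he
      rw [Finset.mem_range] at he
      rcases (QD e he).2.2 with h2 | h2 <;> · rw [h2]; simp [isC]
    rw [e1, e2, PP]
    have e3 := c2.length_eq
    rw [List.length_append, List.length_map, List.length_range] at e3
    have e4 := c1
    rw [chainP_len, List.length_range] at e4
    rw [List.length_cons] at lc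
    have e5 : isC (((sh rc rd).length, (sh rc rd).length + 1, 2) : ℕ × ℕ × ℕ).2.2 = false := rfl
    rw [e5, if_neg (by simp)]
    omega
  · -- sD
    rw [hpl, Finset.sum_range_add, Finset.sum_range_succ]
    have e1 : ∑ e ∈ Finset.range Jc.length,
        (if isD ((root (sh rc rd).length (typ rc rd)).pc e).2.2 = true then (I e).length + 1
          else 0) = 0 := by
      apply Finset.sum_eq_zero
      intro e he
      rw [Finset.mem_range] at he
      rcases (QC e he).2.2 with h2 | h2 <;> · rw [h2]; simp [isD]
    have e2 : ∑ e ∈ Finset.range Jd.length,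
        (if isD ((root (sh rc rd).length (typ rc rd)).pc (Jc.length + e)).2.2 = true then
          (I (Jc.length + e)).length + 1 else 0) = Jd.flatten.length + Jd.length := by
      rw [← sumlen]
      apply Finset.sum_congr rfl
      intro e he
      rw [Finset.mem_range] at he
      rw [ID e he]
      rcases (QD e he).2.2 with h2 | h2 <;> · rw [h2]; simp [isD]
    rw [e1, e2, PP]
    have e3 := d2.length_eq
    rw [List.length_append, List.length_map] at e3
    have e4 := d1
    rw [chainP_len] at e4
    rw [List.length_cons] at ld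
    have e5 : isD (((sh rc rd).length, (sh rc rd).length + 1, 2) : ℕ × ℕ × ℕ).2.2 = false := rfl
    rw [e5, if_neg (by simp)]
    omega
  · -- wN
    intro i hi hsi hW
    rw [hnv] at hi
    by_cases h3 : i = (sh rc rd).length
    · subst h3; rw [fs] at hW; exact ha1 hW.1
    · have h4 : i = (sh rc rd).length + 1 := by omega
      subst h4; rw [fs1] at hW; exact hb1 hW.2
  · -- wW
    intro i hi hsi
    rw [flt i hsi]
    have h3 : (sh rc rd)[i] ∈ sh rc rd := List.getElem_mem hsi
    rw [memS] at h3
    exact h3
  · -- wI
    intro e he x hx hW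
    exact (hel x (Ifl e (by rw [hlen]; exact he) x hx)).1 hW
  · -- sn
    rw [hnv]; omega

end LongCyc
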