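import Pool.Agent.LongCyc.Basic

/-!
# Longest cycle intersections (MP_7b0c7a_co): symmetries of configurations
-/

namespace LongCyc

variable {V : Type*}

theorem chain_rev (G : SimpleGraph V) (a : V) (l : List V) (b : V)
    (h : List.IsChain G.Adj (a :: (l ++ [b]))) : List.IsChain G.Adj (b :: (l.reverse ++ [a])) := by
  have e : b :: (l.reverse ++ [a]) = (a :: (l ++ [b])).reverse := by simp
  rw [e, List.isChain_reverse]
  exact h.imp fun x y hxy => hxy.symm

theorem cfg_revC {G : SimpleGraph V} {L : ℕ} {a b : V} {rc rd p : List V}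
    (h : Cfg G L a b rc rd p) : Cfg G L a b rc.reverse rd p where
  ndc := by
    have := h.ndc
    simp only [List.nodup_cons, List.mem_reverse, List.nodup_reverse] at *
    exact this
  ndd := h.ndd
  chc := chain_rev G a rc a h.chc
  chd := h.chd
  lc := by have := h.lc; simpa using this
  ld := h.ld
  ad := h.ad
  bc := by have := h.bc; simpa using this
  chp := h.chp
  ndp := h.ndp
  pc := by intro z hz; have := h.pc z hz; simpa using this
  pd := h.pd

theorem cfg_revD {G : SimpleGraph V} {L : ℕ} {a b : V} {rc rd p : List V}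
    (h : Cfg G L a b rc rd p) : Cfg G L a b rc rd.reverse p where
  ndc := h.ndc
  ndd := by
    have := h.ndd
    simp only [List.nodup_cons, List.mem_reverse, List.nodup_reverse] at *
    exact this
  chc := h.chc
  chd := chain_rev G b rd b h.chd
  lc := h.lc
  ld := by have := h.ld; simpa using this
  ad := by have := h.ad; simpa using this
  bc := h.bc
  chp := h.chp
  ndp := h.ndp
  pc := h.pc
  pd := by intro z hz; have := h.pd z hz; simpa using this

theorem cfg_swap {G : SimpleGraph V} {L : ℕ} {a b : V} {rc rd p : List V}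
    (h : Cfg G L a b rc rd p) : Cfg G L b a rd rc p.reverse where
  ndc := h.ndd
  ndd := h.ndc
  chc := h.chd
  chd := h.chc
  lc := h.ld
  ld := h.lc
  ad := h.bc
  bc := h.ad
  chp := chain_rev G a p b h.chp
  ndp := by simpa using h.ndp
  pc := by intro z hz; exact h.pd z (by simpa using hz)
  pd := by intro z hz; exact h.pc z (by simpa using hz)

theorem mem_sh [DecidableEq V] (rc rd : List V) (x : V) : x ∈ sh rc rd ↔ x ∈ rc ∧ x ∈ rd := by
  simp [sh]

theorem sh_nodup [DecidableEq V] {rc : List V} (rd : List V) (hc : rc.Nodup) :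
    (sh rc rd).Nodup := hc.filter _

theorem sh_rev_left [DecidableEq V] (rc rd : List V) : sh rc.reverse rd = (sh rc rd).reverse := by
  simp [sh, List.filter_reverse]

theorem sh_rev_right [DecidableEq V] (rc rd : List V) : sh rc rd.reverse = sh rc rd := by
  simp [sh]

theorem sh_len_swap [DecidableEq V] {rc rd : List V} (hc : rc.Nodup) (hd : rd.Nodup) :
    (sh rd rc).length = (sh rc rd).length := by
  refine List.Perm.length_eq ?_
  rw [List.perm_ext_iff_of_nodup (sh_nodup rc hd) (sh_nodup rd hc)]
  intro x
  rw [mem_sh, mem_sh, and_comm]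

theorem sh_len_revC [DecidableEq V] {rc rd : List V} :
    (sh rc.reverse rd).length = (sh rc rd).length := by
  rw [sh_rev_left, List.length_reverse]

theorem sh_len_revD [DecidableEq V] {rc rd : List V} :
    (sh rc rd.reverse).length = (sh rc rd).length := by
  rw [sh_rev_right]

theorem idxOf_rev [DecidableEq V] (l : List V) (hl : l.Nodup) (x : V) (hx : x ∈ l) :
    l.reverse.idxOf x = l.length - 1 - l.idxOf x := by
  have hi : l.idxOf x < l.length := List.idxOf_lt_length_iff.2 hx
  have h1 : l.length - 1 - l.idxOf x < l.reverse.length := by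
    rw [List.length_reverse]; omega
  have h2 : l.reverse[l.length - 1 - l.idxOf x] = x := by
    rw [List.getElem_reverse]
    have h3 : l.length - 1 - (l.length - 1 - l.idxOf x) = l.idxOf x := by omega
    simp only [h3]
    exact List.getElem_idxOf hi
  have h4 := List.Nodup.idxOf_getElem (List.nodup_reverse.2 hl) _ h1
  rw [h2] at h4
  exact h4

theorem typ_revC [DecidableEq V] {rc rd : List V} (hc : rc.Nodup) (hd : rd.Nodup) :
    typ rc.reverse rd = rC (sh rc rd).length (typ rc rd) := by
  unfold typ rC
  rw [sh_rev_right, sh_rev_left, List.map_map]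
  refine List.map_congr_left fun x hx => ?_
  have h1 : x ∈ sh rc rd := by
    rw [mem_sh] at hx ⊢
    exact hx.symm
  exact idxOf_rev _ (sh_nodup rd hc) x h1

theorem typ_revD [DecidableEq V] {rc rd : List V} (hc : rc.Nodup) (hd : rd.Nodup) :
    typ rc rd.reverse = (typ rc rd).reverse := by
  unfold typ
  rw [sh_rev_right, sh_rev_left, List.map_reverse]

theorem pos_eq (x : ℕ) (l : List ℕ) : pos x l = l.idxOf x := by
  induction l with
  | nil => rfl
  | cons y l ih =>
    by_cases h : y = x
    · subst h; simp [pos]
    · rw [List.idxOf_cons_ne _ h]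
      simp [pos, h, ih]

theorem idxOf_map_idx [DecidableEq V] (l m : List V) (hm : m.Nodup) (x : V) (hx : x ∈ l)
    (hlm : ∀ y ∈ l, y ∈ m) :
    (l.map (fun y => m.idxOf y)).idxOf (m.idxOf x) = l.idxOf x := by
  induction l with
  | nil => simp at hx
  | cons y l ih =>
    by_cases h : y = x
    · subst h; simp
    · have h2 : m.idxOf y ≠ m.idxOf x := by
        intro h3
        exact h ((List.idxOf_inj (hlm y (by simp))).1 h3)
      rw [List.map_cons, List.idxOf_cons_ne _ h2, List.idxOf_cons_ne _ h]
      have hx2 : x ∈ l := by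
        rcases List.mem_cons.1 hx with h3 | h3
        · exact absurd h3.symm h
        · exact h3
      rw [ih hx2 fun z hz => hlm z (by simp [hz])]

theorem typ_swap [DecidableEq V] {rc rd : List V} (hc : rc.Nodup) (hd : rd.Nodup) :
    typ rd rc = sw (sh rc rd).length (typ rc rd) := by
  have hn := sh_nodup rd hc
  apply List.ext_getElem
  · simp [typ, sw]
  · intro i h1 h2
    have hi : i < (sh rc rd).length := by simpa [typ] using h1
    have hx : (sh rc rd)[i] ∈ sh rd rc := by
      have := List.getElem_mem hi
      rw [mem_sh] at this ⊢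
      exact this.symm
    have h3 := idxOf_map_idx (sh rd rc) (sh rc rd) hn ((sh rc rd)[i]) hx
      (fun y hy => by rw [mem_sh] at hy ⊢; exact hy.symm)
    rw [List.Nodup.idxOf_getElem hn i hi] at h3
    simp only [typ, sw, List.getElem_map, List.getElem_range, pos_eq]
    exact h3.symm

theorem typ_perm [DecidableEq V] {rc rd : List V} (hc : rc.Nodup) (hd : rd.Nodup) :
    (typ rc rd).Perm (List.range (sh rc rd).length) := by
  have hn := sh_nodup rd hc
  have hn2 := sh_nodup rc hd
  have h1 : (typ rc rd).Nodup := by
    unfold typ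
    refine List.Nodup.map_on ?_ hn2
    intro x hx y hy hxy
    have hx2 : x ∈ sh rc rd := by rw [mem_sh] at hx ⊢; exact hx.symm
    exact (List.idxOf_inj hx2).1 hxy
  rw [List.perm_ext_iff_of_nodup h1 List.nodup_range]
  intro i
  rw [List.mem_range]
  constructor
  · intro h
    unfold typ at h
    obtain ⟨x, hx, rfl⟩ := List.mem_map.1 h
    have hx2 : x ∈ sh rc rd := by rw [mem_sh] at hx ⊢; exact hx.symm
    exact List.idxOf_lt_length_iff.2 hx2
  · intro hi
    unfold typ
    refine List.mem_map.2 ⟨(sh rc rd)[i], ?_, List.Nodup.idxOf_getElem hn i hi⟩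
    have := List.getElem_mem hi
    rw [mem_sh] at this ⊢
    exact this.symm

end LongCyc
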