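import Pool.Agent.LongCyc.Run
import Pool.Agent.LongCyc.RootR
import Pool.Agent.LongCyc.Sym
import Pool.Agent.LongCyc.CertS
import Pool.Agent.LongCyc.Cert6a
import Pool.Agent.LongCyc.Cert6b
import Pool.Agent.LongCyc.Cert7a
import Pool.Agent.LongCyc.Cert7b
import Pool.Agent.LongCyc.Cert7c
import Pool.Agent.LongCyc.Cert7d
import Pool.Agent.LongCyc.Cert7e
import Pool.Agent.LongCyc.Cert7f
import Pool.Agent.LongCyc.Cert7g
import Pool.Agent.LongCyc.Cert7h
import Pool.Agent.LongCyc.Cert7i

/-!
# Longest cycle intersections (MP_7b0c7a_co): no configuration with 1 to 7 shared vertices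
-/

set_option maxRecDepth 100000

namespace LongCyc

/-- the minimal order types -/
def minTypes (s : ℕ) : List (List ℕ) := ((List.range s).permutations').filter (isMin s)

theorem min1 : minTypes 1 = taus_1_a := by decide +kernel
theorem min2 : minTypes 2 = taus_2_a := by decide +kernel
theorem min3 : minTypes 3 = taus_3_a := by decide +kernel
theorem min4 : minTypes 4 = taus_4_a := by decide +kernel
theorem min5 : minTypes 5 = taus_5_a := by decide +kernel
theorem min6 : minTypes 6 = taus_6_a ++ taus_6_b := by decide +kernel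
theorem min7 : minTypes 7 = taus_7_a ++ taus_7_b ++ taus_7_c ++ taus_7_d ++ taus_7_e ++
    taus_7_f ++ taus_7_g ++ taus_7_h ++ taus_7_i := by decide +kernel

theorem min_ok (s : ℕ) (h1 : 1 ≤ s) (h7 : s ≤ 7) (τ : List ℕ) (hp : τ.Perm (List.range s))
    (hm : isMin s τ = true) :
    ∃ (its : List Item) (st : List St), run s its st = true ∧ root s τ ∈ st := by
  have hmem : τ ∈ minTypes s := by
    unfold minTypes
    rw [List.mem_filter]
    exact ⟨List.mem_permutations'.mpr hp, hm⟩
  interval_cases s
  · rw [min1] at hmem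
    exact ⟨_, _, run_1_a, List.mem_map_of_mem hmem⟩
  · rw [min2] at hmem
    exact ⟨_, _, run_2_a, List.mem_map_of_mem hmem⟩
  · rw [min3] at hmem
    exact ⟨_, _, run_3_a, List.mem_map_of_mem hmem⟩
  · rw [min4] at hmem
    exact ⟨_, _, run_4_a, List.mem_map_of_mem hmem⟩
  · rw [min5] at hmem
    exact ⟨_, _, run_5_a, List.mem_map_of_mem hmem⟩
  · rw [min6] at hmem
    simp only [List.mem_append] at hmem
    rcases hmem with hmem | hmem
    · exact ⟨_, _, run_6_a, List.mem_map_of_mem hmem⟩
    · exact ⟨_, _, run_6_b, List.mem_map_of_mem hmem⟩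
  · rw [min7] at hmem
    simp only [List.mem_append] at hmem
    rcases hmem with (((((((hmem | hmem) | hmem) | hmem) | hmem) | hmem) | hmem) | hmem) | hmem
    · exact ⟨_, _, run_7_a, List.mem_map_of_mem hmem⟩
    · exact ⟨_, _, run_7_b, List.mem_map_of_mem hmem⟩
    · exact ⟨_, _, run_7_c, List.mem_map_of_mem hmem⟩
    · exact ⟨_, _, run_7_d, List.mem_map_of_mem hmem⟩
    · exact ⟨_, _, run_7_e, List.mem_map_of_mem hmem⟩
    · exact ⟨_, _, run_7_f, List.mem_map_of_mem hmem⟩
    · exact ⟨_, _, run_7_g, List.mem_map_of_mem hmem⟩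
    · exact ⟨_, _, run_7_h, List.mem_map_of_mem hmem⟩
    · exact ⟨_, _, run_7_i, List.mem_map_of_mem hmem⟩

variable {V : Type*}

private theorem red_w1 (rc rd : List V) :
    {x | x ∈ rc.reverse ∧ x ∈ rd} = {x | x ∈ rc ∧ x ∈ rd} := by
  ext x; simp

private theorem red_w2 (rc rd : List V) :
    {x | x ∈ rc ∧ x ∈ rd.reverse} = {x | x ∈ rc ∧ x ∈ rd} := by
  ext x; simp

private theorem red_w3 (rc rd : List V) :
    {x | x ∈ rd ∧ x ∈ rc} = {x | x ∈ rc ∧ x ∈ rd} := by
  ext x; simp [and_comm]

theorem no_cfg [DecidableEq V] (G : SimpleGraph V) (L : ℕ) (hb : Bd G L) (h3 : 3 ≤ L)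
    (n : ℕ) : ∀ (a b : V) (rc rd p : List V), code (typ rc rd) ≤ n → Cfg G L a b rc rd p →
    (G.induce {x | x ∈ rc ∧ x ∈ rd}ᶜ).Preconnected → 1 ≤ (sh rc rd).length →
    (sh rc rd).length ≤ 7 → False := by
  induction n with
  | zero =>
    intro a b rc rd p hn h hW h1 h7
    have hc : rc.Nodup := (List.nodup_cons.mp h.ndc).2
    have hd : rd.Nodup := (List.nodup_cons.mp h.ndd).2
    obtain ⟨its, st, hr, hmem⟩ := min_ok _ h1 h7 _ (typ_perm hc hd) (by
      unfold isMin
      rw [List.all_eq_true]
      intro σ _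
      have : code (typ rc rd) = 0 := by omega
      rw [this]
      simp)
    obtain ⟨f, I, hR⟩ := root_rz h
    exact run_sound hW hb h3 its st hr _ hmem f I hR
  | succ n ih =>
    intro a b rc rd p hn h hW h1 h7
    have hc : rc.Nodup := (List.nodup_cons.mp h.ndc).2
    have hd : rd.Nodup := (List.nodup_cons.mp h.ndd).2
    by_cases hm : isMin (sh rc rd).length (typ rc rd) = true
    · obtain ⟨its, st, hr, hmem⟩ := min_ok _ h1 h7 _ (typ_perm hc hd) hm
      obtain ⟨f, I, hR⟩ := root_rz h
      exact run_sound hW hb h3 its st hr _ hmem f I hR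
    · have hex : ∃ σ ∈ imgs (sh rc rd).length (typ rc rd), code σ < code (typ rc rd) := by
        by_contra hcon
        push Not at hcon
        apply hm
        unfold isMin
        rw [List.all_eq_true]
        intro σ hσ
        have := hcon σ hσ
        simpa using this
      obtain ⟨σ, hσ, hlt⟩ := hex
      have hlt' : code σ ≤ n := by omega
      have hsw : (sh rd rc).length = (sh rc rd).length := sh_len_swap hc hd
      have hrc : rc.reverse.Nodup := List.nodup_reverse.mpr hc
      have hrd : rd.reverse.Nodup := List.nodup_reverse.mpr hd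
      unfold imgs at hσ
      simp only [List.mem_cons, List.not_mem_nil, or_false] at hσ
      rcases hσ with rfl | rfl | rfl | rfl | rfl | rfl | rfl
      · refine ih a b rc.reverse rd p ?_ (cfg_revC h) ?_ ?_ ?_
        · rw [typ_revC hc hd]; exact hlt'
        · rw [red_w1]; exact hW
        · rw [sh_len_revC]; exact h1
        · rw [sh_len_revC]; exact h7
      · refine ih a b rc rd.reverse p ?_ (cfg_revD h) ?_ ?_ ?_
        · rw [typ_revD hc hd]; exact hlt'
        · rw [red_w2]; exact hW
        · rw [sh_len_revD]; exact h1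
        · rw [sh_len_revD]; exact h7
      · refine ih a b rc.reverse rd.reverse p ?_ (cfg_revC (cfg_revD h)) ?_ ?_ ?_
        · rw [typ_revC hc hrd, typ_revD hc hd, sh_len_revD]; exact hlt'
        · rw [red_w1, red_w2]; exact hW
        · rw [sh_len_revC, sh_len_revD]; exact h1
        · rw [sh_len_revC, sh_len_revD]; exact h7
      · refine ih b a rd rc p.reverse ?_ (cfg_swap h) ?_ ?_ ?_
        · rw [typ_swap hc hd]; exact hlt'
        · rw [red_w3]; exact hW
        · rw [hsw]; exact h1
        · rw [hsw]; exact h7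
      · refine ih b a rd.reverse rc p.reverse ?_ (cfg_revC (cfg_swap h)) ?_ ?_ ?_
        · rw [typ_revC hd hc, typ_swap hc hd, hsw]; exact hlt'
        · rw [red_w1, red_w3]; exact hW
        · rw [sh_len_revC, hsw]; exact h1
        · rw [sh_len_revC, hsw]; exact h7
      · refine ih b a rd rc.reverse p.reverse ?_ (cfg_revD (cfg_swap h)) ?_ ?_ ?_
        · rw [typ_revD hd hc, typ_swap hc hd]; exact hlt'
        · rw [red_w2, red_w3]; exact hW
        · rw [sh_len_revD, hsw]; exact h1
        · rw [sh_len_revD, hsw]; exact h7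
      · refine ih b a rd.reverse rc.reverse p.reverse ?_ (cfg_revC (cfg_revD (cfg_swap h))) ?_ ?_ ?_
        · rw [typ_revC hd hrc, typ_revD hd hc, typ_swap hc hd, sh_len_revD, hsw]; exact hlt'
        · rw [red_w1, red_w2, red_w3]; exact hW
        · rw [sh_len_revC, sh_len_revD, hsw]; exact h1
        · rw [sh_len_revC, sh_len_revD, hsw]; exact h7

end LongCyc
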