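import Pool.Agent.LongCyc.Kids
import Pool.Agent.LongCyc.Lp

/-!
# Longest cycle intersections (MP_7b0c7a_co): a successful run excludes all states of the stack

Paper proof.  Induction on the list of items, generalising the stack.
-/

namespace LongCyc

variable {V : Type*}

theorem run_sound {G : SimpleGraph V} {W : Set V} {s L : ℕ}
    (hW : (G.induce Wᶜ).Preconnected) (hb : Bd G L) (h3 : 3 ≤ L) (its : List Item)
    (st : List St) (hr : run s its st = true) :
    ∀ S ∈ st, ∀ (f : ℕ → V) (I : ℕ → List V), ¬ Rz G W s L S f I := by
  induction its generalizing st with
  | nil =>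
    cases st with
    | nil => intro S hS; exact absurd hS (by simp)
    | cons S rest => simp [run] at hr
  | cons it its ih =>
    cases st with
    | nil => intro S hS; exact absurd hS (by simp)
    | cons S rest =>
      cases it with
      | lp a cs =>
        rw [run, Bool.and_eq_true] at hr
        obtain ⟨h1, h2⟩ := hr
        intro S' hS' f I hz
        rcases List.mem_cons.1 hS' with rfl | hS'
        · exact lp_sound hz hb h3 h1
        · exact ih rest h2 S' hS' f I hz
      | br e =>
        rw [run, Bool.and_eq_true, Bool.and_eq_true] at hr
        obtain ⟨⟨h1, h2⟩, h4⟩ := hr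
        have h1' : e < S.ps.length := Nat.le_of_ble_eq_true h1
        intro S' hS' f I hz
        rcases List.mem_cons.1 hS' with rfl | hS'
        · obtain ⟨S'', hS'', f', I', hz'⟩ := kids_sound hW hz h1' h2
          exact ih _ h4 S'' (List.mem_append_left _ hS'') f' I' hz'
        · exact ih _ h4 S' (List.mem_append_right _ hS') f I hz

end LongCyc
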