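import Pool.Agent.LongCyc.Basic

/-!
# Longest cycle intersections (MP_7b0c7a_co): subdividing a piece

Paper proof.  All conditions are checked pointwise: piece `e` keeps its index and gets the interior
`I1`, the new piece has index `S.ps.length` and interior `I2`, the new node `S.nv` is `x`.
Use `split_len`, `split_nv`, `split_pc_self`, `split_pc_new`, `split_pc_ne`, `isC_norm`, `isD_norm`,
`isE_norm` of `Basic.lean`.
-/

namespace LongCyc

variable {V : Type*}

private theorem sum_split (n e : ℕ) (he : e < n) (g g' : ℕ → ℕ)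
    (h1 : ∀ i < n, i ≠ e → g' i = g i) (h2 : g' e + g' n = g e) :
    ∑ i ∈ Finset.range (n + 1), g' i = ∑ i ∈ Finset.range n, g i := by
  have hm : e ∈ Finset.range n := Finset.mem_range.2 he
  rw [Finset.sum_range_succ, ← Finset.add_sum_erase _ g' hm, ← Finset.add_sum_erase _ g hm, ← h2]
  have h3 : ∑ i ∈ (Finset.range n).erase e, g' i = ∑ i ∈ (Finset.range n).erase e, g i := by
    refine Finset.sum_congr rfl fun i hi => ?_
    have h4 := Finset.mem_erase.1 hi
    exact h1 i (Finset.mem_range.1 h4.2) h4.1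
  rw [h3]
  ring

theorem split_rz {G : SimpleGraph V} {W : Set V} {s L : ℕ} {S : St} {f : ℕ → V}
    {I : ℕ → List V} (h : Rz G W s L S f I) {e : ℕ} (he : e < S.ps.length)
    (hE : isE (S.pc e).2.2 = false) {I1 I2 : List V} {x : V} (hI : I e = I1 ++ x :: I2) :
    Rz G W s L (S.split e) (Function.update f S.nv x)
      (Function.update (Function.update I e I1) S.ps.length I2) := by
  have hl := split_len S e
  have hv := split_nv S e
  have p1 := split_pc_self S e he
  have p2 := split_pc_new S e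
  have p3 := fun e' h1 h2 => split_pc_ne S e e' h1 h2
  have hne : e ≠ S.ps.length := he.ne
  have f1 : Function.update f S.nv x S.nv = x := Function.update_self _ _ _
  have f2 : ∀ i < S.nv, Function.update f S.nv x i = f i := fun i hi =>
    Function.update_of_ne hi.ne _ _
  have i1 : Function.update (Function.update I e I1) S.ps.length I2 e = I1 := by
    rw [Function.update_of_ne hne, Function.update_self]
  have i2 : Function.update (Function.update I e I1) S.ps.length I2 S.ps.length = I2 :=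
    Function.update_self _ _ _
  have i3 : ∀ e' < S.ps.length, e' ≠ e →
      Function.update (Function.update I e I1) S.ps.length I2 e' = I e' := fun e' h1 h2 => by
    rw [Function.update_of_ne h1.ne, Function.update_of_ne h2]
  have xm : x ∈ I e := by rw [hI]; simp
  have m1 : ∀ z ∈ I1, z ∈ I e := fun z hz => by rw [hI]; simp [hz]
  have m2 : ∀ z ∈ I2, z ∈ I e := fun z hz => by rw [hI]; simp [hz]
  have hnd := h.nd e he
  rw [hI, List.nodup_append, List.nodup_cons] at hnd
  obtain ⟨n1, ⟨n2, n3⟩, n4⟩ := hnd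
  have xI1 : x ∉ I1 := fun hx => n4 x hx x (by simp) rfl
  have I12 : ∀ z ∈ I1, z ∉ I2 := fun z hz hz2 => n4 z hz z (by simp [hz2]) rfl
  have cs : ∀ e' < (S.split e).ps.length, e' = e ∨ e' = S.ps.length ∨ (e' < S.ps.length ∧ e' ≠ e) := by
    intro e' h1
    rw [hl] at h1
    omega
  have cv : ∀ i < (S.split e).nv, i = S.nv ∨ i < S.nv := by
    intro i h1
    rw [hv] at h1
    omega
  have hxf : ∀ i < S.nv, f i ≠ x := fun i hi h1 => h.fI i hi e he (h1 ▸ xm)
  have htE := isE_norm _ hE
  obtain ⟨F, hF⟩ : ∃ F, F = Function.update f S.nv x := ⟨_, rfl⟩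
  obtain ⟨J, hJ⟩ : ∃ J, J = Function.update (Function.update I e I1) S.ps.length I2 := ⟨_, rfl⟩
  rw [← hF] at f1 f2 ⊢
  rw [← hJ] at i1 i2 i3 ⊢
  have hlt := h.lt e he
  have hch := h.ch e he
  refine { lt := ?_, ch := ?_, inj := ?_, nd := ?_, dj := ?_, fI := ?_, emp := ?_, sC := ?_, sD := ?_, wN := ?_,
           wW := ?_, wI := ?_, sn := ?_ }
  · intro e' h1
    rcases cs e' h1 with rfl | rfl | ⟨h2, h3⟩
    · rw [p1, hv]
      exact ⟨by have := hlt.1; omega, by simp⟩
    · rw [p2, hv]
      exact ⟨by simp, by have := hlt.2; simp only; omega⟩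
    · rw [p3 e' h2 h3, hv]
      have := h.lt e' h2
      omega
  · intro e' h1
    rw [hI] at hch
    rcases cs e' h1 with rfl | rfl | ⟨h2, h3⟩
    · rw [p1, i1]
      simp only
      rw [f1, f2 _ hlt.1]
      have h4 : f (S.pc e').1 :: ((I1 ++ x :: I2) ++ [f (S.pc e').2.1]) =
          (f (S.pc e').1 :: (I1 ++ [x])) ++ (I2 ++ [f (S.pc e').2.1]) := by simp
      rw [h4] at hch
      exact hch.left_of_append
    · rw [p2, i2]
      simp only
      rw [f1, f2 _ hlt.2]
      have h4 : f (S.pc e).1 :: ((I1 ++ x :: I2) ++ [f (S.pc e).2.1]) =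
          (f (S.pc e).1 :: I1) ++ (x :: (I2 ++ [f (S.pc e).2.1])) := by simp
      rw [h4] at hch
      exact hch.right_of_append
    · rw [p3 e' h2 h3, i3 e' h2 h3, f2 _ (h.lt e' h2).1, f2 _ (h.lt e' h2).2]
      exact h.ch e' h2
  · intro i hi j hj hij
    rcases cv i hi with rfl | hi2 <;> rcases cv j hj with rfl | hj2
    · rfl
    · rw [f1, f2 j hj2] at hij
      exact absurd hij.symm (hxf j hj2)
    · rw [f1, f2 i hi2] at hij
      exact absurd hij (hxf i hi2)
    · rw [f2 i hi2, f2 j hj2] at hij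
      exact h.inj i hi2 j hj2 hij
  · intro e' h1
    rcases cs e' h1 with rfl | rfl | ⟨h2, h3⟩
    · rw [i1]; exact n1
    · rw [i2]; exact n3
    · rw [i3 e' h2 h3]; exact h.nd e' h2
  · intro e1 h1 e2 h2 h12 z hz
    rcases cs e1 h1 with rfl | rfl | ⟨h3, h4⟩ <;> rcases cs e2 h2 with rfl | rfl | ⟨h5, h6⟩
    · exact absurd rfl h12
    · rw [i1] at hz; rw [i2]; exact I12 z hz
    · rw [i1] at hz; rw [i3 e2 h5 h6]; exact h.dj e1 he e2 h5 (fun h7 => h6 h7.symm) z (m1 z hz)
    · rw [i2] at hz; rw [i1]; exact fun h7 => I12 z h7 hz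
    · exact absurd rfl h12
    · rw [i2] at hz; rw [i3 e2 h5 h6]; exact h.dj e he e2 h5 (fun h7 => h6 h7.symm) z (m2 z hz)
    · rw [i3 e1 h3 h4] at hz; rw [i1]; exact fun h7 => h.dj e1 h3 e2 he h4 z hz (m1 z h7)
    · rw [i3 e1 h3 h4] at hz; rw [i2]; exact fun h7 => h.dj e1 h3 e he h4 z hz (m2 z h7)
    · rw [i3 e1 h3 h4] at hz; rw [i3 e2 h5 h6]; exact h.dj e1 h3 e2 h5 h12 z hz
  · intro i hi e' h1
    rcases cs e' h1 with rfl | rfl | ⟨h2, h3⟩
    · rw [i1]
      rcases cv i hi with rfl | hi2
      · rw [f1]; exact xI1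
      · rw [f2 i hi2]; exact fun h4 => h.fI i hi2 e' he (m1 _ h4)
    · rw [i2]
      rcases cv i hi with rfl | hi2
      · rw [f1]; exact n2
      · rw [f2 i hi2]; exact fun h4 => h.fI i hi2 e he (m2 _ h4)
    · rw [i3 e' h2 h3]
      rcases cv i hi with rfl | hi2
      · rw [f1]; exact fun h4 => h.dj e' h2 e he h3 x h4 xm
      · rw [f2 i hi2]; exact h.fI i hi2 e' h2
  · intro e' h1 h2
    rcases cs e' h1 with rfl | rfl | ⟨h3, h4⟩
    · rw [p1] at h2; simp only at h2; rw [htE] at h2; exact absurd h2 (by decide)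
    · rw [p2] at h2; simp only at h2; rw [htE] at h2; exact absurd h2 (by decide)
    · rw [p3 e' h3 h4] at h2
      rw [i3 e' h3 h4]
      exact h.emp e' h3 h2
  · rw [hl]
    refine (sum_split _ e he (fun e => if isC (S.pc e).2.2 = true then (I e).length + 1 else 0) _
      (fun i hi hie => ?_) ?_).trans h.sC
    · rw [p3 i hi hie, i3 i hi hie]
    · rw [p1, p2, i1, i2, hI]
      simp only
      rw [isC_norm _ hE]
      by_cases h3 : isC (S.pc e).2.2 = true
      · simp only [h3, if_true, List.length_append, List.length_cons]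
        omega
      · simp only [h3, Bool.false_eq_true, if_false]
  · rw [hl]
    refine (sum_split _ e he (fun e => if isD (S.pc e).2.2 = true then (I e).length + 1 else 0) _
      (fun i hi hie => ?_) ?_).trans h.sD
    · rw [p3 i hi hie, i3 i hi hie]
    · rw [p1, p2, i1, i2, hI]
      simp only
      rw [isD_norm _ hE]
      by_cases h3 : isD (S.pc e).2.2 = true
      · simp only [h3, if_true, List.length_append, List.length_cons]
        omega
      · simp only [h3, Bool.false_eq_true, if_false]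
  · intro i hi hs
    rcases cv i hi with rfl | hi2
    · rw [f1]; exact h.wI e he x xm
    · rw [f2 i hi2]; exact h.wN i hi2 hs
  · intro i hi hs
    have hi2 : i < S.nv := lt_trans hs h.sn
    rw [f2 i hi2]; exact h.wW i hi2 hs
  · intro e' h1 z hz
    rcases cs e' h1 with rfl | rfl | ⟨h2, h3⟩
    · rw [i1] at hz; exact h.wI e' he z (m1 z hz)
    · rw [i2] at hz; exact h.wI e he z (m2 z hz)
    · rw [i3 e' h2 h3] at hz; exact h.wI e' h2 z hz
  · rw [hv]; have := h.sn; omega

end LongCyc
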